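import Mathlib

/-!
# Module OG-ROUND (MP_d22128_co, helper75): rounding a fractional bipartite d-factor.

**frac_hall.** `L`, `R` finite, `M : L → R → ℚ`, `M ≥ 0`, all row sums and all column sums are `1`.
Then there is a bijection `f : L ≃ R` with `M a (f a) > 0` for all `a`.
Proof: Hall (`Finset.all_card_le_biUnion_card_iff_exists_injective` or
`Fintype.all_card_le_rel_image_card_iff_exists_injective`) for `t a = {b | 0 < M a b}`: for
`A ⊆ L`, `|A| = ∑_{a∈A} ∑_b M a b = ∑_{a∈A} ∑_{b∈t(A)} M a b ≤ ∑_{b∈t(A)} ∑_a M a b = |t(A)|`.
The injection is bijective because `|L| = ∑∑ M = |R|`.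

**mat_round.** `q : L → R → ℚ` with values in `[0,1]`, all row and column sums equal to the natural
number `d`. Then there is a 0/1 matrix `x` with all row and column sums `d`, `x = 0` where `q = 0`
and `x = 1` where `q = 1`.
Proof (ports): `d = 0` is trivial (q = 0). For `d ≥ 1` apply `frac_hall` to
`L' = (L × R) ⊕ (L × Fin d)`, `R' = (L × R) ⊕ (R × Fin d)` and
`M (inl (i,j)) (inl (i,j)) = 1 - q i j`, `M (inl (i,j)) (inr (j,p)) = q i j / d`,
`M (inr (i,p)) (inl (i,j)) = q i j / d`, all other entries `0`. (Row sums: `1 - q + d (q/d) = 1`;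
`∑_j q i j / d = 1`; column sums the same.) Let `f` be the bijection and
`x i j := f (inl (i,j)) ≠ inl (i,j)`, i.e. `f (inl (i,j)) = inr (j,p)` for some `p`.
Column `j`: `i ↦ p` is injective on `{i | x i j}`, and surjective onto `Fin d` because
`f.symm (inr (j,p))` must be of the form `inl (i,j)`. Row `i`: `p ↦ j` where
`f (inr (i,p)) = inl (i,j)` is a bijection of `Fin d` onto `{j | x i j}`: `x i j` holds because
`inl (i,j)` is already the image of `inr (i,p)`; conversely if `x i j` then `f.symm (inl (i,j))` is
not `inl (i,j)`, so it is some `inr (i,p)`.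
-/

set_option autoImplicit false

namespace OddGr75

theorem frac_hall {L R : Type*} [Fintype L] [Fintype R] [DecidableEq L] [DecidableEq R]
    (M : L → R → ℚ) (h0 : ∀ a b, 0 ≤ M a b) (hr : ∀ a, ∑ b, M a b = 1)
    (hc : ∀ b, ∑ a, M a b = 1) : ∃ f : L ≃ R, ∀ a, 0 < M a (f a) := by
  classical
  set t : L → Finset R := fun a => Finset.univ.filter fun b => 0 < M a b with ht
  have hall : ∀ A : Finset L, A.card ≤ (A.biUnion t).card := by
    intro A
    have h : (A.card : ℚ) ≤ ((A.biUnion t).card : ℚ) := by
      calc (A.card : ℚ) = ∑ a ∈ A, ∑ b, M a b := by simp [hr]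
        _ = ∑ a ∈ A, ∑ b ∈ A.biUnion t, M a b := by
            refine Finset.sum_congr rfl fun a ha => ?_
            symm
            refine Finset.sum_subset (Finset.subset_univ _) fun b _ hb => ?_
            by_contra hne
            apply hb
            rw [Finset.mem_biUnion]
            refine ⟨a, ha, ?_⟩
            rw [ht, Finset.mem_filter]
            exact ⟨Finset.mem_univ _, lt_of_le_of_ne (h0 a b) (Ne.symm hne)⟩
        _ = ∑ b ∈ A.biUnion t, ∑ a ∈ A, M a b := Finset.sum_comm
        _ ≤ ∑ b ∈ A.biUnion t, ∑ a, M a b :=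
            Finset.sum_le_sum fun b _ => Finset.sum_le_sum_of_subset_of_nonneg
              (Finset.subset_univ _) fun a _ _ => h0 a b
        _ = ((A.biUnion t).card : ℚ) := by simp [hc]
    exact_mod_cast h
  obtain ⟨f, hf, hft⟩ := (Finset.all_card_le_biUnion_card_iff_exists_injective t).1 hall
  have hcard : Fintype.card L = Fintype.card R := by
    have : (Fintype.card L : ℚ) = Fintype.card R := by
      calc (Fintype.card L : ℚ) = ∑ a, ∑ b, M a b := by simp [hr]
        _ = ∑ b, ∑ a, M a b := Finset.sum_comm
        _ = _ := by simp [hc]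
    exact_mod_cast this
  refine ⟨Equiv.ofBijective f ((Fintype.bijective_iff_injective_and_card f).2 ⟨hf, hcard⟩),
    fun a => ?_⟩
  have := hft a
  rw [ht, Finset.mem_filter] at this
  exact this.2

/-- the matrix with ports -/
def portMat {L R : Type*} [DecidableEq L] [DecidableEq R] (q : L → R → ℚ) (d : ℕ) :
    (L × R) ⊕ (L × Fin d) → (L × R) ⊕ (R × Fin d) → ℚ
  | Sum.inl (i, j), Sum.inl (i', j') => if (i, j) = (i', j') then 1 - q i j else 0
  | Sum.inl (i, j), Sum.inr (j', _) => if j = j' then q i j / d else 0
  | Sum.inr (i, _), Sum.inl (i', j') => if i = i' then q i' j' / d else 0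
  | Sum.inr _, Sum.inr _ => 0

theorem mat_round {L R : Type*} [Fintype L] [Fintype R] [DecidableEq L] [DecidableEq R]
    (q : L → R → ℚ) (d : ℕ) (h0 : ∀ i j, 0 ≤ q i j) (h1 : ∀ i j, q i j ≤ 1)
    (hr : ∀ i, ∑ j, q i j = d) (hc : ∀ j, ∑ i, q i j = d) :
    ∃ x : L → R → Bool, (∀ i j, q i j = 0 → x i j = false) ∧ (∀ i j, q i j = 1 → x i j = true) ∧
      (∀ i, (Finset.univ.filter (fun j => x i j = true)).card = d) ∧
      (∀ j, (Finset.univ.filter (fun i => x i j = true)).card = d) := by
  rcases Nat.eq_zero_or_pos d with hd | hd
  · subst hd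
    have hq : ∀ i j, q i j = 0 := by
      intro i j
      have h := hr i
      rw [Nat.cast_zero, Finset.sum_eq_zero_iff_of_nonneg fun j _ => h0 i j] at h
      exact h j (Finset.mem_univ _)
    refine ⟨fun _ _ => false, fun _ _ _ => rfl, fun i j h => ?_, fun i => by simp, fun j => by simp⟩
    rw [hq i j] at h
    exact absurd h zero_ne_one
  have hd' : (d : ℚ) ≠ 0 := by exact_mod_cast hd.ne'
  obtain ⟨f, hf⟩ := frac_hall (portMat q d)
    (by
      rintro (⟨i, j⟩ | ⟨i, p⟩) (⟨i', j'⟩ | ⟨j', p'⟩)
      · simp only [portMat]
        split_ifs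
        · exact sub_nonneg.2 (h1 i j)
        · exact le_rfl
      · simp only [portMat]
        split_ifs
        · exact div_nonneg (h0 _ _) (Nat.cast_nonneg _)
        · exact le_rfl
      · simp only [portMat]
        split_ifs
        · exact div_nonneg (h0 _ _) (Nat.cast_nonneg _)
        · exact le_rfl
      · exact le_rfl)
    (by
      rintro (⟨i, j⟩ | ⟨i, p⟩)
      · rw [Fintype.sum_sum_type]
        have e1 : ∑ b : L × R, portMat q d (Sum.inl (i, j)) (Sum.inl b) = 1 - q i j := by
          simp only [portMat, Finset.sum_ite_eq, Finset.mem_univ, if_true]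
        have e2 : ∑ b : R × Fin d, portMat q d (Sum.inl (i, j)) (Sum.inr b) = q i j := by
          rw [Fintype.sum_prod_type]
          simp only [portMat, Finset.sum_const, Finset.card_univ, Fintype.card_fin, nsmul_eq_mul,
            mul_ite, mul_zero, Finset.sum_ite_eq, Finset.mem_univ, if_true]
          field_simp
        rw [e1, e2]
        ring
      · rw [Fintype.sum_sum_type]
        have e1 : ∑ b : L × R, portMat q d (Sum.inr (i, p)) (Sum.inl b) = 1 := by
          rw [Fintype.sum_prod_type]
          simp only [portMat]
          rw [Finset.sum_eq_single i]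
          · simp only [if_true]
            rw [← Finset.sum_div, hr i, div_self hd']
          · intro i' _ hi'
            refine Finset.sum_eq_zero fun j' _ => ?_
            rw [if_neg (Ne.symm hi')]
          · intro h
            exact absurd (Finset.mem_univ _) h
        have e2 : ∑ b : R × Fin d, portMat q d (Sum.inr (i, p)) (Sum.inr b) = 0 :=
          Finset.sum_eq_zero fun b _ => rfl
        rw [e1, e2, add_zero])
    (by
      rintro (⟨i, j⟩ | ⟨j, p⟩)
      · rw [Fintype.sum_sum_type]
        have e1 : ∑ b : L × R, portMat q d (Sum.inl b) (Sum.inl (i, j)) = 1 - q i j := by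
          rw [Finset.sum_eq_single (i, j)]
          · simp only [portMat, if_true]
          · rintro ⟨i', j'⟩ _ hne
            simp only [portMat]
            rw [if_neg hne]
          · intro h
            exact absurd (Finset.mem_univ _) h
        have e2 : ∑ b : L × Fin d, portMat q d (Sum.inr b) (Sum.inl (i, j)) = q i j := by
          rw [Fintype.sum_prod_type]
          simp only [portMat, Finset.sum_const, Finset.card_univ, Fintype.card_fin, nsmul_eq_mul,
            mul_ite, mul_zero, Finset.sum_ite_eq', Finset.mem_univ, if_true]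
          field_simp
        rw [e1, e2]
        ring
      · rw [Fintype.sum_sum_type]
        have e1 : ∑ b : L × R, portMat q d (Sum.inl b) (Sum.inr (j, p)) = 1 := by
          rw [Fintype.sum_prod_type]
          simp only [portMat, Finset.sum_ite_eq', Finset.mem_univ, if_true]
          rw [← Finset.sum_div, hc j, div_self hd']
        have e2 : ∑ b : L × Fin d, portMat q d (Sum.inr b) (Sum.inr (j, p)) = 0 :=
          Finset.sum_eq_zero fun b _ => rfl
        rw [e1, e2, add_zero])
  -- the possible images
  have hA : ∀ i j, f (Sum.inl (i, j)) = Sum.inl (i, j) ∨ ∃ p, f (Sum.inl (i, j)) = Sum.inr (j, p) := by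
    intro i j
    have h := hf (Sum.inl (i, j))
    rcases hfe : f (Sum.inl (i, j)) with ⟨i', j'⟩ | ⟨j', p⟩
    · rw [hfe] at h
      simp only [portMat] at h
      split_ifs at h with h2
      · left
        rw [h2]
      · exact absurd h (lt_irrefl _)
    · rw [hfe] at h
      simp only [portMat] at h
      split_ifs at h with h2
      · right
        exact ⟨p, by rw [h2]⟩
      · exact absurd h (lt_irrefl _)
  have hB : ∀ i p, ∃ j, f (Sum.inr (i, p)) = Sum.inl (i, j) := by
    intro i p
    have h := hf (Sum.inr (i, p))
    rcases hfe : f (Sum.inr (i, p)) with ⟨i', j'⟩ | ⟨j', p⟩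
    · rw [hfe] at h
      simp only [portMat] at h
      split_ifs at h with h2
      · exact ⟨j', by rw [h2]⟩
      · exact absurd h (lt_irrefl _)
    · rw [hfe] at h
      exact absurd h (lt_irrefl _)
  have hC : ∀ j p, ∃ i, f (Sum.inl (i, j)) = Sum.inr (j, p) := by
    intro j p
    have h := hf (f.symm (Sum.inr (j, p)))
    have h' := f.apply_symm_apply (Sum.inr (j, p))
    rcases hfe : f.symm (Sum.inr (j, p)) with ⟨i', j'⟩ | ⟨i', p'⟩
    · rw [hfe] at h' h
      rw [h'] at h
      simp only [portMat] at h
      split_ifs at h with h2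
      · exact ⟨i', by rw [← h', h2]⟩
      · exact absurd h (lt_irrefl _)
    · rw [hfe] at h' h
      rw [h'] at h
      exact absurd h (lt_irrefl _)
  choose g hg using hB
  choose k hk using hC
  refine ⟨fun i j => decide (f (Sum.inl (i, j)) ≠ Sum.inl (i, j)), ?_, ?_, ?_, ?_⟩
  · intro i j hq
    rw [decide_eq_false_iff_not, not_not]
    rcases hA i j with h | ⟨p, h⟩
    · exact h
    · have h2 := hf (Sum.inl (i, j))
      rw [h] at h2
      simp only [portMat, hq, zero_div, if_true] at h2
      exact absurd h2 (lt_irrefl _)
  · intro i j hq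
    rw [decide_eq_true_iff]
    intro h
    have h2 := hf (Sum.inl (i, j))
    rw [h] at h2
    simp only [portMat, hq, sub_self, if_true] at h2
    exact absurd h2 (lt_irrefl _)
  · intro i
    have e : (Finset.univ.filter fun j => decide (f (Sum.inl (i, j)) ≠ Sum.inl (i, j)) = true) =
        Finset.univ.image (g i) := by
      ext j
      rw [Finset.mem_filter, Finset.mem_image, decide_eq_true_iff]
      constructor
      · rintro ⟨_, hne⟩
        have h := hf (f.symm (Sum.inl (i, j)))
        have h' := f.apply_symm_apply (Sum.inl (i, j))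
        rcases hfe : f.symm (Sum.inl (i, j)) with ⟨i', j'⟩ | ⟨i', p'⟩
        · rw [hfe] at h' h
          rw [h'] at h
          simp only [portMat] at h
          split_ifs at h with h2
          · rw [h2] at h'
            exact absurd h' hne
          · exact absurd h (lt_irrefl _)
        · rw [hfe] at h' h
          rw [h'] at h
          simp only [portMat] at h
          split_ifs at h with h2
          · refine ⟨p', Finset.mem_univ _, ?_⟩
            subst h2
            have h3 := hg i' p'
            rw [h'] at h3
            have h4 := Sum.inl.inj h3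
            exact (congrArg Prod.snd h4).symm
          · exact absurd h (lt_irrefl _)
      · rintro ⟨p, _, hp⟩
        refine ⟨Finset.mem_univ _, fun h => ?_⟩
        have h3 := hg i p
        rw [hp, ← h] at h3
        exact Sum.inr_ne_inl (f.injective h3)
    rw [e, Finset.card_image_of_injective, Finset.card_univ, Fintype.card_fin]
    intro p p' hpp
    have h3 := hg i p
    have h4 := hg i p'
    rw [hpp, ← h4] at h3
    have h5 := Sum.inr.inj (f.injective h3)
    exact congrArg Prod.snd h5
  · intro j
    have e : (Finset.univ.filter fun i => decide (f (Sum.inl (i, j)) ≠ Sum.inl (i, j)) = true) =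
        Finset.univ.image (k j) := by
      ext i
      rw [Finset.mem_filter, Finset.mem_image, decide_eq_true_iff]
      constructor
      · rintro ⟨_, hne⟩
        rcases hA i j with h | ⟨p, h⟩
        · exact absurd h hne
        · refine ⟨p, Finset.mem_univ _, ?_⟩
          have h3 := hk j p
          rw [← h] at h3
          have h4 := Sum.inl.inj (f.injective h3)
          exact congrArg Prod.fst h4
      · rintro ⟨p, _, hp⟩
        refine ⟨Finset.mem_univ _, fun h => ?_⟩
        have h3 := hk j p
        rw [hp, h] at h3
        exact Sum.inl_ne_inr h3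
    rw [e, Finset.card_image_of_injective, Finset.card_univ, Fintype.card_fin]
    intro p p' hpp
    have h3 := hk j p
    have h4 := hk j p'
    rw [hpp, h4] at h3
    have h5 := Sum.inr.inj h3
    exact (congrArg Prod.snd h5).symm

end OddGr75
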