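import Pool.Agent.OddGr75.Defs

/-!
# Module OG-BASIC (MP_d22128_co, helper75): elementary facts on chi, wt, un, ew, hw, theta, psi.

All proofs are short.  `bar` is a fixed point free involution with `c (bar p) = - c p`, `c p = ±1`.

* `chi_insert`, `wt_insert`, `chi_erase`, `wt_erase`: products and sums.
* `wt_compl`: the total sum of `c` is zero (pair cancellation); `chi_compl`: the total product of
  `c` is `(-1)^h` (each pair contributes `-1`).
* `un_compl`: `a ∈ A, bar a ∉ A` iff `bar a ∈ Aᶜ, bar (bar a) ∉ Aᶜ`; use the bijection `bar`.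
* `un_insert_free` (`x ∉ B`, `bar x ∉ B`): the new point is unpaired, the others do not change.
  `un_insert_pair` (`x ∉ A`, `bar x ∈ A`): `bar x` stops being unpaired, `x` is paired.
* `abs_wt_le_un`: the paired points cancel, so `wt A = ∑_{unpaired} c`.
* `un_add_card_le`: with m0 empty, m2 full, u = un A single pairs: `m0 + u + m2 = h`,
  `card A = u + 2 m2`, so `un A + card A = 2u + 2 m2 ≤ 2h`. `un_parity`: `card A = u + 2 m2`.
* `sum_pair_cancel`: if `S` is closed under `bar` and `f (bar a) = - f a` on `S` then `∑_S f = 0`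
  (`Finset.sum_involution`, or `2 ∑ = 0`).
* `sum_theta`: over the unpaired `b`: `∑ (wt B - c b) = (un B - 1) wt B` because the sum of `c` over
  the unpaired points is `wt B`; if `un B = 1` every term is `x / 0 = 0`.
* `sum_theta_ins`: for `b ∉ B`: if `bar b ∈ B` the term is `0`; otherwise
  `theta (insert b B) b = - chi B * c b * wt B / un B`, antisymmetric in `b ↔ bar b` over the empty
  pairs, so the sum is `0`.
* `sum_psi`, `sum_psi_er`: the same for `psi` (the points `i ∉ A` with `bar i ∈ A` are the partners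
  of the unpaired points; for `z ∈ Z` with `bar z ∈ Z`: `psi (Z.erase z) z = chi Z * c z * wt Z / un Z`).
* `abs_theta_le`: `|wt B - c b| ≤ un B - 1` if `b` is unpaired (sum of the signs of the other
  unpaired points).
-/

set_option autoImplicit false

namespace OddGr75

variable {h : ℕ}

theorem bar_bar (p : P h) : bar (bar p) = p := by
  simp [bar]

theorem bar_ne (p : P h) : bar p ≠ p := by
  intro e
  have := congrArg Prod.snd e
  simp [bar] at this

theorem bar_inj {p q : P h} (e : bar p = bar q) : p = q := by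
  have := congrArg bar e
  rwa [bar_bar, bar_bar] at this

theorem c_bar (p : P h) : c (bar p) = -c p := by
  rcases p with ⟨a, b⟩
  cases b <;> simp [c, bar]

theorem c_pm (p : P h) : c p = 1 ∨ c p = -1 := by
  unfold c
  split_ifs
  · right; rfl
  · left; rfl

theorem c_sq (p : P h) : c p * c p = 1 := by
  rcases c_pm p with e | e <;> rw [e] <;> norm_num

theorem chi_pm (A : Finset (P h)) : chi A = 1 ∨ chi A = -1 := by
  induction A using Finset.induction_on with
  | empty => left; rfl
  | insert a s ha ih =>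
    unfold chi at *
    rw [Finset.prod_insert ha]
    rcases ih with e | e <;> rcases c_pm a with e' | e' <;> rw [e, e'] <;> norm_num

theorem chi_sq (A : Finset (P h)) : chi A * chi A = 1 := by
  rcases chi_pm A with e | e <;> rw [e] <;> norm_num

theorem abs_chi (A : Finset (P h)) : |chi A| = 1 := by
  rcases chi_pm A with e | e <;> rw [e] <;> norm_num

theorem chi_insert {A : Finset (P h)} {x : P h} (hx : x ∉ A) :
    chi (insert x A) = chi A * c x := by
  unfold chi
  rw [Finset.prod_insert hx, mul_comm]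

theorem chi_erase {A : Finset (P h)} {x : P h} (hx : x ∈ A) :
    chi (A.erase x) = chi A * c x := by
  have h1 := Finset.mul_prod_erase A (c (h := h)) hx
  unfold chi
  rw [← h1]
  linear_combination (-(∏ a ∈ A.erase x, c a)) * c_sq x

theorem wt_insert {A : Finset (P h)} {x : P h} (hx : x ∉ A) :
    wt (insert x A) = wt A + c x := by
  unfold wt
  rw [Finset.sum_insert hx, add_comm]

theorem wt_erase {A : Finset (P h)} {x : P h} (hx : x ∈ A) :
    wt (A.erase x) = wt A - c x := by
  have h1 := Finset.add_sum_erase A (c (h := h)) hx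
  unfold wt
  linarith

theorem sum_pair_cancel (S : Finset (P h)) (f : P h → ℚ) (hS : ∀ a ∈ S, bar a ∈ S)
    (hf : ∀ a ∈ S, f (bar a) = -f a) : ∑ a ∈ S, f a = 0 := by
  have h1 : ∑ a ∈ S, f a = ∑ a ∈ S, f (bar a) :=
    Finset.sum_nbij' bar bar (fun a ha => hS a ha) (fun a ha => hS a ha)
      (fun a _ => bar_bar a) (fun a _ => bar_bar a) (fun a _ => by rw [bar_bar])
  rw [Finset.sum_congr rfl hf, Finset.sum_neg_distrib] at h1
  linarith

theorem wt_compl (A : Finset (P h)) : wt Aᶜ = -wt A := by
  have h1 : ∑ a ∈ (Finset.univ : Finset (P h)), c a = 0 :=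
    sum_pair_cancel _ _ (fun _ _ => Finset.mem_univ _) (fun a _ => c_bar a)
  have h2 := Finset.sum_compl_add_sum A (c (h := h))
  unfold wt
  linarith

theorem chi_compl (A : Finset (P h)) : chi Aᶜ = (-1) ^ h * chi A := by
  have h1 : ∏ a : P h, c a = (-1) ^ h := by
    rw [Fintype.prod_prod_type]
    simp [c]
  have h2 := Finset.prod_compl_mul_prod A (c (h := h))
  rw [h1] at h2
  have h3 : chi Aᶜ * chi A = (-1) ^ h := h2
  rw [← h3, mul_assoc, chi_sq, mul_one]

theorem un_compl (A : Finset (P h)) : un Aᶜ = un A := by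
  unfold un
  refine Finset.card_nbij' bar bar ?_ ?_ (fun a _ => bar_bar a) (fun a _ => bar_bar a)
  · intro a ha
    simp only [Finset.coe_filter, Set.mem_ofPred_eq, Finset.mem_compl, not_not, bar_bar] at ha ⊢
    exact ⟨ha.2, ha.1⟩
  · intro a ha
    simp only [Finset.coe_filter, Set.mem_ofPred_eq, Finset.mem_compl, not_not, bar_bar] at ha ⊢
    exact ⟨ha.2, ha.1⟩

theorem ew_compl (A : Finset (P h)) : ew Aᶜ = (-1) ^ (h + 1) * ew A := by
  unfold ew
  rw [un_compl, chi_compl, wt_compl]
  split_ifs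
  · rw [pow_succ]; ring
  · rw [mul_zero]

theorem hw_compl (A : Finset (P h)) : hw Aᶜ = (-1) ^ (h + 1) * hw A := by
  unfold hw
  rw [un_compl, chi_compl, wt_compl]
  split_ifs
  · rw [mul_zero]
  · rw [pow_succ]; ring

theorem hw_add_ew (A : Finset (P h)) : hw A + ew A = chi A * wt A := by
  unfold hw ew
  split_ifs
  · rw [zero_add]
  · rw [add_zero]

theorem ew_of_one {A : Finset (P h)} (hA : un A = 1) : ew A = chi A * wt A := by
  unfold ew
  rw [if_pos hA]

theorem ew_of_ne {A : Finset (P h)} (hA : un A ≠ 1) : ew A = 0 := by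
  unfold ew
  rw [if_neg hA]

theorem hw_of_one {A : Finset (P h)} (hA : un A = 1) : hw A = 0 := by
  unfold hw
  rw [if_pos hA]

theorem hw_of_ne {A : Finset (P h)} (hA : un A ≠ 1) : hw A = chi A * wt A := by
  unfold hw
  rw [if_neg hA]

theorem dn_chi (X : Finset (P h)) : dn chi X = chi X * wt X := by
  unfold dn
  rw [Finset.sum_congr rfl (fun x hx => chi_erase hx), ← Finset.mul_sum]
  rfl

theorem up_chi (B : Finset (P h)) : up chi B = -(chi B * wt B) := by
  unfold up
  rw [Finset.sum_congr rfl (fun x hx => chi_insert (Finset.mem_compl.1 hx)), ← Finset.mul_sum]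
  have h1 := wt_compl B
  change chi B * wt Bᶜ = _
  rw [h1]; ring

theorem dn_compl (f : Finset (P h) → ℚ) (s : ℚ) (hf : ∀ A, f Aᶜ = s * f A) (Z : Finset (P h)) :
    dn f Zᶜ = s * up f Z := by
  unfold dn up
  rw [Finset.mul_sum]
  refine Finset.sum_congr rfl fun z _ => ?_
  rw [← Finset.compl_insert, hf]

theorem up_compl (f : Finset (P h) → ℚ) (s : ℚ) (hf : ∀ A, f Aᶜ = s * f A) (Z : Finset (P h)) :
    up f Zᶜ = s * dn f Z := by
  unfold dn up
  rw [compl_compl, Finset.mul_sum]
  refine Finset.sum_congr rfl fun z _ => ?_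
  rw [← Finset.compl_erase, hf]

theorem dn_dn_compl (f : Finset (P h) → ℚ) (s : ℚ) (hf : ∀ A, f Aᶜ = s * f A)
    (Z : Finset (P h)) : dn (dn f) Zᶜ = s * up (up f) Z := by
  conv_lhs => unfold dn
  conv_rhs => unfold up
  rw [Finset.mul_sum]
  refine Finset.sum_congr rfl fun z _ => ?_
  rw [← Finset.compl_insert]
  exact dn_compl f s hf _

theorem un_insert_free {B : Finset (P h)} {x : P h} (hx : x ∉ B) (hb : bar x ∉ B) :
    un (insert x B) = un B + 1 := by
  unfold un
  have h1 : (insert x B).filter (fun a => bar a ∉ insert x B) =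
      insert x (B.filter (fun a => bar a ∉ B)) := by
    ext a
    simp only [Finset.mem_filter, Finset.mem_insert, not_or]
    constructor
    · rintro ⟨h1 | h1, h2, h3⟩
      · exact Or.inl h1
      · exact Or.inr ⟨h1, h3⟩
    · rintro (rfl | ⟨h1, h2⟩)
      · exact ⟨Or.inl rfl, bar_ne a, hb⟩
      · refine ⟨Or.inr h1, ?_, h2⟩
        rintro rfl
        rw [bar_bar] at hb
        exact hb h1
  rw [h1, Finset.card_insert_of_notMem]
  intro h2
  exact hx (Finset.mem_filter.1 h2).1

theorem un_insert_pair {A : Finset (P h)} {x : P h} (hx : x ∉ A) (hb : bar x ∈ A) :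
    un (insert x A) + 1 = un A := by
  unfold un
  have h1 : (insert x A).filter (fun a => bar a ∉ insert x A) =
      (A.filter (fun a => bar a ∉ A)).erase (bar x) := by
    ext a
    simp only [Finset.mem_filter, Finset.mem_insert, Finset.mem_erase, not_or]
    constructor
    · rintro ⟨h1 | h1, h2, h3⟩
      · subst h1; exact absurd hb h3
      · refine ⟨?_, h1, h3⟩
        rintro rfl
        exact h2 (bar_bar x)
    · rintro ⟨h1, h2, h3⟩
      refine ⟨Or.inr h2, ?_, h3⟩
      intro h4
      apply h1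
      rw [← h4, bar_bar]
  rw [h1, Finset.card_erase_add_one]
  rw [Finset.mem_filter, bar_bar]
  exact ⟨hb, hx⟩

theorem un_erase_free {B : Finset (P h)} {x : P h} (hx : x ∈ B) (hb : bar x ∉ B) :
    un (B.erase x) + 1 = un B := by
  have h1 := un_insert_free (Finset.notMem_erase x B)
    (fun h2 => hb (Finset.mem_of_mem_erase h2))
  rw [Finset.insert_erase hx] at h1
  exact h1.symm

theorem un_erase_pair {A : Finset (P h)} {x : P h} (hx : x ∈ A) (hb : bar x ∈ A) :
    un (A.erase x) = un A + 1 := by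
  have h1 := un_insert_pair (Finset.notMem_erase x A)
    (Finset.mem_erase.2 ⟨bar_ne x, hb⟩)
  rw [Finset.insert_erase hx] at h1
  exact h1.symm

theorem un_pos {B : Finset (P h)} {x : P h} (hx : x ∈ B) (hb : bar x ∉ B) : 0 < un B := by
  exact Finset.card_pos.2 ⟨x, Finset.mem_filter.2 ⟨hx, hb⟩⟩

/-- the paired points cancel -/
theorem Basic_wt_eq (A : Finset (P h)) :
    wt A = ∑ a ∈ A.filter (fun a => bar a ∉ A), c a := by
  have h1 : ∑ a ∈ A.filter (fun a => ¬ bar a ∉ A), c a = 0 := by
    refine sum_pair_cancel _ _ ?_ (fun a _ => c_bar a)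
    intro a ha
    simp only [Finset.mem_filter, not_not, bar_bar] at ha ⊢
    exact ⟨ha.2, ha.1⟩
  unfold wt
  rw [← Finset.sum_filter_add_sum_filter_not A (fun a => bar a ∉ A), h1, add_zero]

theorem abs_wt_le_un (A : Finset (P h)) : |wt A| ≤ un A := by
  rw [Basic_wt_eq A]
  refine (Finset.abs_sum_le_sum_abs _ _).trans ?_
  rw [Finset.sum_congr rfl (g := fun _ => (1 : ℚ))
    (fun a _ => by rcases c_pm a with e | e <;> rw [e] <;> norm_num)]
  simp [un]

theorem abs_wt_sub_le {B : Finset (P h)} {b : P h} (hb : b ∈ B) (hb' : bar b ∉ B) :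
    |wt B - c b| ≤ (un B : ℚ) - 1 := by
  rw [← wt_erase hb]
  have h1 := abs_wt_le_un (B.erase b)
  have h2 := un_erase_free hb hb'
  have h3 : (un B : ℚ) = un (B.erase b) + 1 := by exact_mod_cast h2.symm
  linarith

theorem un_le_card (A : Finset (P h)) : un A ≤ A.card := by
  exact Finset.card_filter_le _ _

theorem un_add_card_le (A : Finset (P h)) : un A + A.card ≤ 2 * h := by
  have h1 : un A ≤ Aᶜ.card := by
    unfold un
    refine Finset.card_le_card_of_injOn bar ?_ (fun a _ b _ e => bar_inj e)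
    intro a ha
    simp only [Finset.coe_filter, Set.mem_ofPred_eq] at ha
    simpa using ha.2
  have h2 := Finset.card_compl_add_card A
  have h3 : Fintype.card (P h) = 2 * h := by simp [P, mul_comm]
  omega

theorem un_parity (A : Finset (P h)) : ∃ m : ℕ, A.card = un A + 2 * m := by
  induction A using Finset.induction_on with
  | empty => exact ⟨0, rfl⟩
  | insert a s ha ih =>
    obtain ⟨m, hm⟩ := ih
    rw [Finset.card_insert_of_notMem ha]
    by_cases hb : bar a ∈ s
    · have h1 := un_insert_pair ha hb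
      exact ⟨m + 1, by omega⟩
    · have h1 := un_insert_free ha hb
      exact ⟨m, by omega⟩

/-- `|wt A| ≤ h - 1` if `|A| = h ± 1`. -/
theorem abs_wt_le_of_card {A : Finset (P h)} (hA : A.card + 1 = h ∨ A.card = h + 1) :
    |wt A| ≤ (h : ℚ) - 1 := by
  have h1 := abs_wt_le_un A
  have h2 := un_le_card A
  have h3 := un_add_card_le A
  have h4 : un A + 1 ≤ h := by omega
  have h5 : (un A : ℚ) + 1 ≤ h := by exact_mod_cast h4
  linarith

theorem abs_wt_le (A : Finset (P h)) : |wt A| ≤ h := by
  have h1 := abs_wt_le_un A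
  have h2 := un_le_card A
  have h3 := un_add_card_le A
  have h4 : un A ≤ h := by omega
  have h5 : (un A : ℚ) ≤ h := by exact_mod_cast h4
  linarith

theorem abs_ew_le (A : Finset (P h)) : |ew A| ≤ 1 := by
  unfold ew
  split_ifs with h1
  · rw [abs_mul, abs_chi, one_mul]
    have h2 := abs_wt_le_un A
    rwa [h1, Nat.cast_one] at h2
  · norm_num

theorem abs_hw_le_un (A : Finset (P h)) : |hw A| ≤ un A := by
  unfold hw
  split_ifs with h1
  · rw [abs_zero]; positivity
  · rw [abs_mul, abs_chi, one_mul]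
    exact abs_wt_le_un A

theorem abs_hw_le (A : Finset (P h)) : |hw A| ≤ h := by
  unfold hw
  split_ifs with h1
  · rw [abs_zero]; positivity
  · rw [abs_mul, abs_chi, one_mul]
    exact abs_wt_le A

theorem theta_of_one {B : Finset (P h)} (hB : un B = 1) (b : P h) : theta B b = 0 := by
  unfold theta
  rw [hB]
  simp

theorem psi_of_one {A : Finset (P h)} (hA : un A = 1) (i : P h) : psi A i = 0 := by
  unfold psi
  rw [hA]
  simp

theorem abs_theta_le {B : Finset (P h)} {b : P h} (hb : b ∈ B) : |theta B b| ≤ 1 := by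
  unfold theta
  split_ifs with h1
  · norm_num
  · have h2 := abs_wt_sub_le hb h1
    rw [abs_div, abs_neg, abs_mul, abs_chi, one_mul]
    refine div_le_one_of_le₀ (h2.trans (le_abs_self _)) (abs_nonneg _)

theorem abs_psi_le {A : Finset (P h)} {i : P h} (hi : i ∉ A) : |psi A i| ≤ 1 := by
  unfold psi
  split_ifs with h1
  · have h2 := abs_wt_sub_le h1 (by rwa [bar_bar])
    rw [c_bar, sub_neg_eq_add] at h2
    rw [abs_div, abs_mul, abs_chi, one_mul]
    refine div_le_one_of_le₀ (h2.trans (le_abs_self _)) (abs_nonneg _)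
  · norm_num

/-- empty pairs cancel -/
theorem sum_free_cancel (B : Finset (P h)) (g : ℕ → ℚ) :
    ∑ x ∈ Bᶜ, (if bar x ∈ B then 0 else c x * g (un (insert x B))) = 0 := by
  have h1 : ∑ x ∈ Bᶜ, (if bar x ∈ B then 0 else c x * g (un (insert x B))) =
      ∑ x ∈ Bᶜ.filter (fun a => bar a ∉ B), c x * g (un B + 1) := by
    rw [Finset.sum_filter]
    refine Finset.sum_congr rfl fun x hx => ?_
    by_cases h2 : bar x ∈ B
    · rw [if_pos h2, if_neg (not_not.2 h2)]
    · rw [if_neg h2, if_pos h2, un_insert_free (Finset.mem_compl.1 hx) h2]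
  rw [h1]
  refine sum_pair_cancel _ _ ?_ ?_
  · intro a ha
    simp only [Finset.mem_filter, Finset.mem_compl, bar_bar] at ha ⊢
    exact ⟨ha.2, ha.1⟩
  · intro a _
    rw [c_bar]; ring

/-- full pairs cancel -/
theorem sum_full_cancel (B : Finset (P h)) (g : ℕ → ℚ) :
    ∑ x ∈ B, (if bar x ∈ B then c x * g (un (B.erase x)) else 0) = 0 := by
  have h1 : ∑ x ∈ B, (if bar x ∈ B then c x * g (un (B.erase x)) else 0) =
      ∑ x ∈ B.filter (fun a => bar a ∈ B), c x * g (un B + 1) := by
    rw [Finset.sum_filter]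
    refine Finset.sum_congr rfl fun x hx => ?_
    by_cases h2 : bar x ∈ B
    · rw [if_pos h2, if_pos h2, un_erase_pair hx h2]
    · rw [if_neg h2, if_neg h2]
  rw [h1]
  refine sum_pair_cancel _ _ ?_ ?_
  · intro a ha
    simp only [Finset.mem_filter, bar_bar] at ha ⊢
    exact ⟨ha.2, ha.1⟩
  · intro a _
    rw [c_bar]; ring

theorem sum_theta (B : Finset (P h)) : ∑ b ∈ B, theta B b = -hw B := by
  by_cases h1 : un B = 1
  · rw [hw_of_one h1, neg_zero]
    exact Finset.sum_eq_zero fun b _ => theta_of_one h1 b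
  · rw [hw_of_ne h1]
    have h2 : ∑ b ∈ B, theta B b = ∑ b ∈ B.filter (fun a => bar a ∉ B),
        -(chi B * (wt B - c b)) / ((un B : ℚ) - 1) := by
      rw [Finset.sum_filter]
      refine Finset.sum_congr rfl fun b _ => ?_
      unfold theta
      split_ifs with h3 <;> rfl
    rw [h2, ← Finset.sum_div, Finset.sum_neg_distrib, ← Finset.mul_sum, Finset.sum_sub_distrib,
      ← Basic_wt_eq, Finset.sum_const, nsmul_eq_mul]
    have h3 : ((un B : ℚ) - 1) ≠ 0 := by
      intro h4
      apply h1
      have h5 : (un B : ℚ) = 1 := by linarith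
      exact_mod_cast h5
    change -(chi B * ((un B : ℚ) * wt B - wt B)) / ((un B : ℚ) - 1) = _
    rw [div_eq_iff h3]
    ring

theorem sum_theta_ins (B : Finset (P h)) : ∑ b ∈ Bᶜ, theta (insert b B) b = 0 := by
  rw [← sum_free_cancel B (fun n => -(chi B * wt B) / ((n : ℚ) - 1))]
  refine Finset.sum_congr rfl fun b hb => ?_
  have hb' := Finset.mem_compl.1 hb
  unfold theta
  by_cases h1 : bar b ∈ B
  · rw [if_pos h1, if_pos (Finset.mem_insert_of_mem h1)]
  · rw [if_neg h1, if_neg, chi_insert hb', wt_insert hb']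
    · ring
    · rw [Finset.mem_insert, not_or]
      exact ⟨bar_ne b, h1⟩

theorem sum_psi (A : Finset (P h)) : ∑ i ∈ Aᶜ, psi A i = hw A := by
  by_cases h1 : un A = 1
  · rw [hw_of_one h1]
    exact Finset.sum_eq_zero fun b _ => psi_of_one h1 b
  · rw [hw_of_ne h1]
    have h2 : ∑ i ∈ Aᶜ, psi A i = ∑ b ∈ A.filter (fun a => bar a ∉ A),
        (chi A * (wt A - c b)) / ((un A : ℚ) - 1) := by
      have h3 : ∑ i ∈ Aᶜ, psi A i = ∑ i ∈ Aᶜ.filter (fun a => bar a ∈ A), psi A i := by
        rw [Finset.sum_filter]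
        refine Finset.sum_congr rfl fun b _ => ?_
        unfold psi
        split_ifs <;> rfl
      rw [h3]
      refine Finset.sum_nbij' bar bar ?_ ?_ (fun a _ => bar_bar a) (fun a _ => bar_bar a) ?_
      · intro a ha
        simp only [Finset.mem_filter, Finset.mem_compl, bar_bar] at ha ⊢
        exact ⟨ha.2, ha.1⟩
      · intro a ha
        simp only [Finset.mem_filter, Finset.mem_compl, bar_bar] at ha ⊢
        exact ⟨ha.2, ha.1⟩
      · intro a ha
        simp only [Finset.mem_filter] at ha
        unfold psi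
        rw [if_pos ha.2, c_bar, sub_neg_eq_add]
    rw [h2, ← Finset.sum_div, ← Finset.mul_sum, Finset.sum_sub_distrib,
      ← Basic_wt_eq, Finset.sum_const, nsmul_eq_mul]
    have h3 : ((un A : ℚ) - 1) ≠ 0 := by
      intro h4
      apply h1
      have h5 : (un A : ℚ) = 1 := by linarith
      exact_mod_cast h5
    change (chi A * ((un A : ℚ) * wt A - wt A)) / ((un A : ℚ) - 1) = _
    rw [div_eq_iff h3]
    ring

theorem sum_psi_er (Z : Finset (P h)) : ∑ z ∈ Z, psi (Z.erase z) z = 0 := by
  rw [← sum_full_cancel Z (fun n => chi Z * wt Z / ((n : ℚ) - 1))]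
  refine Finset.sum_congr rfl fun z hz => ?_
  unfold psi
  by_cases h1 : bar z ∈ Z
  · rw [if_pos h1, if_pos (Finset.mem_erase.2 ⟨bar_ne z, h1⟩), chi_erase hz, wt_erase hz]
    ring
  · rw [if_neg h1, if_neg (fun h2 => h1 (Finset.mem_of_mem_erase h2))]

end OddGr75
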