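import Mathlib

/-!
# MP_d22128_co (S11613), helper75: shared definitions.

Ground set of one half: `P h = Fin h × Bool` (h pairs), `bar` swaps the two points of a pair,
`c p = ±1` is antisymmetric under `bar`.  `chi A = ∏ c`, `wt A = ∑ c`, `un A` = number of unpaired
points of `A`, `ew`, `hw` = the part of `chi * wt` on sets with `un = 1` resp. `un ≠ 1`.
-/

set_option autoImplicit false

namespace OddGr75

/-- `h` pairs of points. -/
abbrev P (h : ℕ) : Type := Fin h × Bool

variable {h : ℕ}

/-- the partner of a point -/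
def bar (p : P h) : P h := (p.1, !p.2)

/-- the sign of a point -/
def c (p : P h) : ℚ := if p.2 then -1 else 1

/-- product of the signs -/
def chi (A : Finset (P h)) : ℚ := ∏ a ∈ A, c a

/-- sum of the signs -/
def wt (A : Finset (P h)) : ℚ := ∑ a ∈ A, c a

/-- number of unpaired points -/
def un (A : Finset (P h)) : ℕ := (A.filter (fun a => bar a ∉ A)).card

/-- `chi * wt` on the sets with exactly one unpaired point -/
def ew (A : Finset (P h)) : ℚ := if un A = 1 then chi A * wt A else 0

/-- `chi * wt` on the other sets -/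
def hw (A : Finset (P h)) : ℚ := if un A = 1 then 0 else chi A * wt A

/-- used for `b ∈ B` (division by zero is zero) -/
def theta (B : Finset (P h)) (b : P h) : ℚ :=
  if bar b ∈ B then 0 else -(chi B * (wt B - c b)) / ((un B : ℚ) - 1)

/-- used for `i ∉ A` (division by zero is zero) -/
def psi (A : Finset (P h)) (i : P h) : ℚ :=
  if bar i ∈ A then chi A * (wt A + c i) / ((un A : ℚ) - 1) else 0

/-- sum over the lower neighbours -/
def dn (f : Finset (P h) → ℚ) (Z : Finset (P h)) : ℚ := ∑ z ∈ Z, f (Z.erase z)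

/-- sum over the upper neighbours -/
def up (f : Finset (P h) → ℚ) (B : Finset (P h)) : ℚ := ∑ x ∈ Bᶜ, f (insert x B)

/-- The sign function of the first cut (module `Rho`). -/
structure RhoData (h : ℕ) where
  rho : Finset (P h) → ℚ
  pm : ∀ X, rho X = 1 ∨ rho X = -1
  compl : ∀ X, rho Xᶜ = (-1) ^ (h + 1) * rho X
  up1 : ∀ B, B.card + 1 = h → |up rho B| ≤ (h : ℚ) - 1
  up2 : ∀ B, B.card + 2 = h →
    |up (up rho) B| ≤ 2 * (h : ℚ) ^ 2 * ((h : ℚ) - 1) / (2 * (h : ℚ) + 1)

/-- The sign function on the sets of `h - 1` points without unpaired point (module `Sig`). -/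
structure SigData (h : ℕ) where
  sig : Finset (P h) → ℚ
  ps : Finset (P h) → P h → ℚ
  th : Finset (P h) → P h → ℚ
  pm : ∀ X, X.card + 1 = h → un X = 0 → sig X = 1 ∨ sig X = -1
  zero : ∀ X, un X ≠ 0 → sig X = 0
  ps_sum : ∀ X, X.card = h → ∑ i ∈ Xᶜ, ps X i = dn sig X
  ps_er : ∀ Z, Z.card = h + 1 → ∑ z ∈ Z, ps (Z.erase z) z = 0
  ps_b : ∀ X i, X.card = h → i ∉ X → |ps X i| ≤ 3
  th_sum : ∀ B, B.card + 1 = h → ∑ b ∈ B, th B b = sig B
  th_ins : ∀ B, B.card + 2 = h → ∑ b ∈ Bᶜ, th (insert b B) b = 0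
  th_b : ∀ B b, B.card + 1 = h → b ∈ B → |th B b| ≤ 1 / 2
  th_un : ∀ B b, B.card + 1 = h → b ∈ B → un B = 1 → th B b = 0

section Flow

/-- value on the edge adding `x` to the first part of `A = (A1, A2)`, `|A1| + |A2| = 2h - 1` -/
def WF1 (rho : Finset (P h) → ℚ) (A1 A2 : Finset (P h)) (x : P h) : ℚ :=
  if A1.card = h then rho A1 * (chi A2 * wt A2) / h
  else if A1.card = h + 1 then dn rho A1 * up ew A2 / (2 * h * ((h : ℚ) - 1) ^ 2)
  else if A1.card + 1 = h then -(rho (insert x A1) * chi A2)
  else if A1.card + 2 = h then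
    -(up rho (insert x A1) / (h * ((h : ℚ) - 1)) * (chi A2 * wt A2 - ew A2 / 2))
  else 0

/-- value on the edge adding `x` to the second part of `A = (A1, A2)` -/
def WF2 (rho : Finset (P h) → ℚ) (A1 A2 : Finset (P h)) (x : P h) : ℚ :=
  if A1.card = h then rho A1 * chi (insert x A2)
  else if A1.card = h + 1 then
    dn rho A1 / h * (theta (insert x A2) x - ew (insert x A2) / 2 / ((h : ℚ) - 1))
  else if A1.card + 1 = h then chi A2 * up rho A1 / h
  else if A1.card + 2 = h then
    up (up rho) A1 / (h * ((h : ℚ) - 1)) * (psi A2 x + ew A2 / 2 / ((h : ℚ) - 1))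
  else 0

/-- value on the edge from `T = (T1, T2)`, `|T1| + |T2| = 2h`, to its complement (case `|T1| ≥ h`) -/
def V0 (rho : Finset (P h) → ℚ) (T1 T2 : Finset (P h)) : ℚ :=
  if T1.card = h + 1 then -(dn rho T1 * ew T2 / (2 * h))
  else if T1.card = h + 2 then -(dn (dn rho) T1 * up ew T2 / (2 * h * ((h : ℚ) - 1) ^ 2))
  else 0

/-- value on the edge from `T = (T1, T2)` to its complement -/
def VV (rho : Finset (P h) → ℚ) (T1 T2 : Finset (P h)) : ℚ :=
  if T1.card < h then V0 rho T1ᶜ T2ᶜ else V0 rho T1 T2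

end Flow

section Flow2

/-- tie sign on the pairs of `(h-1)`-sets -/
def tau3 (sig : Finset (P h) → ℚ) (X Y : Finset (P h)) : ℚ :=
  if un X = 0 ∧ un Y = 0 then sig X else chi X * chi Y

/-- value on the edge adding `x` to the first part of `A = (A1, A2)`, `|A1| + |A2| = 2h - 2` -/
def H1 (D : SigData h) (A1 A2 : Finset (P h)) (x : P h) : ℚ :=
  if A1.card + 1 = h then tau3 D.sig A1 A2
  else if A1.card = h then
    -(chi A2 * wt A2 / h * psi A1 x) + (if un A2 = 1 then D.ps A1 x / ((h : ℚ) - 1) else 0)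
  else if A1.card + 2 = h then
    chi (insert x A1) * hw A2 / h +
      (if un A2 = 1 then
        (if bar x ∈ insert x A1 then 0 else ew A2 * chi (insert x A1) / un (insert x A1)) +
          D.th (insert x A1) x
       else 0)
  else 0

/-- value on the edge adding `x` to the second part of `A = (A1, A2)`, `|A1| + |A2| = 2h - 2` -/
def H2 (D : SigData h) (A1 A2 : Finset (P h)) (x : P h) : ℚ :=
  if A1.card + 1 = h then -tau3 D.sig A1 A2
  else if A1.card = h then
    -(hw A1 * chi (insert x A2) / h) -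
      (if un A1 = 1 then
        (if un (insert x A2) = 0 then dn D.sig A1 / ((h : ℚ) - 1)
         else if bar x ∈ insert x A2 then 0
         else ew A1 * chi (insert x A2) / un (insert x A2))
       else 0)
  else if A1.card + 2 = h then chi A1 * wt A1 / h * psi A2 x
  else 0

/-- value on the three edges between the sets with first coordinates `U = (U1, U2)`,
`|U1| + |U2| = 2h - 1` -/
def HI (U1 U2 : Finset (P h)) : ℚ :=
  if U1.card = h then -(hw U1 * chi U2 / (3 * h))
  else if U1.card + 1 = h then chi U1 * hw U2 / (3 * h)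
  else 0

/-- the corrected `WF1` for even `k` -/
def EF1 (rho : Finset (P h) → ℚ) (A1 A2 : Finset (P h)) (x : P h) : ℚ :=
  WF1 rho A1 A2 x + (if A1.card = h then chi A2 * psi A1 x / (3 * h) else 0)

/-- the corrected `WF2` for even `k` -/
def EF2 (rho : Finset (P h) → ℚ) (A1 A2 : Finset (P h)) (x : P h) : ℚ :=
  WF2 rho A1 A2 x - (if A1.card + 1 = h then chi A1 * psi A2 x / (3 * h) else 0)

end Flow2

end OddGr75
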