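import Pool.Agent.OddGr75.Basic

/-!
# Module OG-HBOUND (MP_d22128_co, helper75): bounds for the flow H and the corrected flow (even k).

`h ≥ 4`, `D : SigData h`.
* `tau3_pm`: `τ3 = ±1` on pairs of `(h-1)`-sets (`D.pm`, `chi_pm`).
* `H1_b`: `|H1(A1,A2,x)| ≤ 1` (`x ∉ A1`, `|A1| + |A2| + 2 = 2h`).
  `|A1| = h, |A2| = h-2`: `|χw(A2) ψ/h| ≤ |wt A2|/h`; if `un A2 ≠ 1` it is `≤ 1`
  (`|wt| ≤ h`, `abs_psi_le`). If `un A2 = 1`: `|wt A2| ≤ 1`, so `≤ 1/h + 3/(h-1)`: at `h = 4` this is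
  `1/4 + 1 > 1`; so use for `h = 4`: `|A2| = 2` is even, so `un A2` is even, not 1 (`un_parity`).
  In general: `un A2 = 1` implies `|A2| = h - 2` odd, so `h` is odd, `h ≥ 5` and
  `1/h + 3/(h-1) ≤ 1/5 + 3/4 ≤ 1`.
  `|A1| = h-2, |A2| = h`, `B = insert x A1` (`|B| = h-1`): if `un A2 ≠ 1`: `|χ ŵ/h| ≤ 1`. If
  `un A2 = 1`: `ŵ = 0`. If `bar x ∈ B`: `|θσ| ≤ 1/2`. Otherwise `un B ≥ 1`, the first term is at
  most `|e|/un B ≤ 1/un B`; if `un B = 1` then `θσ = 0` (`D.th_un`), total `≤ 1`; if `un B ≥ 2`: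
  `≤ 1/2 + 1/2`.
* `H2_b`: `|H2(A1,A2,x)| ≤ 1` (`x ∉ A2`).
  `|A1| = h, |A2| = h-2`: if `un A1 ≠ 1`: `|ŵ(A1)|/h ≤ 1`. If `un A1 = 1`: `ŵ(A1) = 0`; if
  `un (A2 ∪ x) = 0`: `|dn σ A1| ≤ 1`: at most one `y ∈ A1` has `un (A1∖y) = 0` (the unpaired point;
  if `bar y ∈ A1` then `un (A1∖y) = 2`), so at most one nonzero term, of absolute value 1 (by
  `D.pm`, `D.zero`), divided by `h-1 ≥ 1`; otherwise `|e(A1)|/un(A2∪x) ≤ 1`.
  `|A1| = h-2`: `|wt A1|/h · |ψ| ≤ 1`.
* `HI_b`: `|HI| ≤ 1`.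
* `EF1_b`, `EF2_b`: from the bounds of `WF1`, `WF2` (module WBound: hypotheses `w1`, `w2` below)
  and `|χ ψ/(3h)| ≤ 1/(3h)`: `1 - 1/h + 1/(3h) ≤ 1`.
-/

set_option autoImplicit false

namespace OddGr75

variable {h : ℕ}

theorem HBound_div_le_one {a : ℚ} (hh : 4 ≤ h) (ha : |a| ≤ h) : |a / h| ≤ 1 := by
  have h0 : (0 : ℚ) < h := by
    have : 0 < h := by omega
    exact_mod_cast this
  rw [abs_div, abs_of_pos h0, div_le_one h0]
  exact ha

theorem HBound_sig_le (D : SigData h) (X : Finset (P h)) (hX : X.card + 1 = h) :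
    |D.sig X| ≤ 1 := by
  by_cases h0 : un X = 0
  · rcases D.pm X hX h0 with e | e <;> rw [e] <;> norm_num
  · rw [D.zero X h0]; norm_num

theorem HBound_dn_sig_le (D : SigData h) (A : Finset (P h)) (hA : A.card = h) (hu : un A = 1) :
    |dn D.sig A| ≤ 1 := by
  have h1 : dn D.sig A = ∑ z ∈ A.filter (fun a => bar a ∉ A), D.sig (A.erase z) := by
    unfold dn
    rw [Finset.sum_filter]
    refine Finset.sum_congr rfl fun z hz => ?_
    by_cases hb : bar z ∈ A
    · rw [if_neg (not_not.2 hb)]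
      refine D.zero _ ?_
      have := un_erase_pair hz hb
      omega
    · rw [if_pos hb]
  rw [h1]
  refine (Finset.abs_sum_le_sum_abs _ _).trans ?_
  have h2 : ∀ z ∈ A.filter (fun a => bar a ∉ A), |D.sig (A.erase z)| ≤ 1 := by
    intro z hz
    have hz' : z ∈ A := (Finset.mem_filter.1 hz).1
    refine HBound_sig_le D _ ?_
    rw [Finset.card_erase_of_mem hz']
    have : 0 < A.card := Finset.card_pos.2 ⟨z, hz'⟩
    omega
  refine (Finset.sum_le_sum h2).trans ?_
  rw [Finset.sum_const, nsmul_eq_mul, mul_one]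
  have h3 : (A.filter (fun a => bar a ∉ A)).card = 1 := hu
  rw [h3]
  norm_num

theorem tau3_pm (D : SigData h) (X Y : Finset (P h)) (hX : X.card + 1 = h) :
    tau3 D.sig X Y = 1 ∨ tau3 D.sig X Y = -1 := by
  unfold tau3
  split_ifs with hu
  · exact D.pm X hX hu.1
  · rcases chi_pm X with e | e <;> rcases chi_pm Y with e' | e' <;> rw [e, e'] <;> norm_num

theorem HBound_tau3_le (D : SigData h) (X Y : Finset (P h)) (hX : X.card + 1 = h) :
    |tau3 D.sig X Y| ≤ 1 := by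
  rcases tau3_pm D X Y hX with e | e <;> rw [e] <;> norm_num

theorem HBound_quot_le {a b : ℚ} {n : ℕ} (ha : |a| ≤ 1) (hb : |b| = 1) (hn : 0 < n) :
    |a * b / n| ≤ 1 / n := by
  have hn' : (0 : ℚ) < n := by exact_mod_cast hn
  rw [abs_div, abs_mul, hb, mul_one, abs_of_pos hn']
  gcongr

theorem H1_b (hh : 4 ≤ h) (D : SigData h) (A1 A2 : Finset (P h)) (x : P h) (hx : x ∉ A1)
    (hA : A1.card + A2.card + 2 = 2 * h) : |H1 D A1 A2 x| ≤ 1 := by
  have hq : (4 : ℚ) ≤ h := by exact_mod_cast hh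
  have h0 : (0 : ℚ) < h := by linarith
  unfold H1
  split_ifs with c1 c2 c3 c4 c5 c6
  · exact HBound_tau3_le D A1 A2 c1
  · -- `|A1| = h`, `un A2 = 1`
    obtain ⟨m, hm⟩ := un_parity A2
    have h5 : 5 ≤ h := by omega
    have hq5 : (5 : ℚ) ≤ h := by exact_mod_cast h5
    have e1 : |chi A2 * wt A2 / h * psi A1 x| ≤ 1 / 5 := by
      have hw1 : |wt A2| ≤ 1 := by
        have := abs_wt_le_un A2
        rw [c3] at this
        simpa using this
      rw [abs_mul, abs_div, abs_mul, abs_chi, one_mul, abs_of_pos h0]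
      have hps := abs_psi_le hx
      calc |wt A2| / h * |psi A1 x| ≤ 1 / h * 1 := by gcongr
        _ ≤ 1 / 5 := by
          rw [mul_one]
          gcongr
    have e2 : |D.ps A1 x / ((h : ℚ) - 1)| ≤ 3 / 4 := by
      have := D.ps_b A1 x c2 hx
      rw [abs_div, abs_of_pos (by linarith : (0 : ℚ) < (h : ℚ) - 1)]
      rw [div_le_div_iff₀ (by linarith) (by norm_num)]
      nlinarith
    have e3 := abs_add_le (-(chi A2 * wt A2 / h * psi A1 x)) (D.ps A1 x / ((h : ℚ) - 1))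
    rw [abs_neg] at e3
    linarith
  · -- `|A1| = h`, `un A2 ≠ 1`
    rw [add_zero, abs_neg, abs_mul, abs_div, abs_mul, abs_chi, one_mul, abs_of_pos h0]
    have h1 := abs_wt_le A2
    have h2 := abs_psi_le hx
    calc |wt A2| / h * |psi A1 x| ≤ h / h * 1 := by gcongr
      _ = 1 := by rw [mul_one, div_self h0.ne']
  · -- `|A1| = h - 2`, `un A2 = 1`, `bar x ∈ insert x A1`
    rw [hw_of_one c5, mul_zero, zero_div, zero_add, zero_add]
    have hc : (insert x A1).card + 1 = h := by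
      rw [Finset.card_insert_of_notMem hx]; omega
    have := D.th_b (insert x A1) x hc (Finset.mem_insert_self _ _)
    linarith
  · rw [hw_of_one c5, mul_zero, zero_div, zero_add]
    have hc : (insert x A1).card + 1 = h := by
      rw [Finset.card_insert_of_notMem hx]; omega
    have hm : x ∈ insert x A1 := Finset.mem_insert_self _ _
    have hpos := un_pos hm c6
    have e1 := HBound_quot_le (abs_ew_le A2) (abs_chi (insert x A1)) hpos
    by_cases h1 : un (insert x A1) = 1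
    · rw [D.th_un _ _ hc hm h1, add_zero]
      refine e1.trans ?_
      rw [h1]; norm_num
    · have h2 : 2 ≤ un (insert x A1) := by omega
      have h2' : (2 : ℚ) ≤ un (insert x A1) := by exact_mod_cast h2
      have e2 : (1 : ℚ) / un (insert x A1) ≤ 1 / 2 := by gcongr
      have e3 := D.th_b (insert x A1) x hc hm
      have e4 := abs_add_le (ew A2 * chi (insert x A1) / un (insert x A1)) (D.th (insert x A1) x)
      linarith
  · rw [add_zero]
    refine HBound_div_le_one hh ?_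
    rw [abs_mul, abs_chi, one_mul]
    exact abs_hw_le A2
  · norm_num

theorem H2_b (hh : 4 ≤ h) (D : SigData h) (A1 A2 : Finset (P h)) (x : P h) (hx : x ∉ A2)
    (hA : A1.card + A2.card + 2 = 2 * h) : |H2 D A1 A2 x| ≤ 1 := by
  have hq : (4 : ℚ) ≤ h := by exact_mod_cast hh
  have h0 : (0 : ℚ) < h := by linarith
  unfold H2
  split_ifs with c1 c2 c3 c4 c5 c6
  · rw [abs_neg]
    exact HBound_tau3_le D A1 A2 c1
  · rw [hw_of_one c3, zero_mul, zero_div, neg_zero, zero_sub, abs_neg, abs_div,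
      abs_of_pos (by linarith : (0 : ℚ) < (h : ℚ) - 1), div_le_one (by linarith)]
    have := HBound_dn_sig_le D A1 c2 c3
    linarith
  · rw [hw_of_one c3, zero_mul, zero_div, neg_zero, zero_sub, neg_zero, abs_zero]
    norm_num
  · rw [hw_of_one c3, zero_mul, zero_div, neg_zero, zero_sub, abs_neg]
    have hpos : 0 < un (insert x A2) := Nat.pos_of_ne_zero c4
    refine (HBound_quot_le (abs_ew_le A1) (abs_chi (insert x A2)) hpos).trans ?_
    have h1 : (1 : ℚ) ≤ un (insert x A2) := by exact_mod_cast hpos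
    rw [div_le_one (by linarith)]
    exact h1
  · rw [sub_zero, abs_neg]
    refine HBound_div_le_one hh ?_
    rw [abs_mul, abs_chi, mul_one]
    exact abs_hw_le A1
  · rw [abs_mul, abs_div, abs_mul, abs_chi, one_mul, abs_of_pos h0]
    have h1 := abs_wt_le A1
    have h2 := abs_psi_le hx
    calc |wt A1| / h * |psi A2 x| ≤ h / h * 1 := by gcongr
      _ = 1 := by rw [mul_one, div_self h0.ne']
  · norm_num

theorem HBound_third {a : ℚ} (hh : 4 ≤ h) (ha : |a| ≤ h) : |a / (3 * h)| ≤ 1 := by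
  have h0 : (0 : ℚ) < h := by
    have : 0 < h := by omega
    exact_mod_cast this
  rw [abs_div, abs_of_pos (by linarith : (0 : ℚ) < 3 * h), div_le_one (by linarith)]
  linarith

theorem HI_b (hh : 4 ≤ h) (U1 U2 : Finset (P h)) : |HI U1 U2| ≤ 1 := by
  unfold HI
  split_ifs with c1 c2
  · rw [abs_neg]
    refine HBound_third hh ?_
    rw [abs_mul, abs_chi, mul_one]
    exact abs_hw_le U1
  · refine HBound_third hh ?_
    rw [abs_mul, abs_chi, one_mul]
    exact abs_hw_le U2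
  · norm_num

theorem HBound_corr (hh : 4 ≤ h) {A B : Finset (P h)} {x : P h} (hx : x ∉ B) :
    |chi A * psi B x / (3 * h)| ≤ 1 / (3 * h) := by
  have h0 : (0 : ℚ) < h := by
    have : 0 < h := by omega
    exact_mod_cast this
  rw [abs_div, abs_mul, abs_chi, one_mul, abs_of_pos (by linarith : (0 : ℚ) < 3 * h)]
  have := abs_psi_le hx
  gcongr

theorem HBound_arith (hh : 4 ≤ h) : 1 - 1 / (h : ℚ) + 1 / (3 * h) ≤ 1 := by
  have h0 : (0 : ℚ) < h := by
    have : 0 < h := by omega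
    exact_mod_cast this
  have : 1 / (3 * (h : ℚ)) ≤ 1 / h := by
    apply one_div_le_one_div_of_le h0
    linarith
  linarith

theorem EF1_b (hh : 4 ≤ h) (rho : Finset (P h) → ℚ) (A1 A2 : Finset (P h)) (x : P h) (hx : x ∉ A1)
    (w0 : A1.card = h → |WF1 rho A1 A2 x| ≤ 1 - 1 / (h : ℚ))
    (w1 : A1.card ≠ h → |WF1 rho A1 A2 x| ≤ 1) : |EF1 rho A1 A2 x| ≤ 1 := by
  unfold EF1
  split_ifs with c1
  · have e1 := w0 c1
    have e2 := HBound_corr (A := A2) hh hx
    have e3 := HBound_arith hh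
    have e4 := abs_add_le (WF1 rho A1 A2 x) (chi A2 * psi A1 x / (3 * h))
    linarith
  · rw [add_zero]
    exact w1 c1

theorem EF2_b (hh : 4 ≤ h) (rho : Finset (P h) → ℚ) (A1 A2 : Finset (P h)) (x : P h) (hx : x ∉ A2)
    (w0 : A1.card + 1 = h → |WF2 rho A1 A2 x| ≤ 1 - 1 / (h : ℚ))
    (w1 : A1.card + 1 ≠ h → |WF2 rho A1 A2 x| ≤ 1) : |EF2 rho A1 A2 x| ≤ 1 := by
  unfold EF2
  split_ifs with c1
  · have e1 := w0 c1
    have e2 := HBound_corr (A := A1) hh hx
    have e3 := HBound_arith hh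
    have e4 := abs_sub (WF2 rho A1 A2 x) (chi A1 * psi A2 x / (3 * h))
    linarith
  · rw [sub_zero]
    exact w1 c1

end OddGr75
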