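import Pool.Agent.OddGr75.Basic

/-!
# Module OG-HSUM (MP_d22128_co, helper75): the exact sums of the flow H (even k).

`D : SigData h`, `σ = D.sig`, `ψσ = D.ps`, `θσ = D.th`. `χw = chi * wt`, `ŵ = hw`, `e = ew`
(`hw_add_ew`: `ŵ + e = χw`; `ŵ = 0` if `un = 1`, `e = 0` if `un ≠ 1`).

Preliminary fact (*): if `|X| = h` and `un X ≠ 1` then `σ (X.erase x) = 0` for `x ∈ X`, in
particular `dn σ X = 0`: otherwise `un (X.erase x) = 0` (`D.zero`), and then `un X = 1`
(`un_erase_pair` / `un_erase_free`).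

**HA** (`|A1| + |A2| + 2 = 2h`): `∑_{x∉A1} H1(A1,A2,x) + ∑_{x∉A2} H2(A1,A2,x) = 0`.
* `|A1| = h-1 = |A2|`: `(h+1) τ3 - (h+1) τ3`.
* `|A1| = h, |A2| = h-2`: `∑_{x∉A1} H1 = -(χw(A2)/h) ŵ(A1) + [un A2 = 1] Dσ(A1)/(h-1)` (`sum_psi`,
  `D.ps_sum`). `∑_{x∉A2} H2`: the first part is `-ŵ(A1)/h · up chi A2 = ŵ(A1) χw(A2)/h` (`up_chi`);
  the second part is zero if `un A1 ≠ 1`, and so is `Dσ(A1)` by (*). If `un A1 = 1`: the terms with
  `un (A2 ∪ x) = 0` exist only if `un A2 = 1` and `x` is the partner of the unpaired point of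
  `A2`, one term `-Dσ(A1)/(h-1)`; the other terms are nonzero only for `bar x ∉ A2`, and are
  `- e(A1) χ(A2) c(x) / (un A2 + 1)`, which cancel in pairs (`sum_free_cancel`).
* `|A1| = h-2, |A2| = h`: `∑_{x∉A1} H1`: first part `up chi A1 · ŵ(A2)/h = -χw(A1) ŵ(A2)/h`; second
  part: cancels in pairs (`sum_free_cancel`); third part `∑ θσ(A1∪x,x) = 0` (`D.th_ins`).
  `∑_{x∉A2} H2 = χw(A1)/h · ŵ(A2)` (`sum_psi`).
* other: all zero.

**HT** (`|U1| + |U2| + 1 = 2h`):
`∑_{x∈U1} H1(U1∖x,U2,x) + ∑_{x∈U2} H2(U1,U2∖x,x) + 3 HI(U1,U2) = 0`. (`insert x (U.erase x) = U`.)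
* `|U1| = h, |U2| = h-1`: `∑ H1 = ∑_{x∈U1} τ3(U1∖x,U2)`; `∑ H2 = -((h-1)/h) ŵ(U1)χ(U2) -
  [un U1 = 1] (if un U2 = 0 then Dσ(U1) else e(U1)χ(U2))`: for `un U2 ≠ 0` the number of `x ∈ U2` with
  `bar x ∉ U2` is `un U2`; `3 HI = -ŵ(U1)χ(U2)/h`. So it remains
  `∑_{x∈U1} τ3(U1∖x,U2) = ŵ(U1)χ(U2) + [un U1 = 1](if un U2 = 0 then Dσ(U1) else e(U1)χ(U2))`.
  If `un U2 ≠ 0`: `τ3 = χχ` and `dn chi U1 = χw(U1) = ŵ + e`. If `un U2 = 0` and `un U1 ≠ 1`: no
  `U1∖x` has `un = 0`, so again `τ3 = χχ`, `e(U1) = 0`. If `un U2 = 0`, `un U1 = 1`: `ŵ(U1) = 0`;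
  for the `x` with `bar x ∈ U1` the set `U1∖x` has `un = 2`, `τ3 = χ(U1)c(x)χ(U2)`, these cancel in
  pairs (`sum_full_cancel`) and `σ(U1∖x) = 0`; for the unpaired `x` (`un (U1∖x) = 0`):
  `τ3 = σ(U1∖x)`. So the sum is `Dσ(U1)`.
* `|U1| = h-1, |U2| = h`: `∑_{x∈U1} H1 (|A1| = h-2) = ((h-1)/h) χ(U1)ŵ(U2) + [un U2 = 1]([un U1 ≠ 0]
  e(U2)χ(U1) + σ(U1))` (`D.th_sum`), `∑_{x∈U2} H2 = -∑_{x∈U2} τ3(U1,U2∖x)`, `3 HI = χ(U1)ŵ(U2)/h`.
  Need `∑_{x∈U2} τ3(U1,U2∖x) = χ(U1)ŵ(U2) + [un U2 = 1]([un U1 ≠ 0] e(U2)χ(U1) + σ(U1))`: same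
  argument (`σ(U1) = 0` if `un U1 ≠ 0`; if `un U1 = 0` and `un U2 = 1` exactly one `x` has
  `un (U2∖x) = 0` and contributes `σ(U1)`, the others cancel).
* `|U1| = h+1`: `∑_{x∈U1} (-(χw(U2)/h) ψ(U1∖x,x) + [un U2 = 1] ψσ(U1∖x,x)/(h-1)) = 0` (`sum_psi_er`,
  `D.ps_er`); `H2 = 0`, `HI = 0`.
* `|U1| = h-2`: `H1 = 0`; `∑_{x∈U2} (χw(U1)/h) ψ(U2∖x,x) = 0`. Others: all zero.

**EA** (`|A1| + |A2| + 1 = 2h`): `∑_{x∉A1} EF1 + ∑_{x∉A2} EF2 + HI(A1,A2) = 0` given that the WF sums
are zero (hypothesis `hW`): the corrections give `χ(A2)ŵ(A1)/(3h)` (`|A1| = h`) resp.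
`-χ(A1)ŵ(A2)/(3h)` (`|A1| = h-1`) by `sum_psi`.
**ET** (`|T1| + |T2| = 2h`): the corrections sum to zero on `T` (`sum_psi_er`).
-/

set_option autoImplicit false

namespace OddGr75

variable {h : ℕ}

theorem HSum_card_unpaired (B : Finset (P h)) :
    (B.filter (fun a => bar a ∉ B)).card = un B := rfl

theorem HSum_card_partner (A : Finset (P h)) :
    (Aᶜ.filter (fun a => bar a ∈ A)).card = un A := by
  rw [← un_compl A]
  unfold un
  congr 1
  apply Finset.filter_congr
  intro x _
  simp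

theorem HSum_bar_mem_insert {x : P h} {A : Finset (P h)} :
    bar x ∈ insert x A ↔ bar x ∈ A := by
  rw [Finset.mem_insert]
  constructor
  · rintro (e | e)
    · exact absurd e (bar_ne x)
    · exact e
  · exact fun e => Or.inr e

theorem HSum_un_erase_ne {X : Finset (P h)} {x : P h} (hx : x ∈ X) (hX : un X ≠ 1) :
    un (X.erase x) ≠ 0 := by
  intro e
  by_cases hb : bar x ∈ X
  · have := un_erase_pair hx hb
    omega
  · have := un_erase_free hx hb
    omega

theorem HSum_dn_sig (D : SigData h) {X : Finset (P h)} (hX : un X ≠ 1) :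
    dn D.sig X = 0 := by
  unfold dn
  apply Finset.sum_eq_zero
  intro x hx
  exact D.zero _ (HSum_un_erase_ne hx hX)

theorem HSum_card_compl (A : Finset (P h)) : Aᶜ.card + A.card = 2 * h := by
  have := Finset.card_compl_add_card A
  rw [this]
  simp [P, Fintype.card_prod, mul_comm]

theorem HSum_tauA (D : SigData h) (U1 U2 : Finset (P h)) :
    ∑ x ∈ U1, tau3 D.sig (U1.erase x) U2 = hw U1 * chi U2 +
      (if un U1 = 1 then (if un U2 = 0 then dn D.sig U1 else ew U1 * chi U2) else 0) := by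
  have key : (∀ x ∈ U1, tau3 D.sig (U1.erase x) U2 = chi (U1.erase x) * chi U2) →
      ∑ x ∈ U1, tau3 D.sig (U1.erase x) U2 = (hw U1 + ew U1) * chi U2 := by
    intro hk
    rw [Finset.sum_congr rfl hk, ← Finset.sum_mul, hw_add_ew, ← dn_chi]
    rfl
  by_cases h2 : un U2 = 0
  · by_cases h1 : un U1 = 1
    · rw [if_pos h1, if_pos h2, hw_of_one h1, zero_mul, zero_add]
      have e : ∀ x ∈ U1, tau3 D.sig (U1.erase x) U2 = D.sig (U1.erase x) +
          (if bar x ∈ U1 then c x * (chi U1 * chi U2) else 0) := by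
        intro x hx
        unfold tau3
        by_cases hb : bar x ∈ U1
        · have e1 := un_erase_pair hx hb
          have e2 : un (U1.erase x) ≠ 0 := by omega
          rw [if_neg (fun hc => e2 hc.1), if_pos hb, D.zero _ e2, chi_erase hx]
          ring
        · have e1 := un_erase_free hx hb
          have e2 : un (U1.erase x) = 0 := by omega
          rw [if_pos ⟨e2, h2⟩, if_neg hb, add_zero]
      have s4 : ∑ x ∈ U1, (if bar x ∈ U1 then c x * (chi U1 * chi U2) else 0) = 0 :=
        sum_full_cancel U1 (fun _ : ℕ => chi U1 * chi U2)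
      rw [Finset.sum_congr rfl e, Finset.sum_add_distrib, s4, add_zero]
      rfl
    · rw [if_neg h1, key, ew_of_ne h1]
      · ring
      · intro x hx
        unfold tau3
        rw [if_neg (fun hc => HSum_un_erase_ne hx h1 hc.1)]
  · rw [if_neg h2, key]
    · by_cases h1 : un U1 = 1
      · rw [if_pos h1]
        ring
      · rw [if_neg h1, ew_of_ne h1]
        ring
    · intro x hx
      unfold tau3
      rw [if_neg (fun hc => h2 hc.2)]

theorem HSum_tauB (D : SigData h) (U1 U2 : Finset (P h)) :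
    ∑ x ∈ U2, tau3 D.sig U1 (U2.erase x) = chi U1 * hw U2 +
      (if un U2 = 1 then ((if un U1 = 0 then 0 else ew U2 * chi U1) + D.sig U1) else 0) := by
  have key : (∀ x ∈ U2, tau3 D.sig U1 (U2.erase x) = chi U1 * chi (U2.erase x)) →
      ∑ x ∈ U2, tau3 D.sig U1 (U2.erase x) = chi U1 * (hw U2 + ew U2) := by
    intro hk
    rw [Finset.sum_congr rfl hk, ← Finset.mul_sum, hw_add_ew, ← dn_chi]
    rfl
  by_cases h1 : un U1 = 0
  · by_cases h2 : un U2 = 1
    · rw [if_pos h2, if_pos h1, hw_of_one h2, mul_zero, zero_add, zero_add]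
      have e : ∀ x ∈ U2, tau3 D.sig U1 (U2.erase x) = (if bar x ∉ U2 then D.sig U1 else 0) +
          (if bar x ∈ U2 then c x * (chi U1 * chi U2) else 0) := by
        intro x hx
        unfold tau3
        by_cases hb : bar x ∈ U2
        · have e1 := un_erase_pair hx hb
          have e2 : un (U2.erase x) ≠ 0 := by omega
          rw [if_neg (fun hc => e2 hc.2), if_pos hb, if_neg (not_not.mpr hb), chi_erase hx]
          ring
        · have e1 := un_erase_free hx hb
          have e2 : un (U2.erase x) = 0 := by omega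
          rw [if_pos ⟨h1, e2⟩, if_neg hb, if_pos hb, add_zero]
      have s4 : ∑ x ∈ U2, (if bar x ∈ U2 then c x * (chi U1 * chi U2) else 0) = 0 :=
        sum_full_cancel U2 (fun _ : ℕ => chi U1 * chi U2)
      rw [Finset.sum_congr rfl e, Finset.sum_add_distrib, s4, add_zero,
        ← Finset.sum_filter, Finset.sum_const, HSum_card_unpaired, h2, one_smul]
    · rw [if_neg h2, key, ew_of_ne h2]
      · ring
      · intro x hx
        unfold tau3
        rw [if_neg (fun hc => HSum_un_erase_ne hx h2 hc.2)]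
  · rw [if_neg h1, D.zero U1 h1, key]
    · by_cases h2 : un U2 = 1
      · rw [if_pos h2]
        ring
      · rw [if_neg h2, ew_of_ne h2]
        ring
    · intro x hx
      unfold tau3
      rw [if_neg (fun hc => h1 hc.1)]

theorem HA (hh : 3 ≤ h) (D : SigData h) (A1 A2 : Finset (P h))
    (hA : A1.card + A2.card + 2 = 2 * h) :
    ∑ x ∈ A1ᶜ, H1 D A1 A2 x + ∑ x ∈ A2ᶜ, H2 D A1 A2 x = 0 := by
  have c1 := HSum_card_compl A1
  have c2 := HSum_card_compl A2
  by_cases ha : A1.card + 1 = h
  · -- the middle case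
    have e1 : ∀ x ∈ A1ᶜ, H1 D A1 A2 x = tau3 D.sig A1 A2 := by
      intro x _
      unfold H1
      rw [if_pos ha]
    have e2 : ∀ x ∈ A2ᶜ, H2 D A1 A2 x = -tau3 D.sig A1 A2 := by
      intro x _
      unfold H2
      rw [if_pos ha]
    rw [Finset.sum_congr rfl e1, Finset.sum_congr rfl e2, Finset.sum_const, Finset.sum_const]
    have e3 : A1ᶜ.card = A2ᶜ.card := by omega
    rw [e3, smul_neg, add_neg_cancel]
  by_cases hb : A1.card = h
  · have e1 : ∀ x ∈ A1ᶜ, H1 D A1 A2 x = -(chi A2 * wt A2 / h) * psi A1 x +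
        (if un A2 = 1 then D.ps A1 x / ((h : ℚ) - 1) else 0) := by
      intro x _
      unfold H1
      rw [if_neg ha, if_pos hb]
      ring
    have s1 : ∑ x ∈ A1ᶜ, (if un A2 = 1 then D.ps A1 x / ((h : ℚ) - 1) else 0) =
        (if un A2 = 1 then dn D.sig A1 / ((h : ℚ) - 1) else 0) := by
      by_cases h2 : un A2 = 1
      · simp only [if_pos h2]
        rw [← Finset.sum_div, D.ps_sum A1 hb]
      · simp only [if_neg h2, Finset.sum_const_zero]
    rw [Finset.sum_congr rfl e1, Finset.sum_add_distrib, ← Finset.mul_sum, sum_psi, s1]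
    by_cases h1 : un A1 = 1
    · have e2 : ∀ x ∈ A2ᶜ, H2 D A1 A2 x = -(hw A1 / h) * chi (insert x A2) -
          ((if bar x ∈ A2 then (if un A2 = 1 then dn D.sig A1 / ((h : ℚ) - 1) else 0) else 0) +
            (if bar x ∈ A2 then 0 else
              c x * (ew A1 * chi A2 / (un (insert x A2) : ℚ)))) := by
        intro x hx
        have hx' : x ∉ A2 := by simpa using hx
        unfold H2
        rw [if_neg ha, if_pos hb, if_pos h1]
        by_cases hbx : bar x ∈ A2
        · have e4 := un_insert_pair hx' hbx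
          rw [if_pos (HSum_bar_mem_insert.mpr hbx), if_pos hbx, if_pos hbx]
          by_cases h2 : un A2 = 1
          · rw [if_pos h2, if_pos (by omega)]
            ring
          · rw [if_neg h2, if_neg (by omega)]
            ring
        · have e4 := un_insert_free hx' hbx
          rw [if_neg (fun e => hbx (HSum_bar_mem_insert.mp e)), if_neg hbx, if_neg hbx,
            if_neg (by omega), chi_insert hx']
          ring
      have s2 : ∑ x ∈ A2ᶜ, (if bar x ∈ A2 then
          (if un A2 = 1 then dn D.sig A1 / ((h : ℚ) - 1) else 0) else 0) =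
          (if un A2 = 1 then dn D.sig A1 / ((h : ℚ) - 1) else 0) := by
        rw [← Finset.sum_filter, Finset.sum_const, HSum_card_partner]
        by_cases h2 : un A2 = 1
        · rw [if_pos h2, h2, one_smul]
        · rw [if_neg h2, smul_zero]
      have s4 : ∑ x ∈ A2ᶜ, (if bar x ∈ A2 then 0 else
          c x * (ew A1 * chi A2 / (un (insert x A2) : ℚ))) = 0 :=
        sum_free_cancel A2 (fun n : ℕ => ew A1 * chi A2 / (n : ℚ))
      have s3 : ∑ x ∈ A2ᶜ, chi (insert x A2) = -(chi A2 * wt A2) := by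
        rw [← up_chi]
        rfl
      have s5 : ∑ x ∈ A2ᶜ, H2 D A1 A2 x = hw A1 / h * (chi A2 * wt A2) -
          (if un A2 = 1 then dn D.sig A1 / ((h : ℚ) - 1) else 0) := by
        rw [Finset.sum_congr rfl e2, Finset.sum_sub_distrib, Finset.sum_add_distrib,
          s4, s2, ← Finset.mul_sum, s3]
        ring
      rw [s5]
      ring
    · have e2 : ∀ x ∈ A2ᶜ, H2 D A1 A2 x = -(hw A1 / h) * chi (insert x A2) := by
        intro x hx
        unfold H2
        rw [if_neg ha, if_pos hb, if_neg h1]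
        ring
      rw [Finset.sum_congr rfl e2, ← Finset.mul_sum, HSum_dn_sig D h1]
      have s3 : ∑ x ∈ A2ᶜ, chi (insert x A2) = -(chi A2 * wt A2) := by
        rw [← up_chi]
        rfl
      rw [s3, zero_div, ite_self]
      ring
  by_cases hc : A1.card + 2 = h
  · have e1 : ∀ x ∈ A1ᶜ, H1 D A1 A2 x = (hw A2 / h) * chi (insert x A1) +
        ((if un A2 = 1 then (if bar x ∈ A1 then 0 else
            c x * (ew A2 * chi A1 / (un (insert x A1) : ℚ))) else 0) +
          (if un A2 = 1 then D.th (insert x A1) x else 0)) := by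
      intro x hx
      have hx' : x ∉ A1 := by simpa using hx
      unfold H1
      rw [if_neg ha, if_neg hb, if_pos hc]
      by_cases h2 : un A2 = 1
      · rw [if_pos h2, if_pos h2, if_pos h2]
        by_cases hbx : bar x ∈ A1
        · rw [if_pos (HSum_bar_mem_insert.mpr hbx), if_pos hbx]
          ring
        · rw [if_neg (fun e => hbx (HSum_bar_mem_insert.mp e)), if_neg hbx, chi_insert hx']
          ring
      · rw [if_neg h2, if_neg h2, if_neg h2]
        ring
    have e2 : ∀ x ∈ A2ᶜ, H2 D A1 A2 x = (chi A1 * wt A1 / h) * psi A2 x := by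
      intro x _
      unfold H2
      rw [if_neg ha, if_neg hb, if_pos hc]
    have s3 : ∑ x ∈ A1ᶜ, chi (insert x A1) = -(chi A1 * wt A1) := by
      rw [← up_chi]
      rfl
    rw [Finset.sum_congr rfl e1, Finset.sum_congr rfl e2, Finset.sum_add_distrib,
      Finset.sum_add_distrib, ← Finset.mul_sum, ← Finset.mul_sum, sum_psi, s3]
    by_cases h2 : un A2 = 1
    · simp only [if_pos h2]
      have s4 : ∑ x ∈ A1ᶜ, (if bar x ∈ A1 then 0 else
          c x * (ew A2 * chi A1 / (un (insert x A1) : ℚ))) = 0 :=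
        sum_free_cancel A1 (fun n : ℕ => ew A2 * chi A1 / (n : ℚ))
      rw [s4, D.th_ins A1 hc]
      ring
    · simp only [if_neg h2, Finset.sum_const_zero]
      ring
  · have e1 : ∀ x ∈ A1ᶜ, H1 D A1 A2 x = 0 := by
      intro x _
      unfold H1
      rw [if_neg ha, if_neg hb, if_neg hc]
    have e2 : ∀ x ∈ A2ᶜ, H2 D A1 A2 x = 0 := by
      intro x _
      unfold H2
      rw [if_neg ha, if_neg hb, if_neg hc]
    rw [Finset.sum_eq_zero e1, Finset.sum_eq_zero e2, add_zero]

theorem HT (hh : 3 ≤ h) (D : SigData h) (U1 U2 : Finset (P h))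
    (hU : U1.card + U2.card + 1 = 2 * h) :
    ∑ x ∈ U1, H1 D (U1.erase x) U2 x + ∑ x ∈ U2, H2 D U1 (U2.erase x) x +
      3 * HI U1 U2 = 0 := by
  have hQ : (h : ℚ) ≠ 0 := by
    have : h ≠ 0 := by omega
    exact_mod_cast this
  have hQ1 : (h : ℚ) - 1 ≠ 0 := by
    have : (3 : ℚ) ≤ h := by exact_mod_cast hh
    intro e
    linarith
  by_cases ha : U1.card = h
  · have hcard : (U2.card : ℚ) = (h : ℚ) - 1 := by
      have : U2.card + 1 = h := by omega
      have : ((U2.card : ℚ)) + 1 = h := by exact_mod_cast this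
      linarith
    have e1 : ∀ x ∈ U1, H1 D (U1.erase x) U2 x = tau3 D.sig (U1.erase x) U2 := by
      intro x hx
      have := Finset.card_erase_add_one hx
      unfold H1
      rw [if_pos (by omega)]
    have e2 : ∀ x ∈ U2, H2 D U1 (U2.erase x) x = -(hw U1 * chi U2 / h) -
        (if un U1 = 1 then (if un U2 = 0 then dn D.sig U1 / ((h : ℚ) - 1)
          else (if bar x ∉ U2 then ew U1 * chi U2 / un U2 else 0)) else 0) := by
      intro x hx
      unfold H2
      rw [if_neg (by omega), if_pos ha, Finset.insert_erase hx]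
      by_cases hbx : bar x ∈ U2
      · rw [if_pos hbx, if_neg (not_not.mpr hbx)]
      · rw [if_neg hbx, if_pos hbx]
    rw [Finset.sum_congr rfl e1, Finset.sum_congr rfl e2, HSum_tauA, Finset.sum_sub_distrib,
      Finset.sum_const, nsmul_eq_mul, hcard]
    have e3 : 3 * HI U1 U2 = -(hw U1 * chi U2 / h) := by
      unfold HI
      rw [if_pos ha]
      field_simp
    rw [e3]
    by_cases h1 : un U1 = 1
    · simp only [if_pos h1]
      by_cases h2 : un U2 = 0
      · simp only [if_pos h2]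
        rw [Finset.sum_const, nsmul_eq_mul, hcard]
        field_simp
        ring
      · simp only [if_neg h2]
        rw [← Finset.sum_filter, Finset.sum_const, HSum_card_unpaired, nsmul_eq_mul]
        have h2Q : (un U2 : ℚ) ≠ 0 := by exact_mod_cast h2
        field_simp
        ring
    · simp only [if_neg h1, Finset.sum_const_zero]
      field_simp
      ring
  by_cases hb : U1.card + 1 = h
  · have hcard : (U1.card : ℚ) = (h : ℚ) - 1 := by
      have : ((U1.card : ℚ)) + 1 = h := by exact_mod_cast hb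
      linarith
    have e1 : ∀ x ∈ U1, H1 D (U1.erase x) U2 x = chi U1 * hw U2 / h +
        ((if un U2 = 1 then (if bar x ∉ U1 then ew U2 * chi U1 / un U1 else 0) else 0) +
          (if un U2 = 1 then D.th U1 x else 0)) := by
      intro x hx
      have := Finset.card_erase_add_one hx
      unfold H1
      rw [if_neg (by omega), if_neg (by omega), if_pos (by omega), Finset.insert_erase hx]
      by_cases hbx : bar x ∈ U1
      · rw [if_pos hbx, if_neg (not_not.mpr hbx)]
        by_cases h2 : un U2 = 1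
        · simp only [if_pos h2]
        · simp only [if_neg h2]
          ring
      · rw [if_neg hbx, if_pos hbx]
        by_cases h2 : un U2 = 1
        · simp only [if_pos h2]
        · simp only [if_neg h2]
          ring
    have e2 : ∀ x ∈ U2, H2 D U1 (U2.erase x) x = -tau3 D.sig U1 (U2.erase x) := by
      intro x hx
      unfold H2
      rw [if_pos hb]
    have e3 : 3 * HI U1 U2 = chi U1 * hw U2 / h := by
      unfold HI
      rw [if_neg ha, if_pos hb]
      field_simp
    rw [Finset.sum_congr rfl e1, Finset.sum_congr rfl e2, Finset.sum_neg_distrib, HSum_tauB,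
      Finset.sum_add_distrib, Finset.sum_add_distrib, Finset.sum_const, nsmul_eq_mul, hcard, e3]
    by_cases h2 : un U2 = 1
    · simp only [if_pos h2]
      rw [D.th_sum U1 hb, ← Finset.sum_filter, Finset.sum_const, HSum_card_unpaired,
        nsmul_eq_mul]
      by_cases h1 : un U1 = 0
      · rw [if_pos h1, h1]
        field_simp
        ring
      · rw [if_neg h1]
        have h1Q : (un U1 : ℚ) ≠ 0 := by exact_mod_cast h1
        field_simp
        ring
    · simp only [if_neg h2, Finset.sum_const_zero]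
      field_simp
      ring
  by_cases hc : U1.card = h + 1
  · have e1 : ∀ x ∈ U1, H1 D (U1.erase x) U2 x = -(chi U2 * wt U2 / h) * psi (U1.erase x) x +
        (if un U2 = 1 then D.ps (U1.erase x) x / ((h : ℚ) - 1) else 0) := by
      intro x hx
      have := Finset.card_erase_add_one hx
      unfold H1
      rw [if_neg (by omega), if_pos (by omega)]
      ring
    have e2 : ∀ x ∈ U2, H2 D U1 (U2.erase x) x = 0 := by
      intro x hx
      unfold H2
      rw [if_neg (by omega), if_neg (by omega), if_neg (by omega)]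
    have e3 : 3 * HI U1 U2 = 0 := by
      unfold HI
      rw [if_neg (by omega), if_neg (by omega), mul_zero]
    rw [Finset.sum_congr rfl e1, Finset.sum_eq_zero e2, e3, Finset.sum_add_distrib,
      ← Finset.mul_sum, sum_psi_er]
    by_cases h2 : un U2 = 1
    · simp only [if_pos h2]
      rw [← Finset.sum_div, D.ps_er U1 hc]
      ring
    · simp only [if_neg h2, Finset.sum_const_zero]
      ring
  · have e1 : ∀ x ∈ U1, H1 D (U1.erase x) U2 x = 0 := by
      intro x hx
      have := Finset.card_erase_add_one hx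
      unfold H1
      rw [if_neg (by omega), if_neg (by omega), if_neg (by omega)]
    have e3 : 3 * HI U1 U2 = 0 := by
      unfold HI
      rw [if_neg (by omega), if_neg (by omega), mul_zero]
    rw [Finset.sum_eq_zero e1, e3, zero_add, add_zero]
    by_cases hd : U1.card + 2 = h
    · have e2 : ∀ x ∈ U2, H2 D U1 (U2.erase x) x =
          (chi U1 * wt U1 / h) * psi (U2.erase x) x := by
        intro x hx
        unfold H2
        rw [if_neg (by omega), if_neg (by omega), if_pos hd]
      rw [Finset.sum_congr rfl e2, ← Finset.mul_sum, sum_psi_er, mul_zero]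
    · apply Finset.sum_eq_zero
      intro x hx
      unfold H2
      rw [if_neg (by omega), if_neg (by omega), if_neg (by omega)]

theorem EA (hh : 3 ≤ h) (rho : Finset (P h) → ℚ) (A1 A2 : Finset (P h))
    (hA : A1.card + A2.card + 1 = 2 * h)
    (hW : ∑ x ∈ A1ᶜ, WF1 rho A1 A2 x + ∑ x ∈ A2ᶜ, WF2 rho A1 A2 x = 0) :
    ∑ x ∈ A1ᶜ, EF1 rho A1 A2 x + ∑ x ∈ A2ᶜ, EF2 rho A1 A2 x + HI A1 A2 = 0 := by
  have s1 : ∑ x ∈ A1ᶜ, EF1 rho A1 A2 x = ∑ x ∈ A1ᶜ, WF1 rho A1 A2 x +
      (if A1.card = h then chi A2 / (3 * h) * hw A1 else 0) := by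
    unfold EF1
    rw [Finset.sum_add_distrib]
    congr 1
    by_cases ha : A1.card = h
    · simp only [if_pos ha]
      rw [← sum_psi, Finset.mul_sum]
      apply Finset.sum_congr rfl
      intro x _
      ring
    · simp only [if_neg ha, Finset.sum_const_zero]
  have s2 : ∑ x ∈ A2ᶜ, EF2 rho A1 A2 x = ∑ x ∈ A2ᶜ, WF2 rho A1 A2 x -
      (if A1.card + 1 = h then chi A1 / (3 * h) * hw A2 else 0) := by
    unfold EF2
    rw [Finset.sum_sub_distrib]
    congr 1
    by_cases ha : A1.card + 1 = h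
    · simp only [if_pos ha]
      rw [← sum_psi, Finset.mul_sum]
      apply Finset.sum_congr rfl
      intro x _
      ring
    · simp only [if_neg ha, Finset.sum_const_zero]
  rw [s1, s2]
  unfold HI
  by_cases ha : A1.card = h
  · rw [if_pos ha, if_neg (by omega), if_pos ha]
    linear_combination hW
  · rw [if_neg ha, if_neg ha]
    by_cases hb : A1.card + 1 = h
    · rw [if_pos hb, if_pos hb]
      linear_combination hW
    · rw [if_neg hb, if_neg hb]
      linear_combination hW

theorem ET (hh : 3 ≤ h) (rho : Finset (P h) → ℚ) (T1 T2 : Finset (P h))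
    (hT : T1.card + T2.card = 2 * h)
    (hW : ∑ x ∈ T1, WF1 rho (T1.erase x) T2 x + ∑ x ∈ T2, WF2 rho T1 (T2.erase x) x +
      VV rho T1 T2 = 0) :
    ∑ x ∈ T1, EF1 rho (T1.erase x) T2 x + ∑ x ∈ T2, EF2 rho T1 (T2.erase x) x +
      VV rho T1 T2 = 0 := by
  have s1 : ∑ x ∈ T1, EF1 rho (T1.erase x) T2 x = ∑ x ∈ T1, WF1 rho (T1.erase x) T2 x := by
    unfold EF1
    rw [Finset.sum_add_distrib]
    have : ∑ x ∈ T1, (if (T1.erase x).card = h then chi T2 * psi (T1.erase x) x / (3 * h)
        else 0) = 0 := by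
      by_cases ha : T1.card = h + 1
      · have e : ∀ x ∈ T1, (if (T1.erase x).card = h then
            chi T2 * psi (T1.erase x) x / (3 * h) else 0) =
            chi T2 / (3 * h) * psi (T1.erase x) x := by
          intro x hx
          have := Finset.card_erase_add_one hx
          rw [if_pos (by omega)]
          ring
        rw [Finset.sum_congr rfl e, ← Finset.mul_sum, sum_psi_er, mul_zero]
      · apply Finset.sum_eq_zero
        intro x hx
        have := Finset.card_erase_add_one hx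
        rw [if_neg (by omega)]
    rw [this, add_zero]
  have s2 : ∑ x ∈ T2, EF2 rho T1 (T2.erase x) x = ∑ x ∈ T2, WF2 rho T1 (T2.erase x) x := by
    unfold EF2
    rw [Finset.sum_sub_distrib]
    have : ∑ x ∈ T2, (if T1.card + 1 = h then chi T1 * psi (T2.erase x) x / (3 * h)
        else 0) = 0 := by
      by_cases ha : T1.card + 1 = h
      · simp only [if_pos ha]
        have e : ∀ x ∈ T2, chi T1 * psi (T2.erase x) x / (3 * h) =
            chi T1 / (3 * h) * psi (T2.erase x) x := by
          intro x hx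
          ring
        rw [Finset.sum_congr rfl e, ← Finset.mul_sum, sum_psi_er, mul_zero]
      · simp only [if_neg ha, Finset.sum_const_zero]
    rw [this, sub_zero]
  rw [s1, s2]
  exact hW

end OddGr75
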