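import Pool.Agent.OddGr75.Basic

/-!
# Module OG-WBOUND (MP_d22128_co, helper75): the W-flow, bounds.

All sets with the indicated sizes (`A = (A1, A2)`, `|A1| + |A2| = 2h - 1`; `T = (T1, T2)`,
`|T1| + |T2| = 2h`), `h ≥ 3`. Facts: `|Uρ| ≤ h-1` on `(h-1)`-sets (`D.up1`), `|Dρ| ≤ h-1` on
`(h+1)`-sets (by `dn_compl` from `D.up1` and `D.compl`), `|UUρ| ≤ K`, `|DDρ| ≤ K` with
`K = 2h²(h-1)/(2h+1)` on `(h-2)`- resp. `(h+2)`-sets; `|wt A| ≤ h - 1` if `|A| = h ± 1`;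
`|ew| ≤ 1`; `|E(A2)| = |up ew A2| ≤ |A2ᶜ| = h + 2` if `|A2| = h - 2`, and `E(A2) = 0` if `h` is odd
(`un` of an `(h-1)`-set is then even, `un_parity`).

* `WF1_b0` (`|A1| = h`, `|A2| = h-1`): `|ρ χ wt(A2)| / h ≤ (h-1)/h`.
* `WF1_b1` (`|A1| ≠ h`, `|A1| + 1 ≠ h`): `|A1| = h+1`: `(h-1)(h+2)/(2h(h-1)²) = (h+2)/(2h(h-1)) ≤
  2h/(2h+1)` for `h ≥ 3`; `|A1| = h-2`: `|χw - e/2| ≤ |wt| ≤ h-1` (`|A2| = h+1`) and `|Uρ| ≤ h-1`:
  `≤ (h-1)²/(h(h-1)) = (h-1)/h ≤ 2h/(2h+1)`.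
* `WF2_b0` (`|A1| + 1 = h`): `|χ Uρ|/h ≤ (h-1)/h`.
* `WF2_b1` (`|A1| ≠ h`, `|A1| + 1 ≠ h`): `|A1| = h+1`: `|θ - e/(2(h-1))| ≤ 1` because `θ = 0` if
  `un = 1` and `e = 0` otherwise; so `≤ (h-1)/h ≤ 2h/(2h+1)`. `|A1| = h-2`:
  `|ψ + e/(2(h-1))| ≤ 1` the same way, and `K/(h(h-1)) = 2h/(2h+1)`.
* `VV_b0` (`|T1| = h`): `VV = 0`. `VV_b1` (`|T1| = h ± 1`): `≤ (h-1)/(2h)`; for `|T1| = h-1` use
  the complement (`VV T1 T2 = V0 T1ᶜ T2ᶜ`).
* `VV_b2` (other): `|T1| = h+2`, `|T2| = h-2` (or the complement): `h` odd: `E = 0`. `h` even, so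
  `h ≥ 4`: `K(h+2)/(2h(h-1)²) = h(h+2)/((2h+1)(h-1)) ≤ 2h/(2h+1)` iff `h+2 ≤ 2(h-1)` iff `h ≥ 4`.
-/

set_option autoImplicit false

namespace OddGr75

variable {h : ℕ}

theorem WBound_card (A : Finset (P h)) : Aᶜ.card + A.card = 2 * h := by
  have h2 := Finset.card_compl_add_card A
  have h3 : Fintype.card (P h) = 2 * h := by simp [P, mul_comm]
  omega

theorem WBound_sign (D : RhoData h) (x : ℚ) : |(-1) ^ (h + 1) * x| = |x| := by
  rw [abs_mul, abs_pow, abs_neg, abs_one, one_pow, one_mul]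

theorem WBound_rho (D : RhoData h) (A : Finset (P h)) : |D.rho A| = 1 := by
  rcases D.pm A with e | e <;> rw [e] <;> norm_num

theorem abs_dn_rho (D : RhoData h) (Z : Finset (P h)) (hZ : Z.card = h + 1) :
    |dn D.rho Z| ≤ (h : ℚ) - 1 := by
  have h1 := dn_compl D.rho _ D.compl Zᶜ
  rw [compl_compl] at h1
  rw [h1, WBound_sign D]
  have h2 := WBound_card Z
  exact D.up1 _ (by omega)

theorem WBound_dn_dn (D : RhoData h) (Z : Finset (P h)) (hZ : Z.card = h + 2) :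
    |dn (dn D.rho) Z| ≤ 2 * (h : ℚ) ^ 2 * ((h : ℚ) - 1) / (2 * (h : ℚ) + 1) := by
  have h1 := dn_dn_compl D.rho _ D.compl Zᶜ
  rw [compl_compl] at h1
  rw [h1, WBound_sign D]
  have h2 := WBound_card Z
  exact D.up2 _ (by omega)

theorem WBound_up_ew (A : Finset (P h)) (hA : A.card + 2 = h) : |up ew A| ≤ (h : ℚ) + 2 := by
  unfold up
  refine (Finset.abs_sum_le_sum_abs _ _).trans ?_
  refine (Finset.sum_le_sum (fun x _ => abs_ew_le (insert x A))).trans ?_
  rw [Finset.sum_const, nsmul_eq_mul, mul_one]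
  have h2 := WBound_card A
  have h3 : Aᶜ.card = h + 2 := by omega
  rw [h3]
  push_cast
  exact le_refl _

theorem WBound_up_ew_odd (A : Finset (P h)) (hA : A.card + 2 = h) (ho : h % 2 = 1) :
    up ew A = 0 := by
  unfold up
  refine Finset.sum_eq_zero fun x hx => ?_
  apply ew_of_ne
  intro h1
  obtain ⟨m, hm⟩ := un_parity (insert x A)
  rw [Finset.card_insert_of_notMem (Finset.mem_compl.1 hx), h1] at hm
  omega

theorem WBound_frac (hh : 3 ≤ h) : ((h : ℚ) - 1) / h ≤ 1 - 1 / (2 * (h : ℚ) + 1) := by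
  have h0 : (3 : ℚ) ≤ h := by exact_mod_cast hh
  have h1 : 1 - 1 / (2 * (h : ℚ) + 1) = 2 * h / (2 * h + 1) := by
    field_simp
    ring
  rw [h1, div_le_div_iff₀ (by linarith) (by linarith)]
  nlinarith

theorem WF1_b0 (hh : 3 ≤ h) (D : RhoData h) (A1 A2 : Finset (P h)) (x : P h)
    (hA : A1.card + A2.card + 1 = 2 * h) (h1 : A1.card = h) :
    |WF1 D.rho A1 A2 x| ≤ 1 - 1 / (h : ℚ) := by
  have h0 : (3 : ℚ) ≤ h := by exact_mod_cast hh
  have h2 : |wt A2| ≤ (h : ℚ) - 1 := abs_wt_le_of_card (Or.inl (by omega))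
  unfold WF1
  rw [if_pos h1, abs_div, abs_mul, abs_mul, WBound_rho, abs_chi, one_mul, one_mul,
    abs_of_nonneg (by linarith : (0 : ℚ) ≤ h)]
  have h3 : 1 - 1 / (h : ℚ) = (h - 1) / h := by
    field_simp
  rw [h3]
  exact div_le_div_of_nonneg_right h2 (by linarith)

theorem WF1_tie (hh : 3 ≤ h) (D : RhoData h) (A1 A2 : Finset (P h)) (x : P h)
    (h1 : A1.card + 1 = h) : WF1 D.rho A1 A2 x = -(D.rho (insert x A1) * chi A2) := by
  unfold WF1
  rw [if_neg (by omega), if_neg (by omega), if_pos h1]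

theorem WF1_b1 (hh : 3 ≤ h) (D : RhoData h) (A1 A2 : Finset (P h)) (x : P h) (hx : x ∉ A1)
    (hA : A1.card + A2.card + 1 = 2 * h) (h1 : A1.card ≠ h) (h2 : A1.card + 1 ≠ h) :
    |WF1 D.rho A1 A2 x| ≤ 1 - 1 / (2 * (h : ℚ) + 1) := by
  have h0 : (3 : ℚ) ≤ h := by exact_mod_cast hh
  have hf := WBound_frac hh
  unfold WF1
  rw [if_neg h1, if_neg h2]
  split_ifs with h3 h4
  · have h5 := abs_dn_rho D A1 h3
    have h6 := WBound_up_ew A2 (by omega)
    have h7 : (0 : ℚ) < 2 * h * ((h : ℚ) - 1) ^ 2 := by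
      have : (0 : ℚ) < h - 1 := by linarith
      positivity
    rw [abs_div, abs_mul, abs_of_pos h7]
    have h8 : |dn D.rho A1| * |up ew A2| ≤ ((h : ℚ) - 1) * (h + 2) :=
      mul_le_mul h5 h6 (abs_nonneg _) (by linarith)
    refine le_trans ?_ hf
    rw [div_le_div_iff₀ h7 (by linarith)]
    have h9 : ((h : ℚ) + 2) ≤ 2 * (h - 1) ^ 2 := by nlinarith
    have h10 : ((h : ℚ) - 1) * (h + 2) * h ≤ (h - 1) * (2 * h * ((h : ℚ) - 1) ^ 2) := by
      have h11 : ((h : ℚ) - 1) * h * (h + 2) ≤ (h - 1) * h * (2 * (h - 1) ^ 2) :=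
        mul_le_mul_of_nonneg_left h9 (by nlinarith)
      nlinarith
    exact (mul_le_mul_of_nonneg_right h8 (by linarith)).trans h10
  · have h5 : |up D.rho (insert x A1)| ≤ (h : ℚ) - 1 := by
      apply D.up1
      rw [Finset.card_insert_of_notMem hx]
      omega
    have h6 : |wt A2| ≤ (h : ℚ) - 1 := abs_wt_le_of_card (Or.inr (by omega))
    have h7 : |chi A2 * wt A2 - ew A2 / 2| ≤ (h : ℚ) - 1 := by
      by_cases h8 : un A2 = 1
      · rw [ew_of_one h8]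
        have h9 : chi A2 * wt A2 - chi A2 * wt A2 / 2 = chi A2 * wt A2 / 2 := by ring
        rw [h9, abs_div, abs_mul, abs_chi, one_mul, abs_of_pos (by norm_num : (0 : ℚ) < 2)]
        linarith
      · rw [ew_of_ne h8, zero_div, sub_zero, abs_mul, abs_chi, one_mul]
        exact h6
    refine le_trans ?_ hf
    have h8 : (0 : ℚ) < h * ((h : ℚ) - 1) := by
      have : (0 : ℚ) < h - 1 := by linarith
      positivity
    rw [abs_neg, abs_mul, abs_div, abs_of_pos h8]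
    have h9 : |up D.rho (insert x A1)| / (h * ((h : ℚ) - 1)) ≤ 1 / h := by
      rw [div_le_div_iff₀ h8 (by linarith)]
      nlinarith
    calc |up D.rho (insert x A1)| / (h * ((h : ℚ) - 1)) * |chi A2 * wt A2 - ew A2 / 2|
        ≤ 1 / h * ((h : ℚ) - 1) := mul_le_mul h9 h7 (abs_nonneg _) (by positivity)
      _ = ((h : ℚ) - 1) / h := by ring
  · rw [abs_zero]
    refine le_trans ?_ hf
    exact div_nonneg (by linarith) (by linarith)

theorem WF2_tie (hh : 3 ≤ h) (D : RhoData h) (A1 A2 : Finset (P h)) (x : P h)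
    (h1 : A1.card = h) : WF2 D.rho A1 A2 x = D.rho A1 * chi (insert x A2) := by
  unfold WF2
  rw [if_pos h1]

theorem WF2_b0 (hh : 3 ≤ h) (D : RhoData h) (A1 A2 : Finset (P h)) (x : P h)
    (hA : A1.card + A2.card + 1 = 2 * h) (h1 : A1.card + 1 = h) :
    |WF2 D.rho A1 A2 x| ≤ 1 - 1 / (h : ℚ) := by
  have h0 : (3 : ℚ) ≤ h := by exact_mod_cast hh
  have h2 := D.up1 A1 h1
  unfold WF2
  rw [if_neg (by omega), if_neg (by omega), if_pos h1, abs_div, abs_mul, abs_chi, one_mul,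
    abs_of_nonneg (by linarith : (0 : ℚ) ≤ h)]
  have h3 : 1 - 1 / (h : ℚ) = (h - 1) / h := by
    field_simp
  rw [h3]
  exact div_le_div_of_nonneg_right h2 (by linarith)

theorem WBound_ew_half (hh : 3 ≤ h) (A : Finset (P h)) : |ew A / 2 / ((h : ℚ) - 1)| ≤ 1 := by
  have h0 : (3 : ℚ) ≤ h := by exact_mod_cast hh
  have h1 := abs_ew_le A
  rw [abs_div, abs_div, abs_of_pos (by norm_num : (0 : ℚ) < 2),
    abs_of_pos (by linarith : (0 : ℚ) < (h : ℚ) - 1)]
  rw [div_le_one (by linarith)]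
  linarith

theorem WF2_b1 (hh : 3 ≤ h) (D : RhoData h) (A1 A2 : Finset (P h)) (x : P h) (hx : x ∉ A2)
    (hA : A1.card + A2.card + 1 = 2 * h) (h1 : A1.card ≠ h) (h2 : A1.card + 1 ≠ h) :
    |WF2 D.rho A1 A2 x| ≤ 1 - 1 / (2 * (h : ℚ) + 1) := by
  have h0 : (3 : ℚ) ≤ h := by exact_mod_cast hh
  have hf := WBound_frac hh
  unfold WF2
  rw [if_neg h1, if_neg h2]
  split_ifs with h3 h4
  · have h5 := abs_dn_rho D A1 h3
    have h6 : |theta (insert x A2) x - ew (insert x A2) / 2 / ((h : ℚ) - 1)| ≤ 1 := by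
      by_cases h7 : un (insert x A2) = 1
      · rw [theta_of_one h7, zero_sub, abs_neg]
        exact WBound_ew_half hh _
      · rw [ew_of_ne h7, zero_div, zero_div, sub_zero]
        exact abs_theta_le (Finset.mem_insert_self _ _)
    refine le_trans ?_ hf
    rw [abs_mul, abs_div, abs_of_nonneg (by linarith : (0 : ℚ) ≤ h)]
    calc |dn D.rho A1| / h * |theta (insert x A2) x - ew (insert x A2) / 2 / ((h : ℚ) - 1)|
        ≤ ((h : ℚ) - 1) / h * 1 :=
          mul_le_mul (div_le_div_of_nonneg_right h5 (by linarith)) h6 (abs_nonneg _)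
            (div_nonneg (by linarith) (by linarith))
      _ = ((h : ℚ) - 1) / h := mul_one _
  · have h5 := D.up2 A1 h4
    have h6 : |psi A2 x + ew A2 / 2 / ((h : ℚ) - 1)| ≤ 1 := by
      by_cases h7 : un A2 = 1
      · rw [psi_of_one h7, zero_add]
        exact WBound_ew_half hh _
      · rw [ew_of_ne h7, zero_div, zero_div, add_zero]
        exact abs_psi_le hx
    have h8 : (0 : ℚ) < h * ((h : ℚ) - 1) := by
      have : (0 : ℚ) < h - 1 := by linarith
      positivity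
    rw [abs_mul, abs_div, abs_of_pos h8]
    have h9 : |up (up D.rho) A1| / (h * ((h : ℚ) - 1)) ≤ 1 - 1 / (2 * (h : ℚ) + 1) := by
      rw [div_le_iff₀ h8]
      refine h5.trans (le_of_eq ?_)
      field_simp
      ring
    calc |up (up D.rho) A1| / (h * ((h : ℚ) - 1)) * |psi A2 x + ew A2 / 2 / ((h : ℚ) - 1)|
        ≤ (1 - 1 / (2 * (h : ℚ) + 1)) * 1 :=
          mul_le_mul h9 h6 (abs_nonneg _)
            (le_trans (div_nonneg (by linarith) (by linarith)) hf)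
      _ = _ := mul_one _
  · rw [abs_zero]
    refine le_trans ?_ hf
    exact div_nonneg (by linarith) (by linarith)

theorem VV_b0 (hh : 3 ≤ h) (D : RhoData h) (T1 T2 : Finset (P h)) (h1 : T1.card = h) :
    VV D.rho T1 T2 = 0 := by
  unfold VV V0
  rw [if_neg (by omega), if_neg (by omega), if_neg (by omega)]

theorem WBound_V0_b1 (hh : 3 ≤ h) (D : RhoData h) (T1 T2 : Finset (P h))
    (h1 : T1.card = h + 1) : |V0 D.rho T1 T2| ≤ ((h : ℚ) - 1) / (2 * h) := by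
  have h0 : (3 : ℚ) ≤ h := by exact_mod_cast hh
  unfold V0
  rw [if_pos h1, abs_neg, abs_div, abs_mul, abs_of_pos (by linarith : (0 : ℚ) < 2 * h)]
  refine div_le_div_of_nonneg_right ?_ (by linarith)
  have h2 := abs_dn_rho D T1 h1
  have h3 := abs_ew_le T2
  calc |dn D.rho T1| * |ew T2| ≤ ((h : ℚ) - 1) * 1 :=
        mul_le_mul h2 h3 (abs_nonneg _) (by linarith)
    _ = _ := mul_one _

theorem WBound_V0_b2 (hh : 3 ≤ h) (D : RhoData h) (T1 T2 : Finset (P h))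
    (hT : T1.card + T2.card = 2 * h) (h1 : T1.card = h + 2) :
    |V0 D.rho T1 T2| ≤ 1 - 1 / (2 * (h : ℚ) + 1) := by
  have h0 : (3 : ℚ) ≤ h := by exact_mod_cast hh
  have hf := WBound_frac hh
  have hf0 : (0 : ℚ) ≤ ((h : ℚ) - 1) / h := div_nonneg (by linarith) (by linarith)
  have h2 := WBound_dn_dn D T1 h1
  unfold V0
  rw [if_neg (by omega), if_pos h1]
  rcases Nat.mod_two_eq_zero_or_one h with he | ho
  · have h3 : 4 ≤ h := by omega
    have h4 : (4 : ℚ) ≤ h := by exact_mod_cast h3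
    have h5 := WBound_up_ew T2 (by omega)
    have h6 : (0 : ℚ) < h - 1 := by linarith
    have h7 : (0 : ℚ) < 2 * h * ((h : ℚ) - 1) ^ 2 := by positivity
    rw [abs_neg, abs_div, abs_mul, abs_of_pos h7]
    have h8 : |dn (dn D.rho) T1| * |up ew T2| ≤
        2 * (h : ℚ) ^ 2 * ((h : ℚ) - 1) / (2 * (h : ℚ) + 1) * (h + 2) :=
      mul_le_mul h2 h5 (abs_nonneg _) (by positivity)
    rw [div_le_iff₀ h7]
    refine h8.trans ?_
    have h9 : (1 - 1 / (2 * (h : ℚ) + 1)) * (2 * h * ((h : ℚ) - 1) ^ 2) =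
        2 * (h : ℚ) ^ 2 * ((h : ℚ) - 1) / (2 * (h : ℚ) + 1) * (2 * (h - 1)) := by
      field_simp
      ring
    rw [h9]
    exact mul_le_mul_of_nonneg_left (by linarith) (by positivity)
  · rw [WBound_up_ew_odd T2 (by omega) ho, mul_zero, zero_div, neg_zero, abs_zero]
    exact hf0.trans hf

theorem VV_b1 (hh : 3 ≤ h) (D : RhoData h) (T1 T2 : Finset (P h))
    (hT : T1.card + T2.card = 2 * h) (h1 : T1.card = h + 1 ∨ T1.card + 1 = h) :
    |VV D.rho T1 T2| ≤ ((h : ℚ) - 1) / (2 * h) := by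
  unfold VV
  rcases h1 with h1 | h1
  · rw [if_neg (by omega)]
    exact WBound_V0_b1 hh D T1 T2 h1
  · rw [if_pos (by omega)]
    have h2 := WBound_card T1
    exact WBound_V0_b1 hh D _ _ (by omega)

theorem VV_b2 (hh : 3 ≤ h) (D : RhoData h) (T1 T2 : Finset (P h))
    (hT : T1.card + T2.card = 2 * h) :
    |VV D.rho T1 T2| ≤ 1 - 1 / (2 * (h : ℚ) + 1) := by
  have h0 : (3 : ℚ) ≤ h := by exact_mod_cast hh
  have hf := WBound_frac hh
  have hf0 : (0 : ℚ) ≤ ((h : ℚ) - 1) / h := div_nonneg (by linarith) (by linarith)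
  have h2 := WBound_card T1
  have h3 := WBound_card T2
  by_cases h1 : T1.card = h + 1 ∨ T1.card + 1 = h
  · refine (VV_b1 hh D T1 T2 hT h1).trans (le_trans ?_ hf)
    exact div_le_div_of_nonneg_left (by linarith) (by linarith) (by linarith)
  · rw [not_or] at h1
    by_cases h4 : T1.card = h + 2
    · unfold VV
      rw [if_neg (by omega)]
      exact WBound_V0_b2 hh D T1 T2 hT h4
    · by_cases h5 : T1.card + 2 = h
      · unfold VV
        rw [if_pos (by omega)]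
        exact WBound_V0_b2 hh D _ _ (by omega) (by omega)
      · have h6 : VV D.rho T1 T2 = 0 := by
          unfold VV V0
          split_ifs <;> first | rfl | omega
        rw [h6, abs_zero]
        exact hf0.trans hf

end OddGr75
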