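import Pool.Agent.OddGr75.Basic

/-!
# Module OG-WSUM (MP_d22128_co, helper75): the W-flow, exact sums.

Write `ρ = D.rho`, `U = up`, `D = dn`, `E = up ew`.

**WA** (`|A1| + |A2| = 2h - 1`): `∑_{x ∉ A1} WF1 + ∑_{x ∉ A2} WF2 = 0`. Cases:
* `|A1| = h, |A2| = h-1`: first sum `h · ρ(A1) χw(A2) / h`, second `ρ(A1) ∑_{x∉A2} χ(A2∪x) = -ρ(A1) χw(A2)`
  (`up_chi`).
* `|A1| = h+1, |A2| = h-2`: first sum `(h-1) Dρ(A1) E(A2) / (2h(h-1)²)`; second
  `Dρ(A1)/h · (∑_{x∉A2} θ(A2∪x,x) - E(A2)/(2(h-1))) = -Dρ(A1) E(A2)/(2h(h-1))` (`sum_theta_ins`).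
* `|A1| = h-1, |A2| = h`: `-χ(A2) Uρ(A1)` and `h · χ(A2) Uρ(A1)/h`.
* `|A1| = h-2, |A2| = h+1`: `-(UUρ(A1)/(h(h-1))) (χw(A2) - e(A2)/2)` and
  `(UUρ(A1)/(h(h-1))) (ŵ(A2) + (h-1) e(A2)/(2(h-1)))` (`sum_psi`, `hw_add_ew`).
* else both are `0`.

**WT** (`|T1| + |T2| = 2h`):
`∑_{x∈T1} WF1(T1∖x,T2,x) + ∑_{x∈T2} WF2(T1,T2∖x,x) + VV(T1,T2) = 0`. Note `insert x (T1.erase x) = T1`.
* `|T1| = h`: `-h ρ(T1)χ(T2) + h ρ(T1)χ(T2) + 0` (`VV = V0 = 0`).
* `|T1| = h+1, |T2| = h-1`: `Dρ(T1) χw(T2)/h + (Dρ(T1)/h)(-ŵ(T2) - e(T2)/2) = Dρ(T1) e(T2)/(2h)`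
  (`sum_theta`; the second summand of `WF2` is constant over the `h - 1` elements of `T2`).
* `|T1| = h+2`: `∑_{x∈T1} Dρ(T1∖x) E(T2)/(2h(h-1)²) = DDρ(T1) E(T2)/(2h(h-1)²)`, `WF2 = 0`.
* `|T1| ≥ h+3`: everything `0`.
* `|T1| = h-1, |T2| = h+1`: `-(h-1) (Uρ(T1)/(h(h-1))) (χw(T2) - e(T2)/2) + ∑_{x∈T2} χ(T2∖x) Uρ(T1)/h
  = Uρ(T1) e(T2)/(2h)` (`dn_chi`) and `VV = V0(T1ᶜ,T2ᶜ) = -Dρ(T1ᶜ) e(T2ᶜ)/(2h)`, with
  `Dρ(T1ᶜ) = (-1)^(h+1) Uρ(T1)` (`dn_compl`, `D.compl`) and `e(T2ᶜ) = (-1)^(h+1) e(T2)`.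
* `|T1| = h-2, |T2| = h+2`: `WF1 = 0` (`|T1∖x| = h-3`); `∑_{x∈T2} (UUρ(T1)/(h(h-1))) (ψ(T2∖x,x) +
  e(T2∖x)/(2(h-1))) = UUρ(T1) (dn ew T2)/(2h(h-1)²)` (`sum_psi_er`), and
  `VV = -DDρ(T1ᶜ) E(T2ᶜ)/(2h(h-1)²)` with `DDρ(T1ᶜ) = (-1)^(h+1) UUρ(T1)` (`dn_dn_compl`),
  `E(T2ᶜ) = up ew T2ᶜ = (-1)^(h+1) dn ew T2` (`up_compl`, `ew_compl`).
* `|T1| < h-2`: everything `0`.
-/

set_option autoImplicit false

namespace OddGr75

variable {h : ℕ}

theorem ws_card_P : Fintype.card (P h) = 2 * h := by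
  simp [P, mul_comm]

theorem ws_card_compl (A : Finset (P h)) : Aᶜ.card = 2 * h - A.card := by
  rw [Finset.card_compl, ws_card_P]

/-- values of `WF1` -/
theorem ws_F1_h (rho : Finset (P h) → ℚ) {A1 A2 : Finset (P h)} {x : P h} (e : A1.card = h) :
    WF1 rho A1 A2 x = rho A1 * (chi A2 * wt A2) / h := by
  unfold WF1
  rw [if_pos e]

theorem ws_F1_h1 (rho : Finset (P h) → ℚ) {A1 A2 : Finset (P h)} {x : P h} (e : A1.card = h + 1) :
    WF1 rho A1 A2 x = dn rho A1 * up ew A2 / (2 * h * ((h : ℚ) - 1) ^ 2) := by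
  unfold WF1
  rw [if_neg (by omega), if_pos e]

theorem ws_F1_p1 (rho : Finset (P h) → ℚ) {A1 A2 : Finset (P h)} {x : P h} (e : A1.card + 1 = h) :
    WF1 rho A1 A2 x = -(rho (insert x A1) * chi A2) := by
  unfold WF1
  rw [if_neg (by omega), if_neg (by omega), if_pos e]

theorem ws_F1_p2 (rho : Finset (P h) → ℚ) {A1 A2 : Finset (P h)} {x : P h} (e : A1.card + 2 = h) :
    WF1 rho A1 A2 x =
      -(up rho (insert x A1) / (h * ((h : ℚ) - 1)) * (chi A2 * wt A2 - ew A2 / 2)) := by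
  unfold WF1
  rw [if_neg (by omega), if_neg (by omega), if_neg (by omega), if_pos e]

theorem ws_F1_else (rho : Finset (P h) → ℚ) {A1 A2 : Finset (P h)} {x : P h}
    (e : A1.card + 2 < h ∨ h + 1 < A1.card) : WF1 rho A1 A2 x = 0 := by
  unfold WF1
  rw [if_neg (by omega), if_neg (by omega), if_neg (by omega), if_neg (by omega)]

theorem ws_F2_h (rho : Finset (P h) → ℚ) {A1 A2 : Finset (P h)} {x : P h} (e : A1.card = h) :
    WF2 rho A1 A2 x = rho A1 * chi (insert x A2) := by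
  unfold WF2
  rw [if_pos e]

theorem ws_F2_h1 (rho : Finset (P h) → ℚ) {A1 A2 : Finset (P h)} {x : P h} (e : A1.card = h + 1) :
    WF2 rho A1 A2 x =
      dn rho A1 / h * (theta (insert x A2) x - ew (insert x A2) / 2 / ((h : ℚ) - 1)) := by
  unfold WF2
  rw [if_neg (by omega), if_pos e]

theorem ws_F2_p1 (rho : Finset (P h) → ℚ) {A1 A2 : Finset (P h)} {x : P h} (e : A1.card + 1 = h) :
    WF2 rho A1 A2 x = chi A2 * up rho A1 / h := by
  unfold WF2
  rw [if_neg (by omega), if_neg (by omega), if_pos e]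

theorem ws_F2_p2 (rho : Finset (P h) → ℚ) {A1 A2 : Finset (P h)} {x : P h} (e : A1.card + 2 = h) :
    WF2 rho A1 A2 x =
      up (up rho) A1 / (h * ((h : ℚ) - 1)) * (psi A2 x + ew A2 / 2 / ((h : ℚ) - 1)) := by
  unfold WF2
  rw [if_neg (by omega), if_neg (by omega), if_neg (by omega), if_pos e]

theorem ws_F2_else (rho : Finset (P h) → ℚ) {A1 A2 : Finset (P h)} {x : P h}
    (e : A1.card + 2 < h ∨ h + 1 < A1.card) : WF2 rho A1 A2 x = 0 := by
  unfold WF2
  rw [if_neg (by omega), if_neg (by omega), if_neg (by omega), if_neg (by omega)]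

theorem ws_V0_h1 (rho : Finset (P h) → ℚ) {T1 T2 : Finset (P h)} (e : T1.card = h + 1) :
    V0 rho T1 T2 = -(dn rho T1 * ew T2 / (2 * h)) := by
  unfold V0
  rw [if_pos e]

theorem ws_V0_h2 (rho : Finset (P h) → ℚ) {T1 T2 : Finset (P h)} (e : T1.card = h + 2) :
    V0 rho T1 T2 = -(dn (dn rho) T1 * up ew T2 / (2 * h * ((h : ℚ) - 1) ^ 2)) := by
  unfold V0
  rw [if_neg (by omega), if_pos e]

theorem ws_V0_else (rho : Finset (P h) → ℚ) {T1 T2 : Finset (P h)}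
    (e : T1.card ≤ h ∨ h + 2 < T1.card) : V0 rho T1 T2 = 0 := by
  unfold V0
  rw [if_neg (by omega), if_neg (by omega)]

theorem WA (hh : 3 ≤ h) (D : RhoData h) (A1 A2 : Finset (P h)) (hA : A1.card + A2.card + 1 = 2 * h) :
    ∑ x ∈ A1ᶜ, WF1 D.rho A1 A2 x + ∑ x ∈ A2ᶜ, WF2 D.rho A1 A2 x = 0 := by
  have hh' : (3 : ℚ) ≤ h := by exact_mod_cast hh
  have hh0 : (h : ℚ) ≠ 0 := by linarith
  have hh1 : (h : ℚ) - 1 ≠ 0 := by linarith
  have hc1 := ws_card_compl A1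
  have hc2 := ws_card_compl A2
  rcases Nat.lt_or_ge (A1.card + 2) h with c0 | c0
  · rw [Finset.sum_eq_zero fun x _ => ws_F1_else D.rho (Or.inl c0),
      Finset.sum_eq_zero fun x _ => ws_F2_else D.rho (Or.inl c0), add_zero]
  rcases Nat.lt_or_ge (h + 1) A1.card with c1 | c1
  · rw [Finset.sum_eq_zero fun x _ => ws_F1_else D.rho (Or.inr c1),
      Finset.sum_eq_zero fun x _ => ws_F2_else D.rho (Or.inr c1), add_zero]
  have hcases : A1.card + 2 = h ∨ A1.card + 1 = h ∨ A1.card = h ∨ A1.card = h + 1 := by omega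
  rcases hcases with e | e | e | e
  · have k2 : A2ᶜ.card = h - 1 := by omega
    rw [Finset.sum_congr rfl fun x _ => ws_F1_p2 D.rho e,
      Finset.sum_congr rfl fun x _ => ws_F2_p2 D.rho e]
    have s1 : ∑ x ∈ A1ᶜ, -(up D.rho (insert x A1) / (h * ((h : ℚ) - 1)) *
        (chi A2 * wt A2 - ew A2 / 2)) = -(up (up D.rho) A1 / (h * ((h : ℚ) - 1)) *
        (chi A2 * wt A2 - ew A2 / 2)) := by
      rw [Finset.sum_neg_distrib, ← Finset.sum_mul, ← Finset.sum_div]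
      rfl
    have s2 : ∑ x ∈ A2ᶜ, up (up D.rho) A1 / (h * ((h : ℚ) - 1)) *
        (psi A2 x + ew A2 / 2 / ((h : ℚ) - 1)) = up (up D.rho) A1 / (h * ((h : ℚ) - 1)) *
        (hw A2 + ew A2 / 2) := by
      rw [← Finset.mul_sum, Finset.sum_add_distrib, sum_psi, Finset.sum_const, k2, nsmul_eq_mul,
        Nat.cast_sub (by omega), Nat.cast_one, mul_div_cancel₀ _ hh1]
    rw [s1, s2, ← hw_add_ew A2]
    ring
  · have k2 : A2ᶜ.card = h := by omega
    rw [Finset.sum_congr rfl fun x _ => ws_F1_p1 D.rho e,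
      Finset.sum_congr rfl fun x _ => ws_F2_p1 D.rho e]
    rw [Finset.sum_neg_distrib, ← Finset.sum_mul, Finset.sum_const, k2, nsmul_eq_mul,
      mul_div_cancel₀ _ hh0]
    have : ∑ x ∈ A1ᶜ, D.rho (insert x A1) = up D.rho A1 := rfl
    rw [this]
    ring
  · have k1 : A1ᶜ.card = h := by omega
    rw [Finset.sum_congr rfl fun x _ => ws_F1_h D.rho e,
      Finset.sum_congr rfl fun x _ => ws_F2_h D.rho e]
    rw [Finset.sum_const, k1, nsmul_eq_mul, mul_div_cancel₀ _ hh0, ← Finset.mul_sum]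
    have : ∑ x ∈ A2ᶜ, chi (insert x A2) = up chi A2 := rfl
    rw [this, up_chi]
    ring
  · have k1 : A1ᶜ.card = h - 1 := by omega
    rw [Finset.sum_congr rfl fun x _ => ws_F1_h1 D.rho e,
      Finset.sum_congr rfl fun x _ => ws_F2_h1 D.rho e]
    rw [Finset.sum_const, k1, nsmul_eq_mul, Nat.cast_sub (by omega), Nat.cast_one,
      ← Finset.mul_sum, Finset.sum_sub_distrib, sum_theta_ins, ← Finset.sum_div,
      ← Finset.sum_div]
    have : ∑ x ∈ A2ᶜ, ew (insert x A2) = up ew A2 := rfl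
    rw [this]
    field_simp
    ring

theorem WT (hh : 3 ≤ h) (D : RhoData h) (T1 T2 : Finset (P h)) (hT : T1.card + T2.card = 2 * h) :
    ∑ x ∈ T1, WF1 D.rho (T1.erase x) T2 x + ∑ x ∈ T2, WF2 D.rho T1 (T2.erase x) x +
      VV D.rho T1 T2 = 0 := by
  have hh' : (3 : ℚ) ≤ h := by exact_mod_cast hh
  have hh0 : (h : ℚ) ≠ 0 := by linarith
  have hh1 : (h : ℚ) - 1 ≠ 0 := by linarith
  have hc1 := ws_card_compl T1
  have hc2 := ws_card_compl T2
  have her : ∀ x ∈ T1, (T1.erase x).card + 1 = T1.card := fun x hx =>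
    Finset.card_erase_add_one hx
  have hsq : (-1 : ℚ) ^ (h + 1) * (-1) ^ (h + 1) = 1 := by
    rw [← mul_pow]
    norm_num
  rcases Nat.lt_or_ge (T1.card + 2) h with c0 | c0
  · rw [Finset.sum_eq_zero fun x hx => ws_F1_else D.rho (Or.inl (by have := her x hx; omega)),
      Finset.sum_eq_zero fun x _ => ws_F2_else D.rho (Or.inl c0)]
    unfold VV
    rw [if_pos (by omega), ws_V0_else D.rho (Or.inr (by omega))]
    ring
  rcases Nat.lt_or_ge (h + 2) T1.card with c1 | c1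
  · rw [Finset.sum_eq_zero fun x hx => ws_F1_else D.rho (Or.inr (by have := her x hx; omega)),
      Finset.sum_eq_zero fun x _ => ws_F2_else D.rho (Or.inr (by omega))]
    unfold VV
    rw [if_neg (by omega), ws_V0_else D.rho (Or.inr (by omega))]
    ring
  have hcases : T1.card + 2 = h ∨ T1.card + 1 = h ∨ T1.card = h ∨ T1.card = h + 1 ∨
    T1.card = h + 2 := by omega
  rcases hcases with e | e | e | e | e
  · rw [Finset.sum_eq_zero fun x hx => ws_F1_else D.rho (Or.inl (by have := her x hx; omega)),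
      Finset.sum_congr rfl fun x _ => ws_F2_p2 D.rho e]
    unfold VV
    rw [if_pos (by omega), ws_V0_h2 D.rho (by omega), dn_dn_compl D.rho _ D.compl,
      up_compl ew _ ew_compl, ← Finset.mul_sum, Finset.sum_add_distrib, sum_psi_er,
      ← Finset.sum_div, ← Finset.sum_div]
    have s1 : ∑ x ∈ T2, ew (T2.erase x) = dn ew T2 := rfl
    have s2 : (-1 : ℚ) ^ (h + 1) * up (up D.rho) T1 * ((-1) ^ (h + 1) * dn ew T2)
        = up (up D.rho) T1 * dn ew T2 := by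
      calc _ = ((-1 : ℚ) ^ (h + 1) * (-1) ^ (h + 1)) * (up (up D.rho) T1 * dn ew T2) := by ring
        _ = _ := by rw [hsq, one_mul]
    rw [s1, s2]
    field_simp
    ring
  · rw [Finset.sum_congr rfl fun x hx => ws_F1_p2 D.rho
        (show (T1.erase x).card + 2 = h by have := her x hx; omega),
      Finset.sum_congr rfl fun x _ => ws_F2_p1 D.rho e]
    rw [Finset.sum_congr rfl fun x hx => by rw [Finset.insert_erase hx]]
    unfold VV
    have k1 : T1.card = h - 1 := by omega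
    rw [if_pos (by omega), ws_V0_h1 D.rho (by omega), dn_compl D.rho _ D.compl, ew_compl,
      Finset.sum_const, k1, nsmul_eq_mul, Nat.cast_sub (by omega), Nat.cast_one,
      ← Finset.sum_div, ← Finset.sum_mul]
    have s1 : ∑ x ∈ T2, chi (T2.erase x) = dn chi T2 := rfl
    have s2 : (-1 : ℚ) ^ (h + 1) * up D.rho T1 * ((-1) ^ (h + 1) * ew T2)
        = up D.rho T1 * ew T2 := by
      calc _ = ((-1 : ℚ) ^ (h + 1) * (-1) ^ (h + 1)) * (up D.rho T1 * ew T2) := by ring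
        _ = _ := by rw [hsq, one_mul]
    rw [s1, s2, dn_chi]
    field_simp
    ring
  · rw [Finset.sum_congr rfl fun x hx => ws_F1_p1 D.rho
        (show (T1.erase x).card + 1 = h by have := her x hx; omega),
      Finset.sum_congr rfl fun x _ => ws_F2_h D.rho e]
    rw [Finset.sum_congr rfl (fun x hx => by rw [Finset.insert_erase hx]),
      Finset.sum_congr (s₁ := T2) rfl (fun x hx => by rw [Finset.insert_erase hx])]
    unfold VV
    have k2 : T2.card = h := by omega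
    rw [if_neg (by omega), ws_V0_else D.rho (Or.inl (by omega)), Finset.sum_const, Finset.sum_const,
      e, k2]
    simp only [nsmul_eq_mul]
    ring
  · rw [Finset.sum_congr rfl fun x hx => ws_F1_h D.rho
        (show (T1.erase x).card = h by have := her x hx; omega),
      Finset.sum_congr rfl fun x _ => ws_F2_h1 D.rho e]
    rw [Finset.sum_congr (s₁ := T2) rfl (fun x hx => by rw [Finset.insert_erase hx])]
    unfold VV
    have k2 : T2.card = h - 1 := by omega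
    rw [if_neg (by omega), ws_V0_h1 D.rho e, ← Finset.sum_div, ← Finset.sum_mul, ← Finset.mul_sum,
      Finset.sum_sub_distrib, sum_theta, Finset.sum_const, k2, nsmul_eq_mul,
      Nat.cast_sub (by omega), Nat.cast_one, mul_div_cancel₀ _ hh1]
    have s1 : ∑ x ∈ T1, D.rho (T1.erase x) = dn D.rho T1 := rfl
    rw [s1, ← hw_add_ew T2]
    field_simp
    ring
  · rw [Finset.sum_congr rfl fun x hx => ws_F1_h1 D.rho
        (show (T1.erase x).card = h + 1 by have := her x hx; omega),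
      Finset.sum_eq_zero fun x _ => ws_F2_else D.rho (Or.inr (by omega))]
    unfold VV
    rw [if_neg (by omega), ws_V0_h2 D.rho e, ← Finset.sum_div, ← Finset.sum_mul]
    have s1 : ∑ x ∈ T1, dn D.rho (T1.erase x) = dn (dn D.rho) T1 := rfl
    rw [s1]
    ring

/-- `VV` is invariant under the complement. -/
theorem VV_compl (D : RhoData h) (T1 T2 : Finset (P h)) (hT : T1.card + T2.card = 2 * h) :
    VV D.rho T1ᶜ T2ᶜ = VV D.rho T1 T2 := by
  have hc1 := ws_card_compl T1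
  unfold VV
  rcases lt_trichotomy T1.card h with e | e | e
  · rw [if_neg (by omega), if_pos e]
  · rw [if_neg (by omega), if_neg (by omega), ws_V0_else D.rho (Or.inl (by omega)),
      ws_V0_else D.rho (Or.inl (by omega))]
  · rw [if_pos (by omega), if_neg (by omega), compl_compl, compl_compl]

end OddGr75
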