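import Pool.Agent.OddGr75.Trans
import Pool.Agent.OddGr75.WSum
import Pool.Agent.OddGr75.WBound
import Pool.Agent.OddGr75.HSum
import Pool.Agent.OddGr75.HBound

/-!
# Module OG-EVEN (MP_d22128_co, helper75): assembly for even k = 2h + 2, h ≥ 4.

Apply `split` with `P1 = P2 = P h`, `R = Fin 3`, `k = 2h+2` (`4h + 3 = 2k-1`), `d1 = d2 = h+1`.
A vertex `(X,Y,Q)`, `|X|+|Y|+|Q| = 2h+1`, has the type `|Q|`:
`|Q| = 3` (A3: `A = (X,Y)`, `|A1|+|A2| = 2h-2`), `|Q| = 2` (A2: `A = (X,Y)`, `|A1|+|A2| = 2h-1`),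
`|Q| = 1` (T1: `T = (Xᶜ,Yᶜ)`, `|T1|+|T2| = 2h`), `|Q| = 0` (T0: `U = (Xᶜ,Yᶜ)`, `|U1|+|U2| = 2h-1`).
* `y1 X Y Q x`: `|Q| = 3`: `H1(X,Y,x)`; `|Q| = 2`: `EF1(X,Y,x)`; `|Q| = 1`: `EF1(Xᶜ.erase x, Yᶜ, x)`;
  `|Q| = 0`: `H1(Xᶜ.erase x, Yᶜ, x)`.
* `y2 X Y Q x`: `H2(X,Y,x)`; `EF2(X,Y,x)`; `EF2(Xᶜ, Yᶜ.erase x, x)`; `H2(Xᶜ, Yᶜ.erase x, x)`.
* `y3 X Y Q r`: `|Q| = 2`: `HI(X,Y)`; `|Q| = 1`: `VV(Xᶜ,Yᶜ)/2`; `|Q| = 0`: `HI(Xᶜ,Yᶜ)`.
Symmetry: `|Qᶜ| = 3 - |Q|`, `|Qᶜ.erase r| = 2 - |Q|`; `(Xᶜ.erase x)ᶜ.erase x = X`; `VV_compl`.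
Sums (all `= 0`): `|Q| = 3`: `HA`. `|Q| = 2` (one `r ∉ Q`): `WA` + `EA`. `|Q| = 1` (two `r ∉ Q`):
`WT` + `ET`. `|Q| = 0` (three `r`): `HT`.
Bounds: `H1_b, H2_b, HI_b, EF1_b, EF2_b` (with `WF1_b0, WF1_tie, WF1_b1, ...`), `VV_b2`.
Cuts: `τ(T) = rho T1 * chi T2`, `τ3 = tau3 D.sig`. `|Q| = 3`: `|X| ≥ h`: true; `|X| + 1 = h` (tie):
`s1 = decide (τ3 = 1)`, `s2 = decide (τ3 = -1)`; else false. `|Q| = 2`: `decide (|X| ≥ h)`.
`|Q| = 1`: `|T1| > h`: false; `|T1| < h`: true; `|T1| = h`: `s1 = decide (τ = -1)`,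
`s2 = decide (τ = 1)`. `|Q| = 0`: `|U1| ≥ h`: false, else true.
Edges: A3 to T0: `|A1| ≥ h`: `true/false`; `|A1| ≤ h-2`: `false/true`; `|A1| = h-1`: `x` into `A1`:
`|U1| = h`, `s(T0) = false`, `y = τ3`: `s1` equal iff `τ3 ≠ 1` iff `y = -1`, `s2` equal iff
`τ3 ≠ -1` iff `y = 1`; `x` into `A2`: `|U1| = h-1`, `s(T0) = true`, `y = -τ3`. A2 to T0 (same pair):
`|A1| ≥ h`: `true/false`, else `false/true`. A2 to T1: as in `Odd` (`EF1 = WF1` if `|A1| ≠ h`,
`EF2 = WF2` if `|A1| + 1 ≠ h`). T1 to T1: `T` and `Tᶜ`: `|T1| > h` iff `|T1ᶜ| < h`; ties: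
`τ(Tᶜ) = -τ(T)`.
-/

set_option autoImplicit false

namespace OddGr75

variable {h : ℕ}

theorem even_cardP (X : Finset (P h)) : X.card + Xᶜ.card = 2 * h := by
  rw [Finset.card_add_card_compl]
  simp [P, Fintype.card_prod, Fintype.card_fin, Fintype.card_bool, Nat.mul_comm]

theorem even_cardQ (Q : Finset (Fin 3)) : Q.card + Qᶜ.card = 3 := by
  rw [Finset.card_add_card_compl]
  simp

theorem even_card_er {α : Type} [Fintype α] [DecidableEq α] {X : Finset α} {x : α} (hx : x ∉ X) :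
    (Xᶜ.erase x).card + 1 = Xᶜ.card :=
  Finset.card_erase_add_one (by simpa using hx)

theorem even_er {α : Type} [Fintype α] [DecidableEq α] {X : Finset α} {x : α} (hx : x ∉ X) :
    (Xᶜ.erase x)ᶜ.erase x = X := by
  ext a
  by_cases h : a = x
  · subst h; simp [hx]
  · simp [h]

theorem even_ins {α : Type} [Fintype α] [DecidableEq α] {X : Finset α} {x : α} (_ : x ∉ X) :
    (Xᶜ.erase x)ᶜ = insert x X := by
  ext a
  by_cases h : a = x
  · subst h; simp
  · simp [h]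

/-- the flow, first part -/
noncomputable def even_y1 (D : RhoData h) (S : SigData h) (X Y : Finset (P h))
    (Q : Finset (Fin 3)) (x : P h) : ℚ :=
  if Q.card = 3 then H1 S X Y x
  else if Q.card = 2 then EF1 D.rho X Y x
  else if Q.card = 1 then EF1 D.rho (Xᶜ.erase x) Yᶜ x
  else H1 S (Xᶜ.erase x) Yᶜ x

/-- the flow, second part -/
noncomputable def even_y2 (D : RhoData h) (S : SigData h) (X Y : Finset (P h))
    (Q : Finset (Fin 3)) (x : P h) : ℚ :=
  if Q.card = 3 then H2 S X Y x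
  else if Q.card = 2 then EF2 D.rho X Y x
  else if Q.card = 1 then EF2 D.rho Xᶜ (Yᶜ.erase x) x
  else H2 S Xᶜ (Yᶜ.erase x) x

/-- the flow, third part -/
noncomputable def even_y3 (D : RhoData h) (X Y : Finset (P h))
    (Q : Finset (Fin 3)) (_ : Fin 3) : ℚ :=
  if Q.card = 2 then HI X Y
  else if Q.card = 1 then VV D.rho Xᶜ Yᶜ / 2
  else if Q.card = 0 then HI Xᶜ Yᶜ
  else 0

open Classical in
/-- the cuts (`e = 1` first cut, `e = -1` second cut) -/
noncomputable def even_s (D : RhoData h) (S : SigData h) (e : ℚ) (X Y : Finset (P h))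
    (Q : Finset (Fin 3)) : Bool :=
  if Q.card = 3 then
    (if h ≤ X.card then true else if X.card + 1 = h then decide (tau3 S.sig X Y = e) else false)
  else if Q.card = 2 then decide (h ≤ X.card)
  else if Q.card = 1 then
    (if h < Xᶜ.card then false else if Xᶜ.card < h then true
     else decide (D.rho Xᶜ * chi Yᶜ = -e))
  else !decide (h ≤ Xᶜ.card)

section

variable (D : RhoData h) (S : SigData h)

theorem even_y1_3 (X Y : Finset (P h)) (Q : Finset (Fin 3)) (x : P h) (hQ : Q.card = 3) :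
    even_y1 D S X Y Q x = H1 S X Y x := by
  simp [even_y1, hQ]

theorem even_y1_2 (X Y : Finset (P h)) (Q : Finset (Fin 3)) (x : P h) (hQ : Q.card = 2) :
    even_y1 D S X Y Q x = EF1 D.rho X Y x := by
  simp [even_y1, hQ]

theorem even_y1_1 (X Y : Finset (P h)) (Q : Finset (Fin 3)) (x : P h) (hQ : Q.card = 1) :
    even_y1 D S X Y Q x = EF1 D.rho (Xᶜ.erase x) Yᶜ x := by
  simp only [even_y1, hQ]
  norm_num

theorem even_y1_0 (X Y : Finset (P h)) (Q : Finset (Fin 3)) (x : P h) (hQ : Q.card = 0) :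
    even_y1 D S X Y Q x = H1 S (Xᶜ.erase x) Yᶜ x := by
  simp only [even_y1, hQ]
  norm_num

theorem even_y2_3 (X Y : Finset (P h)) (Q : Finset (Fin 3)) (x : P h) (hQ : Q.card = 3) :
    even_y2 D S X Y Q x = H2 S X Y x := by
  simp [even_y2, hQ]

theorem even_y2_2 (X Y : Finset (P h)) (Q : Finset (Fin 3)) (x : P h) (hQ : Q.card = 2) :
    even_y2 D S X Y Q x = EF2 D.rho X Y x := by
  simp [even_y2, hQ]

theorem even_y2_1 (X Y : Finset (P h)) (Q : Finset (Fin 3)) (x : P h) (hQ : Q.card = 1) :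
    even_y2 D S X Y Q x = EF2 D.rho Xᶜ (Yᶜ.erase x) x := by
  simp only [even_y2, hQ]
  norm_num

theorem even_y2_0 (X Y : Finset (P h)) (Q : Finset (Fin 3)) (x : P h) (hQ : Q.card = 0) :
    even_y2 D S X Y Q x = H2 S Xᶜ (Yᶜ.erase x) x := by
  simp only [even_y2, hQ]
  norm_num

theorem even_y3_2 (X Y : Finset (P h)) (Q : Finset (Fin 3)) (x : Fin 3) (hQ : Q.card = 2) :
    even_y3 D X Y Q x = HI X Y := by
  simp [even_y3, hQ]

theorem even_y3_1 (X Y : Finset (P h)) (Q : Finset (Fin 3)) (x : Fin 3) (hQ : Q.card = 1) :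
    even_y3 D X Y Q x = VV D.rho Xᶜ Yᶜ / 2 := by
  simp only [even_y3, hQ]
  norm_num

theorem even_y3_0 (X Y : Finset (P h)) (Q : Finset (Fin 3)) (x : Fin 3) (hQ : Q.card = 0) :
    even_y3 D X Y Q x = HI Xᶜ Yᶜ := by
  simp only [even_y3, hQ]
  norm_num

theorem even_Q (Q : Finset (Fin 3)) :
    (Q.card = 3 ∧ Qᶜ.card = 0) ∨ (Q.card = 2 ∧ Qᶜ.card = 1) ∨ (Q.card = 1 ∧ Qᶜ.card = 2) ∨
      (Q.card = 0 ∧ Qᶜ.card = 3) := by
  have := even_cardQ Q
  omega

theorem even_sym1 (X Y : Finset (P h)) (Q : Finset (Fin 3)) (x : P h) (hx : x ∉ X) :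
    even_y1 D S (Xᶜ.erase x) Yᶜ Qᶜ x = even_y1 D S X Y Q x := by
  rcases even_Q Q with ⟨a, b⟩ | ⟨a, b⟩ | ⟨a, b⟩ | ⟨a, b⟩
  · rw [even_y1_0 D S _ _ _ _ b, even_y1_3 D S _ _ _ _ a, even_er hx, compl_compl]
  · rw [even_y1_1 D S _ _ _ _ b, even_y1_2 D S _ _ _ _ a, even_er hx, compl_compl]
  · rw [even_y1_2 D S _ _ _ _ b, even_y1_1 D S _ _ _ _ a]
  · rw [even_y1_3 D S _ _ _ _ b, even_y1_0 D S _ _ _ _ a]

theorem even_sym2 (X Y : Finset (P h)) (Q : Finset (Fin 3)) (x : P h) (hx : x ∉ Y) :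
    even_y2 D S Xᶜ (Yᶜ.erase x) Qᶜ x = even_y2 D S X Y Q x := by
  rcases even_Q Q with ⟨a, b⟩ | ⟨a, b⟩ | ⟨a, b⟩ | ⟨a, b⟩
  · rw [even_y2_0 D S _ _ _ _ b, even_y2_3 D S _ _ _ _ a, even_er hx, compl_compl]
  · rw [even_y2_1 D S _ _ _ _ b, even_y2_2 D S _ _ _ _ a, even_er hx, compl_compl]
  · rw [even_y2_2 D S _ _ _ _ b, even_y2_1 D S _ _ _ _ a]
  · rw [even_y2_3 D S _ _ _ _ b, even_y2_0 D S _ _ _ _ a]

theorem even_Qr (Q : Finset (Fin 3)) (r : Fin 3) (hr : r ∉ Q) :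
    (Q.card = 2 ∧ (Qᶜ.erase r).card = 0) ∨ (Q.card = 1 ∧ (Qᶜ.erase r).card = 1) ∨
      (Q.card = 0 ∧ (Qᶜ.erase r).card = 2) := by
  have h1 := even_cardQ Q
  have h2 := even_card_er hr
  omega

theorem even_sym3 (X Y : Finset (P h)) (Q : Finset (Fin 3)) (r : Fin 3)
    (hc : X.card + Y.card + Q.card + 1 = 2 * h + 2) (hr : r ∉ Q) :
    even_y3 D Xᶜ Yᶜ (Qᶜ.erase r) r = even_y3 D X Y Q r := by
  rcases even_Qr Q r hr with ⟨a, b⟩ | ⟨a, b⟩ | ⟨a, b⟩
  · rw [even_y3_0 D _ _ _ _ b, even_y3_2 D _ _ _ _ a, compl_compl, compl_compl]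
  · rw [even_y3_1 D _ _ _ _ b, even_y3_1 D _ _ _ _ a, compl_compl, compl_compl,
      VV_compl D X Y (by omega)]
  · rw [even_y3_2 D _ _ _ _ b, even_y3_0 D _ _ _ _ a]

theorem even_sum (hh : 4 ≤ h) (X Y : Finset (P h)) (Q : Finset (Fin 3))
    (hc : X.card + Y.card + Q.card + 1 = 2 * h + 2) :
    ∑ x ∈ Xᶜ, even_y1 D S X Y Q x + ∑ x ∈ Yᶜ, even_y2 D S X Y Q x +
      ∑ x ∈ Qᶜ, even_y3 D X Y Q x = 0 := by
  have cX := even_cardP X
  have cY := even_cardP Y
  have h3 : 3 ≤ h := by omega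
  rcases even_Q Q with ⟨a, b⟩ | ⟨a, b⟩ | ⟨a, b⟩ | ⟨a, b⟩
  · rw [Finset.sum_congr rfl (fun x _ => even_y1_3 D S X Y Q x a),
      Finset.sum_congr rfl (fun x _ => even_y2_3 D S X Y Q x a),
      Finset.card_eq_zero.mp b, Finset.sum_empty, add_zero]
    exact HA h3 S X Y (by omega)
  · rw [Finset.sum_congr rfl (fun x _ => even_y1_2 D S X Y Q x a),
      Finset.sum_congr rfl (fun x _ => even_y2_2 D S X Y Q x a),
      Finset.sum_congr rfl (fun x _ => even_y3_2 D X Y Q x a), Finset.sum_const, b, one_smul]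
    exact EA h3 D.rho X Y (by omega) (WA h3 D X Y (by omega))
  · rw [Finset.sum_congr rfl (fun x _ => even_y1_1 D S X Y Q x a),
      Finset.sum_congr rfl (fun x _ => even_y2_1 D S X Y Q x a),
      Finset.sum_congr rfl (fun x _ => even_y3_1 D X Y Q x a), Finset.sum_const, b, nsmul_eq_mul]
    have e1 : Xᶜ.card + Yᶜ.card = 2 * h := by omega
    have := ET h3 D.rho Xᶜ Yᶜ e1 (WT h3 D Xᶜ Yᶜ e1)
    push_cast
    linarith
  · rw [Finset.sum_congr rfl (fun x _ => even_y1_0 D S X Y Q x a),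
      Finset.sum_congr rfl (fun x _ => even_y2_0 D S X Y Q x a),
      Finset.sum_congr rfl (fun x _ => even_y3_0 D X Y Q x a), Finset.sum_const, b, nsmul_eq_mul]
    have e1 : Xᶜ.card + Yᶜ.card + 1 = 2 * h := by omega
    have := HT h3 S Xᶜ Yᶜ e1
    push_cast
    linarith

theorem even_le1 (hh : 4 ≤ h) : 1 - 1 / (2 * (h : ℚ) + 1) ≤ 1 := by
  have : 0 ≤ 1 / (2 * (h : ℚ) + 1) := by positivity
  linarith

theorem even_pm_abs {a : ℚ} (ha : a = 1 ∨ a = -1) : |a| ≤ 1 := by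
  rcases ha with h | h <;> simp [h]

theorem even_pm_mul {a b : ℚ} (ha : a = 1 ∨ a = -1) (hb : b = 1 ∨ b = -1) :
    a * b = 1 ∨ a * b = -1 := by
  rcases ha with h | h <;> rcases hb with h' | h' <;> simp [h, h']

theorem even_ef1 (hh : 4 ≤ h) (A1 A2 : Finset (P h)) (x : P h) (hx : x ∉ A1)
    (hA : A1.card + A2.card + 1 = 2 * h) : |EF1 D.rho A1 A2 x| ≤ 1 := by
  have h3 : 3 ≤ h := by omega
  apply EF1_b hh D.rho A1 A2 x hx
  · intro h1
    exact WF1_b0 h3 D A1 A2 x hA h1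
  · intro h1
    by_cases h2 : A1.card + 1 = h
    · rw [WF1_tie h3 D A1 A2 x h2, abs_neg]
      exact even_pm_abs (even_pm_mul (D.pm _) (chi_pm _))
    · exact le_trans (WF1_b1 h3 D A1 A2 x hx hA h1 h2) (even_le1 hh)

theorem even_ef2 (hh : 4 ≤ h) (A1 A2 : Finset (P h)) (x : P h) (hx : x ∉ A2)
    (hA : A1.card + A2.card + 1 = 2 * h) : |EF2 D.rho A1 A2 x| ≤ 1 := by
  have h3 : 3 ≤ h := by omega
  apply EF2_b hh D.rho A1 A2 x hx
  · intro h1
    exact WF2_b0 h3 D A1 A2 x hA h1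
  · intro h1
    by_cases h2 : A1.card = h
    · rw [WF2_tie h3 D A1 A2 x h2]
      exact even_pm_abs (even_pm_mul (D.pm _) (chi_pm _))
    · exact le_trans (WF2_b1 h3 D A1 A2 x hx hA h2 h1) (even_le1 hh)

theorem even_b1 (hh : 4 ≤ h) (X Y : Finset (P h)) (Q : Finset (Fin 3)) (x : P h)
    (hc : X.card + Y.card + Q.card + 1 = 2 * h + 2) (hx : x ∉ X) :
    |even_y1 D S X Y Q x| ≤ 1 := by
  have cX := even_cardP X
  have cY := even_cardP Y
  have ce := even_card_er hx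
  rcases even_Q Q with ⟨a, b⟩ | ⟨a, b⟩ | ⟨a, b⟩ | ⟨a, b⟩
  · rw [even_y1_3 D S _ _ _ _ a]
    exact H1_b hh S X Y x hx (by omega)
  · rw [even_y1_2 D S _ _ _ _ a]
    exact even_ef1 D hh X Y x hx (by omega)
  · rw [even_y1_1 D S _ _ _ _ a]
    exact even_ef1 D hh _ _ x (by simp) (by omega)
  · rw [even_y1_0 D S _ _ _ _ a]
    exact H1_b hh S _ _ x (by simp) (by omega)

theorem even_b2 (hh : 4 ≤ h) (X Y : Finset (P h)) (Q : Finset (Fin 3)) (x : P h)
    (hc : X.card + Y.card + Q.card + 1 = 2 * h + 2) (hx : x ∉ Y) :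
    |even_y2 D S X Y Q x| ≤ 1 := by
  have cX := even_cardP X
  have cY := even_cardP Y
  have ce := even_card_er hx
  rcases even_Q Q with ⟨a, b⟩ | ⟨a, b⟩ | ⟨a, b⟩ | ⟨a, b⟩
  · rw [even_y2_3 D S _ _ _ _ a]
    exact H2_b hh S X Y x hx (by omega)
  · rw [even_y2_2 D S _ _ _ _ a]
    exact even_ef2 D hh X Y x hx (by omega)
  · rw [even_y2_1 D S _ _ _ _ a]
    exact even_ef2 D hh _ _ x (by simp) (by omega)
  · rw [even_y2_0 D S _ _ _ _ a]
    exact H2_b hh S _ _ x (by simp) (by omega)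

theorem even_b3 (hh : 4 ≤ h) (X Y : Finset (P h)) (Q : Finset (Fin 3)) (r : Fin 3)
    (hc : X.card + Y.card + Q.card + 1 = 2 * h + 2) (hr : r ∉ Q) :
    |even_y3 D X Y Q r| ≤ 1 := by
  have cX := even_cardP X
  have cY := even_cardP Y
  rcases even_Qr Q r hr with ⟨a, b⟩ | ⟨a, b⟩ | ⟨a, b⟩
  · rw [even_y3_2 D _ _ _ _ a]
    exact HI_b hh _ _
  · rw [even_y3_1 D _ _ _ _ a, abs_div]
    have h1 := VV_b2 (by omega) D Xᶜ Yᶜ (by omega)
    have h2 := even_le1 hh
    have h3 : |(2 : ℚ)| = 2 := by norm_num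
    rw [h3]
    linarith [abs_nonneg (VV D.rho Xᶜ Yᶜ)]
  · rw [even_y3_0 D _ _ _ _ a]
    exact HI_b hh _ _

theorem even_s_3 (e : ℚ) (X Y : Finset (P h)) (Q : Finset (Fin 3)) (hQ : Q.card = 3) :
    even_s D S e X Y Q = (if h ≤ X.card then true else if X.card + 1 = h then
      decide (tau3 S.sig X Y = e) else false) := by
  simp [even_s, hQ]

theorem even_s_2 (e : ℚ) (X Y : Finset (P h)) (Q : Finset (Fin 3)) (hQ : Q.card = 2) :
    even_s D S e X Y Q = decide (h ≤ X.card) := by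
  simp [even_s, hQ]

theorem even_s_1 (e : ℚ) (X Y : Finset (P h)) (Q : Finset (Fin 3)) (hQ : Q.card = 1) :
    even_s D S e X Y Q = (if h < Xᶜ.card then false else if Xᶜ.card < h then true
      else decide (D.rho Xᶜ * chi Yᶜ = -e)) := by
  simp only [even_s, hQ]
  norm_num

theorem even_s_0 (e : ℚ) (X Y : Finset (P h)) (Q : Finset (Fin 3)) (hQ : Q.card = 0) :
    even_s D S e X Y Q = !decide (h ≤ Xᶜ.card) := by
  simp only [even_s, hQ]
  norm_num

theorem even_c1_hi (e : ℚ) (he : e = 1 ∨ e = -1) (hh : 4 ≤ h) (X Y : Finset (P h))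
    (Q : Finset (Fin 3)) (x : P h)
    (hc : X.card + Y.card + Q.card + 1 = 2 * h + 2) (hx : x ∉ X) (hQ : 2 ≤ Q.card)
    (hs : even_s D S e X Y Q = even_s D S e (Xᶜ.erase x) Yᶜ Qᶜ) :
    even_y1 D S X Y Q x = -e := by
  have hins := even_ins hx
  have hcard : (insert x X).card = X.card + 1 := Finset.card_insert_of_notMem hx
  rcases even_Q Q with ⟨a, b⟩ | ⟨a, b⟩ | ⟨a, b⟩ | ⟨a, b⟩
  · rw [even_s_3 D S _ _ _ _ a, even_s_0 D S _ _ _ _ b, hins, hcard] at hs
    rw [even_y1_3 D S _ _ _ _ a]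
    by_cases h1 : h ≤ X.card
    · have h2 : h ≤ X.card + 1 := by omega
      simp [h1, h2] at hs
    · by_cases h2 : X.card + 1 = h
      · have h3 : h ≤ X.card + 1 := by omega
        have h4 : ¬ tau3 S.sig X Y = e := by
          simpa [h1, h2, h3] using hs
        have h5 : H1 S X Y x = tau3 S.sig X Y := by
          simp [H1, h2]
        rw [h5]
        rcases tau3_pm S X Y h2 with h6 | h6 <;> rcases he with h7 | h7 <;>
          simp_all
      · have h3 : ¬ h ≤ X.card + 1 := by omega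
        simp [h1, h2, h3] at hs
  · rw [even_s_2 D S _ _ _ _ a, even_s_1 D S _ _ _ _ b, hins, hcard, compl_compl] at hs
    rw [even_y1_2 D S _ _ _ _ a]
    by_cases h1 : h ≤ X.card
    · have h2 : h < X.card + 1 := by omega
      simp [h1, h2] at hs
    · by_cases h2 : X.card + 1 = h
      · have h3 : ¬ h < X.card + 1 := by omega
        have h3' : ¬ X.card + 1 < h := by omega
        have h4 : ¬ D.rho (insert x X) * chi Y = -e := by
          simpa [h1, h3, h3'] using hs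
        have h5 : EF1 D.rho X Y x = -(D.rho (insert x X) * chi Y) := by
          have h6 : ¬ X.card = h := by omega
          rw [EF1, WF1_tie (by omega) D X Y x h2]
          simp [h6]
        rw [h5]
        rcases even_pm_mul (D.pm (insert x X)) (chi_pm Y) with h6 | h6
        · rcases he with h7 | h7
          · rw [h6, h7]
          · exact absurd (by rw [h6, h7, neg_neg]) h4
        · rcases he with h7 | h7
          · exact absurd (by rw [h6, h7]) h4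
          · rw [h6, h7]
      · have h3 : ¬ h < X.card + 1 := by omega
        have h4 : X.card + 1 < h := by omega
        simp [h1, h3, h4] at hs
  · omega
  · omega

theorem even_c2_hi (e : ℚ) (hh : 4 ≤ h) (X Y : Finset (P h))
    (Q : Finset (Fin 3)) (x : P h)
    (hc : X.card + Y.card + Q.card + 1 = 2 * h + 2) (hx : x ∉ Y) (hQ : 2 ≤ Q.card)
    (hs : even_s D S e X Y Q = even_s D S e Xᶜ (Yᶜ.erase x) Qᶜ) :
    even_y2 D S X Y Q x = -e := by
  have hins := even_ins hx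
  rcases even_Q Q with ⟨a, b⟩ | ⟨a, b⟩ | ⟨a, b⟩ | ⟨a, b⟩
  · rw [even_s_3 D S _ _ _ _ a, even_s_0 D S _ _ _ _ b, compl_compl] at hs
    rw [even_y2_3 D S _ _ _ _ a]
    by_cases h1 : h ≤ X.card
    · simp [h1] at hs
    · by_cases h2 : X.card + 1 = h
      · have h4 : tau3 S.sig X Y = e := by
          simpa [h1, h2] using hs
        have h5 : H2 S X Y x = -tau3 S.sig X Y := by
          simp [H2, h2]
        rw [h5, h4]
      · simp [h1, h2] at hs
  · rw [even_s_2 D S _ _ _ _ a, even_s_1 D S _ _ _ _ b, hins, compl_compl] at hs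
    rw [even_y2_2 D S _ _ _ _ a]
    by_cases h1 : h < X.card
    · have h2 : h ≤ X.card := by omega
      simp [h1, h2] at hs
    · by_cases h2 : X.card < h
      · have h3 : ¬ h ≤ X.card := by omega
        simp [h1, h2, h3] at hs
      · have h3 : X.card = h := by omega
        have h3' : h ≤ X.card := by omega
        have h4 : D.rho X * chi (insert x Y) = -e := by
          simpa [h1, h2, h3'] using hs
        have h5 : EF2 D.rho X Y x = D.rho X * chi (insert x Y) := by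
          have h6 : ¬ X.card + 1 = h := by omega
          rw [EF2, WF2_tie (by omega) D X Y x h3]
          simp [h6]
        rw [h5, h4]
  · omega
  · omega

theorem even_c1 (e : ℚ) (he : e = 1 ∨ e = -1) (hh : 4 ≤ h) (X Y : Finset (P h))
    (Q : Finset (Fin 3)) (x : P h)
    (hc : X.card + Y.card + Q.card + 1 = 2 * h + 2) (hx : x ∉ X)
    (hs : even_s D S e X Y Q = even_s D S e (Xᶜ.erase x) Yᶜ Qᶜ) :
    even_y1 D S X Y Q x = -e := by
  by_cases hQ : 2 ≤ Q.card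
  · exact even_c1_hi D S e he hh X Y Q x hc hx hQ hs
  · have cX := even_cardP X
    have cY := even_cardP Y
    have cQ := even_cardQ Q
    have ce := even_card_er hx
    rw [← even_sym1 D S X Y Q x hx]
    apply even_c1_hi D S e he hh (Xᶜ.erase x) Yᶜ Qᶜ x (by omega) (by simp) (by omega)
    rw [even_er hx, compl_compl, compl_compl]
    exact hs.symm

theorem even_c2 (e : ℚ) (hh : 4 ≤ h) (X Y : Finset (P h))
    (Q : Finset (Fin 3)) (x : P h)
    (hc : X.card + Y.card + Q.card + 1 = 2 * h + 2) (hx : x ∉ Y)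
    (hs : even_s D S e X Y Q = even_s D S e Xᶜ (Yᶜ.erase x) Qᶜ) :
    even_y2 D S X Y Q x = -e := by
  by_cases hQ : 2 ≤ Q.card
  · exact even_c2_hi D S e hh X Y Q x hc hx hQ hs
  · have cX := even_cardP X
    have cY := even_cardP Y
    have cQ := even_cardQ Q
    have ce := even_card_er hx
    rw [← even_sym2 D S X Y Q x hx]
    apply even_c2_hi D S e hh Xᶜ (Yᶜ.erase x) Qᶜ x (by omega) (by simp) (by omega)
    rw [even_er hx, compl_compl, compl_compl]
    exact hs.symm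

theorem even_c3 (e : ℚ) (he : e = 1 ∨ e = -1) (X Y : Finset (P h))
    (Q : Finset (Fin 3)) (r : Fin 3)
    (hc : X.card + Y.card + Q.card + 1 = 2 * h + 2) (hr : r ∉ Q)
    (hs : even_s D S e X Y Q = even_s D S e Xᶜ Yᶜ (Qᶜ.erase r)) : False := by
  have cX := even_cardP X
  have cY := even_cardP Y
  rcases even_Qr Q r hr with ⟨a, b⟩ | ⟨a, b⟩ | ⟨a, b⟩
  · rw [even_s_2 D S _ _ _ _ a, even_s_0 D S _ _ _ _ b, compl_compl] at hs
    simp at hs
  · rw [even_s_1 D S _ _ _ _ a, even_s_1 D S _ _ _ _ b, compl_compl, compl_compl] at hs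
    by_cases h1 : h < Xᶜ.card
    · have h2 : ¬ h < X.card := by omega
      have h3 : X.card < h := by omega
      simp [h1, h2, h3] at hs
    · by_cases h2 : Xᶜ.card < h
      · have h3 : h < X.card := by omega
        simp [h1, h2, h3] at hs
      · have h3 : ¬ h < X.card := by omega
        have h4 : ¬ X.card < h := by omega
        have h5 : D.rho Xᶜ * chi Yᶜ = -(D.rho X * chi Y) := by
          rw [D.compl, chi_compl]
          have : ((-1 : ℚ)) ^ (h + 1) * (-1) ^ h = -1 := by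
            rw [← pow_add]
            exact Odd.neg_one_pow ⟨h, by ring⟩
          linear_combination (D.rho X * chi Y) * this
        simp only [h1, h2, h3, h4, if_false, h5] at hs
        rcases even_pm_mul (D.pm X) (chi_pm Y) with h6 | h6 <;> rcases he with h7 | h7 <;>
          rw [h6, h7] at hs <;> norm_num at hs
  · rw [even_s_0 D S _ _ _ _ a, even_s_2 D S _ _ _ _ b] at hs
    simp at hs

end

theorem even_case (h : ℕ) (hh : 4 ≤ h) (D : RhoData h) (S : SigData h) :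
    (SimpleGraph.fromRel
      (fun s t : {s : Finset (Fin (2 * (2 * h + 2) - 1)) // s.card = 2 * h + 2 - 1} =>
        Disjoint s.1 t.1)).lineGraph.Colorable (2 * h + 2) := by
  apply split (P1 := P h) (P2 := P h) (R := Fin 3) (2 * h + 2) (by omega) ?_ (h + 1) (h + 1)
    (by omega) (even_y1 D S) (even_y2 D S) (even_y3 D) (even_s D S 1) (even_s D S (-1))
  · intro X Y Q x _ hx
    exact even_sym1 D S X Y Q x hx
  · intro X Y Q x _ hx
    exact even_sym2 D S X Y Q x hx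
  · intro X Y Q x hc hx
    exact even_sym3 D X Y Q x hc hx
  · intro X Y Q x hc hx
    exact even_b1 D S hh X Y Q x hc hx
  · intro X Y Q x hc hx
    exact even_b2 D S hh X Y Q x hc hx
  · intro X Y Q x hc hx
    exact even_b3 D hh X Y Q x hc hx
  · intro X Y Q x hc hx
    refine ⟨fun hs => even_c1 D S 1 (Or.inl rfl) hh X Y Q x hc hx hs, fun hs => ?_⟩
    have := even_c1 D S (-1) (Or.inr rfl) hh X Y Q x hc hx hs
    rw [this, neg_neg]
  · intro X Y Q x hc hx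
    refine ⟨fun hs => even_c2 D S 1 hh X Y Q x hc hx hs, fun hs => ?_⟩
    have := even_c2 D S (-1) hh X Y Q x hc hx hs
    rw [this, neg_neg]
  · intro X Y Q x hc hx
    exact ⟨fun hs => (even_c3 D S 1 (Or.inl rfl) X Y Q x hc hx hs).elim,
      fun hs => (even_c3 D S (-1) (Or.inr rfl) X Y Q x hc hx hs).elim⟩
  · intro X Y Q hc
    rw [even_sum D S hh X Y Q hc]
    simp
  · simp only [P, Fintype.card_prod, Fintype.card_fin, Fintype.card_bool]
    omega

end OddGr75
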