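import Pool.Agent.OddGr75.Mask

/-!
# Module OG-K5 (MP_d22128_co, helper75): explicit 5-edge-colouring of O_5 (table, kernel-checked).
-/

set_option autoImplicit false

namespace OddGr75

/-- the colour table: row of 27 bits for every mask, 3 bits for every missing point -/
def tab5 : ℕ :=
  0x45c0000000000000000000000000000000000000000000000000000000000000000000000000000000000000000000000000000000087020000000000000000000000000000000000000000000000000040ca0000000000000000000000110230000000008810c00c44400000000000000000000000000000000000000000000000000000000000000000000000000000000000000000000000000000000000000802c40000000000000000000000000000000000000000000000000430a000000000000000000000000460a0000000011180802140c00000000000000000000000000000000000000000000000000000000a00580000000000000000000000c881000000000161010084260000000000000000000000000000008300c0000000042020c00983000000000000000004600c011304000000001066000000000000000000000000000000000000000000000000000000000000000000000000000000000000000000000000000000000000000000000000000060042100000000000000000000000000000000000000000000000060111000000000000000000000080101a0000000100c81020216000000000000000000000000000000000000000000000000000000002181100000000000000000000004180210000000182021010840c000000000000000000000000000081a0080000000101030431102000000000000000188100410230800000000015180000000000000000000000000000000000000000000000000000000000000000000005000580000000000000000000001006110000000080140c300188000000000000000000000000000088000b0000000030440814200c00000000000000220c00432021000000001180500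000000000000000000000000000000000000000000d002100000000b0021042c04000000000000000210180816840000000000840580000000000000000000000000000044400c085808000000001c4080000000000000000000000a32000000000000000000000000000000000000000000000000000000000000000000000000000000000000000000000000000000000000000000000000000000000000000000000000000000040000530000000000000000000000000000000000000000000000040010c20000000000000000000030022040000000000e204000b5000000000000000000000000000000000000000000000000000000000180a100000000000000000000002021a0000001002100d80808400000000000000000000000000010200130000000c040404801888000000000000008070802000a0c00000008020c80000000000000000000000000000000000000000000000000000000000000000000001000d10000000000000000000020c080100000008401900080264000000000000000000000000000100201c0000000831000582005000000000000000c10a00086200800000002184200000000000000000000000000000000000000000020c80040000001010030885000c00000000000000c28080206010800000002130200000000000000000000000000000c050005005810000000042320000000000000000000000002328000000000000000000000000000000000000000000000000000000000000000000000000000000000000000000000000040010b00000000000000000000200022300000008001911800444000000000000000000000000000140300400000010808301c0080800000000000000600d00210020c000000040070800000000000000000000000000000000000000000180001a00000005880009c0800400000000000000c84200100431000000003000d00000000000000000000000000000182801110e000000000040181800000000000000000000008464000000000000000000000000000000000000000000000000000000000000000000000408000b0000001080020d300030000000000000005802009a8000400000003100180000000000000000000000000000cc0000a32100000000000982200000000000000000000000508c00000000000000000000000000000000000000000000000000000000116001023000c00000007020080000000000000000000008c80800000000000000000000000000000000000000000000000008d1000000000000000000000000000000000000000000000000000000000000000000000000000000000000000000000000000000000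

set_option maxRecDepth 100000 in
theorem k5 :
    (SimpleGraph.fromRel
      (fun s t : {s : Finset (Fin (2 * 5 - 1)) // s.card = 5 - 1} =>
        Disjoint s.1 t.1)).lineGraph.Colorable 5 :=
  colorable_of_mchk 5 tab5 27 (by norm_num) (by decide +kernel)

end OddGr75
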