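import Pool.Agent.OddGr75.Trans
import Pool.Agent.OddGr75.WSum
import Pool.Agent.OddGr75.WBound

/-!
# Module OG-ODD (MP_d22128_co, helper75): assembly for odd k = 2h + 1, h ≥ 3.

Apply `split` with `P1 = P2 = P h`, `R = Unit`, `k = 2h+1` (`2h + 2h + 1 = 2k-1`), `d1 = h+1`,
`d2 = h` (so `d1 - d2 = 1`). A vertex `(X,Y,Q)`, `|X|+|Y|+|Q| = 2h`: type A if `Q = univ`
(`|X|+|Y| = 2h-1`, put `A = (X,Y)`), type T if `Q = ∅` (put `T = (Xᶜ,Yᶜ)`, `|T1|+|T2| = 2h`). Let
* `F1(A1,A2,x) = WF1 + (if |A1| = h then 1/h else if |A1|+1 = h then 0 else 1/(2h+1))`,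
* `F2(A1,A2,x) = WF2 + (if |A1| = h then 0 else if |A1|+1 = h then 1/h else 1/(2h+1))`,
* `G(T1,T2) = VV + (if |T1| = h then 1 else if |T1| = h+1 ∨ |T1|+1 = h then
   -(h²+h+1)/(h(2h+1)) else 1/(2h+1))`.
`y1 X Y Q x = if Q = ∅ then F1(Xᶜ.erase x, Yᶜ, x) else F1(X,Y,x)`,
`y2 X Y Q x = if Q = ∅ then F2(Xᶜ, Yᶜ.erase x, x) else F2(X,Y,x)`, `y3 X Y Q r = G(Xᶜ,Yᶜ)`.

Symmetry: `(Xᶜ.erase x)ᶜ.erase x = X` for `x ∉ X`; for `y3` use `VV_compl` and `|T1ᶜ| = 2h - |T1|`.
Sums (all `= 1`): type A: `WA` plus `h·(1/h)`, `h·(1/h)` (`|A1| = h-1`: `|A2| = h`, `|A2ᶜ| = h`),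
or `(2h+1)/(2h+1)`. Type T: `WT` plus: `|T1| = h`: `h·0 + h·0 + 1`; `|T1| = h+1`: `F1` terms have
`|A1| = h`: `(h+1)/h`, `F2` terms have `|A1| = h+1`: `(h-1)/(2h+1)`, total with `G`:
`(h+1)/h + (h-1)/(2h+1) - (h²+h+1)/(h(2h+1)) = 1`; `|T1| = h-1`: `F1` terms (`|A1| = h-2`):
`(h-1)/(2h+1)`, `F2` terms (`|A1| = h-1`): `(h+1)/h`; other: `(2h+1)/(2h+1)` (the `F1` terms have
`|A1| = |T1|-1 ∉ {h, h-1}`, the `F2` terms `|A1| = |T1| ∉ {h,h-1}`).
Bounds: `WF1_b0, WF1_tie, WF1_b1, WF2_tie, WF2_b0, WF2_b1, VV_b0, VV_b1, VV_b2`; for `|T1| = h±1`: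
`(h-1)/(2h) + (h²+h+1)/(h(2h+1)) = (4h²+h+1)/(4h²+2h) ≤ 1`.
Cuts: `τ(X',Y') = rho X' * chi Y'`. `s1 X Y Q = if Q = ∅ then (T type: if |T1| > h then false else if
|T1| < h then true else decide (τ(T1,T2) = -1)) else decide (|X| ≥ h)`; `s2` the same with
`decide (τ = 1)`. Every edge: A to T with `|A1| ≥ h`, `T` not tie: `true / false`; `|A1| ≤ h-1`, `T` not
tie: `false / true`; ties: `x` into `A1`, `|A1| = h-1`: `y = -τ(T)` (`WF1_tie`), `s(A) = false`;
`x` into `A2`, `|A1| = h`: `y = τ(T)` (`WF2_tie`), `s(A) = true`; so `s1` equal iff `y = -1`, `s2` equal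
iff `y = 1`. T to Tᶜ: `|T1| > h` iff `|T1ᶜ| < h`; for ties `τ(Tᶜ) = (-1)^(h+1) (-1)^h τ(T) = -τ(T)`
(`D.compl`, `chi_compl`), so `s1`, `s2` differ on all these edges.
-/

set_option autoImplicit false

namespace OddGr75

variable {h : ℕ}

/-- value on the edge adding `x` to the first part of `A` -/
def Odd_F1 (rho : Finset (P h) → ℚ) (A1 A2 : Finset (P h)) (x : P h) : ℚ :=
  WF1 rho A1 A2 x + (if A1.card = h then 1 / (h : ℚ) else if A1.card + 1 = h then 0
    else 1 / (2 * (h : ℚ) + 1))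

/-- value on the edge adding `x` to the second part of `A` -/
def Odd_F2 (rho : Finset (P h) → ℚ) (A1 A2 : Finset (P h)) (x : P h) : ℚ :=
  WF2 rho A1 A2 x + (if A1.card = h then 0 else if A1.card + 1 = h then 1 / (h : ℚ)
    else 1 / (2 * (h : ℚ) + 1))

/-- value on the edge from `T` to its complement -/
def Odd_G (rho : Finset (P h) → ℚ) (T1 T2 : Finset (P h)) : ℚ :=
  VV rho T1 T2 + (if T1.card = h then 1 else if T1.card = h + 1 ∨ T1.card + 1 = h then
    -(((h : ℚ) ^ 2 + h + 1) / (h * (2 * h + 1))) else 1 / (2 * (h : ℚ) + 1))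

lemma Odd_pm (D : RhoData h) (X Y : Finset (P h)) :
    D.rho X * chi Y = 1 ∨ D.rho X * chi Y = -1 := by
  rcases D.pm X with e | e <;> rcases chi_pm Y with e' | e' <;> rw [e, e'] <;> norm_num

lemma Odd_F1_b (hh : 3 ≤ h) (D : RhoData h) (A1 A2 : Finset (P h)) (x : P h) (hx : x ∉ A1)
    (hA : A1.card + A2.card + 1 = 2 * h) : |Odd_F1 D.rho A1 A2 x| ≤ 1 := by
  have hq : (3 : ℚ) ≤ h := by exact_mod_cast hh
  unfold Odd_F1
  split_ifs with h1 h2
  · have h3 := WF1_b0 hh D A1 A2 x hA h1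
    have h4 : (0 : ℚ) < 1 / h := by positivity
    rw [abs_le] at h3 ⊢
    constructor <;> linarith [h3.1, h3.2]
  · rw [WF1_tie hh D A1 A2 x h2, add_zero]
    rcases Odd_pm D (insert x A1) A2 with e | e <;> rw [e] <;> norm_num
  · have h3 := WF1_b1 hh D A1 A2 x hx hA h1 h2
    have h4 : (0 : ℚ) < 1 / (2 * h + 1) := by positivity
    rw [abs_le] at h3 ⊢
    constructor <;> linarith [h3.1, h3.2]

lemma Odd_F2_b (hh : 3 ≤ h) (D : RhoData h) (A1 A2 : Finset (P h)) (x : P h) (hx : x ∉ A2)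
    (hA : A1.card + A2.card + 1 = 2 * h) : |Odd_F2 D.rho A1 A2 x| ≤ 1 := by
  have hq : (3 : ℚ) ≤ h := by exact_mod_cast hh
  unfold Odd_F2
  split_ifs with h1 h2
  · rw [WF2_tie hh D A1 A2 x h1, add_zero]
    rcases Odd_pm D A1 (insert x A2) with e | e <;> rw [e] <;> norm_num
  · have h3 := WF2_b0 hh D A1 A2 x hA h2
    have h4 : (0 : ℚ) < 1 / h := by positivity
    rw [abs_le] at h3 ⊢
    constructor <;> linarith [h3.1, h3.2]
  · have h3 := WF2_b1 hh D A1 A2 x hx hA h1 h2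
    have h4 : (0 : ℚ) < 1 / (2 * h + 1) := by positivity
    rw [abs_le] at h3 ⊢
    constructor <;> linarith [h3.1, h3.2]

lemma Odd_G_b (hh : 3 ≤ h) (D : RhoData h) (T1 T2 : Finset (P h))
    (hT : T1.card + T2.card = 2 * h) : |Odd_G D.rho T1 T2| ≤ 1 := by
  have hq : (3 : ℚ) ≤ h := by exact_mod_cast hh
  unfold Odd_G
  split_ifs with h1 h2
  · rw [VV_b0 hh D T1 T2 h1, zero_add, abs_one]
  · have h3 := VV_b1 hh D T1 T2 hT h2
    have h4 : ((h : ℚ) - 1) / (2 * h) + ((h : ℚ) ^ 2 + h + 1) / (h * (2 * h + 1)) ≤ 1 := by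
      rw [div_add_div _ _ (by positivity) (by positivity), div_le_one (by positivity)]
      nlinarith [mul_nonneg (by linarith : (0 : ℚ) ≤ (h : ℚ) - 3) (by linarith : (0 : ℚ) ≤ (h : ℚ)),
        mul_nonneg (mul_nonneg (by linarith : (0 : ℚ) ≤ (h : ℚ) - 3)
          (by linarith : (0 : ℚ) ≤ (h : ℚ))) (by linarith : (0 : ℚ) ≤ (h : ℚ))]
    have h5 : (0 : ℚ) < ((h : ℚ) ^ 2 + h + 1) / (h * (2 * h + 1)) := by positivity
    rw [abs_le] at h3 ⊢
    constructor <;> linarith [h3.1, h3.2]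
  · have h3 := VV_b2 hh D T1 T2 hT
    have h4 : (0 : ℚ) < 1 / (2 * h + 1) := by positivity
    rw [abs_le] at h3 ⊢
    constructor <;> linarith [h3.1, h3.2]

lemma Odd_G_compl (D : RhoData h) (T1 T2 : Finset (P h)) (hT : T1.card + T2.card = 2 * h) :
    Odd_G D.rho T1ᶜ T2ᶜ = Odd_G D.rho T1 T2 := by
  have hc : T1ᶜ.card = 2 * h - T1.card := by
    rw [Finset.card_compl]; congr 1; simp [P, mul_comm]
  unfold Odd_G
  rw [VV_compl D T1 T2 hT, hc]
  congr 1
  have hle : T1.card ≤ 2 * h := by omega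
  by_cases h1 : T1.card = h
  · rw [if_pos h1, if_pos (by omega)]
  · rw [if_neg h1, if_neg (by omega)]
    by_cases h2 : T1.card = h + 1 ∨ T1.card + 1 = h
    · rw [if_pos h2, if_pos (by omega)]
    · rw [if_neg h2, if_neg (by omega)]

lemma Odd_card_compl (X : Finset (P h)) : Xᶜ.card + X.card = 2 * h := by
  have h1 := Finset.card_compl_add_card X
  rw [h1]; simp [P, mul_comm]

lemma Odd_sumA (hh : 3 ≤ h) (D : RhoData h) (A1 A2 : Finset (P h))
    (hA : A1.card + A2.card + 1 = 2 * h) :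
    ∑ x ∈ A1ᶜ, Odd_F1 D.rho A1 A2 x + ∑ x ∈ A2ᶜ, Odd_F2 D.rho A1 A2 x = 1 := by
  have hq : (3 : ℚ) ≤ h := by exact_mod_cast hh
  have h1 := Odd_card_compl A1
  have h2 := Odd_card_compl A2
  have h3 := WA hh D A1 A2 hA
  unfold Odd_F1 Odd_F2
  rw [Finset.sum_add_distrib, Finset.sum_add_distrib, Finset.sum_const, Finset.sum_const,
    nsmul_eq_mul, nsmul_eq_mul]
  have e1 : (A1ᶜ.card : ℚ) = 2 * h - A1.card := by
    have : ((A1ᶜ.card + A1.card : ℕ) : ℚ) = ((2 * h : ℕ) : ℚ) := by rw [h1]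
    push_cast at this; linarith
  have e2 : (A2ᶜ.card : ℚ) = A1.card + 1 := by
    have : ((A2ᶜ.card : ℕ) : ℚ) = ((A1.card + 1 : ℕ) : ℚ) := by congr 1; omega
    push_cast at this; linarith
  split_ifs with h4 h5
  · have e4 : (A1.card : ℚ) = h := by exact_mod_cast h4
    rw [e1, e2, e4]
    have : (2 * (h : ℚ) - h) * (1 / h) = 1 := by field_simp; ring
    linarith
  · have e4 : (A1.card : ℚ) + 1 = h := by exact_mod_cast h5
    rw [e2, e4]
    have : (h : ℚ) * (1 / h) = 1 := by field_simp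
    linarith
  · rw [e1, e2]
    have : (2 * (h : ℚ) - A1.card) * (1 / (2 * h + 1)) + (A1.card + 1) * (1 / (2 * h + 1)) = 1 := by
      field_simp; ring
    linarith

lemma Odd_sumT (hh : 3 ≤ h) (D : RhoData h) (T1 T2 : Finset (P h))
    (hT : T1.card + T2.card = 2 * h) :
    ∑ x ∈ T1, Odd_F1 D.rho (T1.erase x) T2 x + ∑ x ∈ T2, Odd_F2 D.rho T1 (T2.erase x) x +
      Odd_G D.rho T1 T2 = 1 := by
  have hq : (3 : ℚ) ≤ h := by exact_mod_cast hh
  have h3 := WT hh D T1 T2 hT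
  have e2 : (T2.card : ℚ) = 2 * h - T1.card := by
    have : ((T1.card + T2.card : ℕ) : ℚ) = ((2 * h : ℕ) : ℚ) := by rw [hT]
    push_cast at this; linarith
  have h4 : ∑ x ∈ T1, Odd_F1 D.rho (T1.erase x) T2 x = ∑ x ∈ T1, WF1 D.rho (T1.erase x) T2 x +
      T1.card * (if T1.card = h + 1 then 1 / (h : ℚ) else if T1.card = h then 0
        else 1 / (2 * (h : ℚ) + 1)) := by
    rw [← nsmul_eq_mul, ← Finset.sum_const, ← Finset.sum_add_distrib]
    refine Finset.sum_congr rfl fun x hx => ?_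
    have h5 := Finset.card_erase_add_one hx
    unfold Odd_F1
    congr 1
    by_cases h6 : T1.card = h + 1
    · rw [if_pos h6, if_pos (by omega)]
    · rw [if_neg h6, if_neg (by omega)]
      by_cases h7 : T1.card = h
      · rw [if_pos h7, if_pos (by omega)]
      · rw [if_neg h7, if_neg (by omega)]
  have h5 : ∑ x ∈ T2, Odd_F2 D.rho T1 (T2.erase x) x = ∑ x ∈ T2, WF2 D.rho T1 (T2.erase x) x +
      T2.card * (if T1.card = h then 0 else if T1.card + 1 = h then 1 / (h : ℚ)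
        else 1 / (2 * (h : ℚ) + 1)) := by
    rw [← nsmul_eq_mul, ← Finset.sum_const, ← Finset.sum_add_distrib]
    rfl
  rw [h4, h5]
  unfold Odd_G
  rw [e2]
  by_cases h6 : T1.card = h
  · rw [if_pos h6, if_pos h6, if_pos h6, if_neg (by omega)]
    linarith
  · rw [if_neg h6, if_neg h6, if_neg h6]
    by_cases h7 : T1.card = h + 1
    · have e7 : (T1.card : ℚ) = h + 1 := by exact_mod_cast h7
      rw [if_pos h7, if_pos (Or.inl h7), if_neg (by omega), e7]
      have : ((h : ℚ) + 1) * (1 / h) + (2 * h - (h + 1)) * (1 / (2 * h + 1)) +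
          -(((h : ℚ) ^ 2 + h + 1) / (h * (2 * h + 1))) = 1 := by
        field_simp; ring
      linarith
    · rw [if_neg h7]
      by_cases h8 : T1.card + 1 = h
      · have e8 : (T1.card : ℚ) = h - 1 := by
          have : ((T1.card + 1 : ℕ) : ℚ) = (h : ℚ) := by rw [h8]
          push_cast at this; linarith
        rw [if_pos h8, if_pos (Or.inr h8), e8]
        have : ((h : ℚ) - 1) * (1 / (2 * h + 1)) + (2 * h - (h - 1)) * (1 / h) +
            -(((h : ℚ) ^ 2 + h + 1) / (h * (2 * h + 1))) = 1 := by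
          field_simp; ring
        linarith
      · rw [if_neg h8, if_neg (by omega)]
        have : (T1.card : ℚ) * (1 / (2 * h + 1)) + (2 * h - T1.card) * (1 / (2 * h + 1)) +
            1 / (2 * h + 1) = 1 := by
          field_simp; ring
        linarith

/-- the flow on the first part -/
def Odd_y1 (rho : Finset (P h) → ℚ) (X Y : Finset (P h)) (Q : Finset Unit) (x : P h) : ℚ :=
  if Q = ∅ then Odd_F1 rho (Xᶜ.erase x) Yᶜ x else Odd_F1 rho X Y x

/-- the flow on the second part -/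
def Odd_y2 (rho : Finset (P h) → ℚ) (X Y : Finset (P h)) (Q : Finset Unit) (x : P h) : ℚ :=
  if Q = ∅ then Odd_F2 rho Xᶜ (Yᶜ.erase x) x else Odd_F2 rho X Y x

/-- the cuts -/
noncomputable def Odd_s (ε : ℚ) (rho : Finset (P h) → ℚ) (X Y : Finset (P h))
    (Q : Finset Unit) : Bool :=
  if Q = ∅ then
    (if h < Xᶜ.card then false else if Xᶜ.card < h then true else decide (rho Xᶜ * chi Yᶜ = ε))
  else decide (h ≤ X.card)

lemma Odd_Q (Q : Finset Unit) : (Q = ∅ ∧ Q.card = 0) ∨ (Q ≠ ∅ ∧ Q.card = 1 ∧ Q = Finset.univ) := by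
  rcases Finset.eq_empty_or_nonempty Q with e | e
  · left; exact ⟨e, by rw [e]; rfl⟩
  · right
    obtain ⟨a, ha⟩ := e
    have h1 : Q = Finset.univ := by
      ext b
      simp only [Finset.mem_univ, iff_true]
      exact ha
    exact ⟨Finset.ne_empty_of_mem ha, by rw [h1]; rfl, h1⟩

lemma Odd_erase_compl (X : Finset (P h)) (x : P h) : (Xᶜ.erase x)ᶜ = insert x X := by
  ext z; simp

/-- cuts on the edges adding a point to the first part of `A` -/
lemma Odd_c1 (D : RhoData h) (hh : 3 ≤ h) (X Y : Finset (P h)) (x : P h) (hx : x ∉ X) (ε : ℚ)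
    (hε : ε = 1 ∨ ε = -1)
    (hs : Odd_s ε D.rho X Y Finset.univ = Odd_s ε D.rho (Xᶜ.erase x) Yᶜ ∅) :
    Odd_F1 D.rho X Y x = ε := by
  unfold Odd_s at hs
  rw [if_neg (by simp), if_pos rfl, Odd_erase_compl, compl_compl,
    Finset.card_insert_of_notMem hx] at hs
  by_cases h1 : h ≤ X.card
  · rw [if_pos (by omega)] at hs
    simp [h1] at hs
  · rw [if_neg (by omega)] at hs
    by_cases h2 : X.card + 1 < h
    · rw [if_pos h2] at hs
      simp [h1] at hs
    · rw [if_neg h2] at hs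
      have h3 : X.card + 1 = h := by omega
      have h4 : D.rho (insert x X) * chi Y ≠ ε := by
        intro h5
        simp [h1, h5] at hs
      unfold Odd_F1
      rw [WF1_tie hh D X Y x h3, if_neg (by omega), if_pos h3, add_zero]
      rcases Odd_pm D (insert x X) Y with e | e <;> rcases hε with e' | e' <;>
        rw [e, e'] at h4 <;> rw [e, e'] <;> first | exact absurd rfl h4 | norm_num

/-- cuts on the edges adding a point to the second part of `A` -/
lemma Odd_c2 (D : RhoData h) (hh : 3 ≤ h) (X Y : Finset (P h)) (x : P h) (ε : ℚ)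
    (hs : Odd_s ε D.rho X Y Finset.univ = Odd_s ε D.rho Xᶜ (Yᶜ.erase x) ∅) :
    Odd_F2 D.rho X Y x = ε := by
  unfold Odd_s at hs
  rw [if_neg (by simp), if_pos rfl, Odd_erase_compl, compl_compl] at hs
  by_cases h1 : h < X.card
  · rw [if_pos h1] at hs
    simp at hs
    omega
  · rw [if_neg h1] at hs
    by_cases h2 : X.card < h
    · rw [if_pos h2] at hs
      simp at hs
      omega
    · rw [if_neg h2] at hs
      have h3 : X.card = h := by omega
      unfold Odd_F2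
      rw [WF2_tie hh D X Y x h3, if_pos h3, add_zero]
      simpa [h3] using hs

/-- cuts on the edges between `T` and its complement -/
lemma Odd_c3 (D : RhoData h) (X Y : Finset (P h)) (ε : ℚ) (hε : ε = 1 ∨ ε = -1)
    (hs : Odd_s ε D.rho X Y ∅ = Odd_s ε D.rho Xᶜ Yᶜ ∅) : False := by
  have hc := Odd_card_compl X
  unfold Odd_s at hs
  rw [if_pos rfl, if_pos rfl, compl_compl, compl_compl] at hs
  by_cases h1 : h < X.card
  · rw [if_neg (by omega), if_pos (by omega), if_pos h1] at hs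
    simp at hs
  · by_cases h2 : X.card < h
    · rw [if_pos (by omega), if_neg h1, if_pos h2] at hs
      simp at hs
    · rw [if_neg (by omega), if_neg (by omega), if_neg h1, if_neg h2, D.compl, chi_compl] at hs
      have e : (-1 : ℚ) ^ (h + 1) * D.rho X * ((-1) ^ h * chi Y) = -(D.rho X * chi Y) := by
        have : ((-1 : ℚ) ^ h) * (-1) ^ h = 1 := by rw [← mul_pow]; norm_num
        rw [pow_succ]
        linear_combination (-(D.rho X * chi Y)) * this
      rw [e] at hs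
      rcases Odd_pm D X Y with e1 | e1 <;> rcases hε with e' | e' <;>
        rw [e1, e'] at hs <;> norm_num at hs

theorem odd_case (h : ℕ) (hh : 3 ≤ h) (D : RhoData h) :
    (SimpleGraph.fromRel
      (fun s t : {s : Finset (Fin (2 * (2 * h + 1) - 1)) // s.card = 2 * h + 1 - 1} =>
        Disjoint s.1 t.1)).lineGraph.Colorable (2 * h + 1) := by
  have hcc : ∀ X : Finset (P h), Xᶜ.card + X.card = 2 * h := Odd_card_compl
  have hQ0 : (∅ : Finset Unit)ᶜ = Finset.univ := rfl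
  have hQ1 : (Finset.univ : Finset Unit)ᶜ = ∅ := rfl
  have hun : (Finset.univ : Finset Unit) ≠ ∅ := by simp
  refine split (P1 := P h) (P2 := P h) (R := Unit) (2 * h + 1) (by omega) ?_ (h + 1) h (by omega)
    (Odd_y1 D.rho) (Odd_y2 D.rho) (fun X Y _ _ => Odd_G D.rho Xᶜ Yᶜ) (Odd_s (-1) D.rho)
    (Odd_s 1 D.rho) ?_ ?_ ?_ ?_ ?_ ?_ ?_ ?_ ?_ ?_
  · simp [P]; omega
  · -- sym1
    intro X Y Q x hc hx
    unfold Odd_y1
    rcases Odd_Q Q with ⟨rfl, -⟩ | ⟨-, -, rfl⟩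
    · rw [hQ0, if_neg hun, if_pos rfl]
    · rw [hQ1, if_neg hun, if_pos rfl, Odd_erase_compl, compl_compl, Finset.erase_insert hx]
  · -- sym2
    intro X Y Q x hc hx
    unfold Odd_y2
    rcases Odd_Q Q with ⟨rfl, -⟩ | ⟨-, -, rfl⟩
    · rw [hQ0, if_neg hun, if_pos rfl]
    · rw [hQ1, if_neg hun, if_pos rfl, Odd_erase_compl, compl_compl, Finset.erase_insert hx]
  · -- sym3
    intro X Y Q x hc hx
    rcases Odd_Q Q with ⟨rfl, h0⟩ | ⟨-, -, rfl⟩
    · have h1 := hcc X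
      have h2 := hcc Y
      exact Odd_G_compl D Xᶜ Yᶜ (by omega)
    · simp at hx
  · -- b1
    intro X Y Q x hc hx
    unfold Odd_y1
    have h1 := hcc X
    have h2 := hcc Y
    rcases Odd_Q Q with ⟨rfl, h0⟩ | ⟨-, h0, rfl⟩
    · rw [if_pos rfl]
      have h3 := Finset.card_erase_add_one (Finset.mem_compl.2 hx)
      exact Odd_F1_b hh D _ _ x (Finset.notMem_erase _ _) (by omega)
    · rw [if_neg hun]
      exact Odd_F1_b hh D _ _ x hx (by omega)
  · -- b2
    intro X Y Q x hc hx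
    unfold Odd_y2
    have h1 := hcc X
    have h2 := hcc Y
    rcases Odd_Q Q with ⟨rfl, h0⟩ | ⟨-, h0, rfl⟩
    · rw [if_pos rfl]
      have h3 := Finset.card_erase_add_one (Finset.mem_compl.2 hx)
      exact Odd_F2_b hh D _ _ x (Finset.notMem_erase _ _) (by omega)
    · rw [if_neg hun]
      exact Odd_F2_b hh D _ _ x hx (by omega)
  · -- b3
    intro X Y Q x hc hx
    rcases Odd_Q Q with ⟨rfl, h0⟩ | ⟨-, -, rfl⟩
    · have h1 := hcc X
      have h2 := hcc Y
      exact Odd_G_b hh D Xᶜ Yᶜ (by omega)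
    · simp at hx
  · -- c1
    intro X Y Q x hc hx
    unfold Odd_y1
    rcases Odd_Q Q with ⟨rfl, h0⟩ | ⟨-, h0, rfl⟩
    · rw [if_pos rfl, hQ0]
      have key : ∀ ε : ℚ, ε = 1 ∨ ε = -1 → Odd_s ε D.rho X Y ∅ =
          Odd_s ε D.rho (Xᶜ.erase x) Yᶜ Finset.univ → Odd_F1 D.rho (Xᶜ.erase x) Yᶜ x = ε := by
        intro ε hε hs
        refine Odd_c1 D hh _ _ x (Finset.notMem_erase _ _) ε hε ?_
        rw [Odd_erase_compl, compl_compl, Finset.erase_insert hx]
        exact hs.symm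
      exact ⟨key _ (Or.inr rfl), key _ (Or.inl rfl)⟩
    · rw [if_neg hun, hQ1]
      exact ⟨Odd_c1 D hh X Y x hx _ (Or.inr rfl), Odd_c1 D hh X Y x hx _ (Or.inl rfl)⟩
  · -- c2
    intro X Y Q x hc hx
    unfold Odd_y2
    rcases Odd_Q Q with ⟨rfl, h0⟩ | ⟨-, h0, rfl⟩
    · rw [if_pos rfl, hQ0]
      have key : ∀ ε : ℚ, Odd_s ε D.rho X Y ∅ =
          Odd_s ε D.rho Xᶜ (Yᶜ.erase x) Finset.univ → Odd_F2 D.rho Xᶜ (Yᶜ.erase x) x = ε := by
        intro ε hs
        refine Odd_c2 D hh _ _ x ε ?_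
        rw [Odd_erase_compl, compl_compl, Finset.erase_insert hx]
        exact hs.symm
      exact ⟨key _, key _⟩
    · rw [if_neg hun, hQ1]
      exact ⟨Odd_c2 D hh X Y x _, Odd_c2 D hh X Y x _⟩
  · -- c3
    intro X Y Q x hc hx
    rcases Odd_Q Q with ⟨rfl, h0⟩ | ⟨-, h0, rfl⟩
    · have e : ((∅ : Finset Unit)ᶜ.erase x) = ∅ := by
        cases x; rfl
      rw [e]
      exact ⟨fun hs => (Odd_c3 D X Y _ (Or.inr rfl) hs).elim,
        fun hs => (Odd_c3 D X Y _ (Or.inl rfl) hs).elim⟩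
    · simp at hx
  · -- sums
    intro X Y Q hc
    have h1 := hcc X
    have h2 := hcc Y
    unfold Odd_y1 Odd_y2
    push_cast
    rcases Odd_Q Q with ⟨rfl, h0⟩ | ⟨-, h0, rfl⟩
    · simp only [if_true, hQ0]
      have h3 := Odd_sumT hh D Xᶜ Yᶜ (by omega)
      rw [Finset.univ_unique, Finset.sum_singleton, h3]
      ring
    · simp only [hun, if_false, hQ1, Finset.sum_empty]
      have h3 := Odd_sumA hh D X Y (by omega)
      rw [h3]
      ring

end OddGr75
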