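import Mathlib

/-!
# Module OG-PAR (MP_d22128_co, helper75): parity of C(2r+1, r).

If `2r + 2` is not a power of two then `C(2r+1, r)` is even. Strong induction on `r`. `r = 0`:
`2 = 2^1`. `r` even, `r = 2t > 0`: Lucas (`Choose.choose_modEq_choose_mod_mul_choose_div_nat` with
`p = 2`): `C(2r+1, r) ≡ C(1,0) C(r, t) = C(2t,t)` mod 2, even (`Nat.centralBinom`,
`Nat.two_dvd_centralBinom_of_one_le`). `r` odd, `r = 2t+1`: `C(2r+1,r) ≡ C(1,1) C(r,t)
= C(2t+1,t)` and `2t+2 = r+1` is not a power of two (else `2r+2` is), so it is even by induction.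
-/

set_option autoImplicit false

namespace OddGr75

theorem choose_even (r : ℕ) (hr : ∀ n : ℕ, 2 * r + 2 ≠ 2 ^ n) : Even (Nat.choose (2 * r + 1) r) := by
  induction r using Nat.strong_induction_on with
  | _ r ih =>
    haveI : Fact (Nat.Prime 2) := ⟨Nat.prime_two⟩
    have hl := Choose.choose_modEq_choose_mod_mul_choose_div_nat (n := 2 * r + 1) (k := r) (p := 2)
    have e1 : (2 * r + 1) % 2 = 1 := by omega
    have e2 : (2 * r + 1) / 2 = r := by omega
    rw [e1, e2] at hl
    rw [Nat.even_iff]
    rcases Nat.even_or_odd' r with ⟨t, ht | ht⟩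
    · have ht0 : 0 < t := by
        rcases Nat.eq_zero_or_pos t with h0 | h0
        · exfalso
          apply hr 1
          omega
        · exact h0
      have e3 : r % 2 = 0 := by omega
      have e4 : r / 2 = t := by omega
      rw [e3, e4, Nat.choose_zero_right, one_mul] at hl
      have h2 : 2 ∣ Nat.choose (2 * t) t := by
        have := Nat.two_dvd_centralBinom_of_one_le ht0
        rwa [Nat.centralBinom_eq_two_mul_choose] at this
      rw [hl, ht]
      exact Nat.mod_eq_zero_of_dvd h2
    · have e3 : r % 2 = 1 := by omega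
      have e4 : r / 2 = t := by omega
      rw [e3, e4, Nat.choose_self, one_mul] at hl
      have h2 := ih t (by omega) (by
        intro n hn
        apply hr (n + 1)
        rw [pow_succ, ← hn]
        omega)
      rw [Nat.even_iff] at h2
      rw [hl, ht]
      exact h2

end OddGr75
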