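import Mathlib

/-!
# Module OG-JOHN (MP_d22128_co, helper75): perfect matching of the r-subsets by single exchanges.

`john_path`: for all `n, r` with `r ≤ n` there is a list `l` of finsets of `ℕ` without repetition
containing exactly the `r`-subsets of `range n`, such that consecutive members `A, B` satisfy
`(A ∩ B).card + 1 = r` (revolving door). Proof by induction on `n` with first member `range r` and last
member `range (r-1) ∪ {n-1}` (for `1 ≤ r < n`; only `range n` if `r = n`, only `∅` if `r = 0`):
`L(n,r) = L(n-1,r) ++ reverse (L(n-1,r-1) with the element n-1 added to all members)`. The junction: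
last of `L(n-1,r)` is `range (r-1) ∪ {n-2}` (or `range r` if `r = n-1`), and the first member of the
reversed list is last of `L(n-1,r-1)` plus `n-1`, that is `range (r-2) ∪ {n-2} ∪ {n-1}` (`r ≥ 2`) or
`{n-1}` (`r = 1`): they share `r - 1` elements. Last member of `L(n,r)` is first of `L(n-1,r-1)` plus
`n-1` = `range (r-1) ∪ {n-1}`.

`john_matching`: if `Nat.choose n r` is even, the `r`-subsets of `Fin n` can be matched: pair the
members number `2i` and `2i+1` of the list; `sg = 1` on the even, `-1` on the odd positions.
(For `r` with `Nat.choose n r` even we have `1 ≤ r < n`.)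
-/

set_option autoImplicit false

namespace OddGr75

def John_R (r : ℕ) (A B : Finset ℕ) : Prop := (A ∩ B).card + 1 = r

theorem John_R_symm {r : ℕ} {A B : Finset ℕ} (h : John_R r A B) : John_R r B A := by
  unfold John_R at *
  rw [Finset.inter_comm]
  exact h

theorem John_path (n : ℕ) : ∀ r, r ≤ n → ∃ l : List (Finset ℕ), l.Nodup ∧
    (∀ A, A ∈ l ↔ A ⊆ Finset.range n ∧ A.card = r) ∧ l.IsChain (John_R r) ∧
    l.head? = some (Finset.range r) ∧
    l.getLast? = some (if r = 0 then ∅ else insert (n - 1) (Finset.range (r - 1))) := by
  induction n with
  | zero =>
    intro r hr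
    have : r = 0 := by omega
    subst this
    refine ⟨[∅], by simp, ?_, by simp, by simp, by simp⟩
    intro A
    simp only [List.mem_singleton, Finset.range_zero, Finset.subset_empty, Finset.card_eq_zero,
      and_self]
  | succ n ih =>
    intro r hr
    rcases Nat.eq_zero_or_pos r with h0 | hpos
    · subst h0
      refine ⟨[∅], by simp, ?_, by simp, by simp, by simp⟩
      intro A
      simp only [List.mem_singleton, Finset.card_eq_zero]
      constructor
      · rintro rfl
        exact ⟨Finset.empty_subset _, rfl⟩
      · exact fun h => h.2
    rcases Nat.lt_or_ge n r with hnr | hrn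
    · have hrn : r = n + 1 := by omega
      subst hrn
      refine ⟨[Finset.range (n + 1)], by simp, ?_, by simp, by simp, ?_⟩
      · intro A
        simp only [List.mem_singleton]
        constructor
        · rintro rfl
          exact ⟨le_rfl, Finset.card_range _⟩
        · rintro ⟨h1, h2⟩
          exact Finset.eq_of_subset_of_card_le h1 (by rw [h2, Finset.card_range])
      · simp only [List.getLast?_singleton, Option.some.injEq]
        rw [if_neg (by omega)]
        exact Finset.range_add_one
    · obtain ⟨l1, hn1, hm1, hc1, hh1, hl1⟩ := ih r hrn
      obtain ⟨l2, hn2, hm2, hc2, hh2, hl2⟩ := ih (r - 1) (by omega)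
      have hmem2 : ∀ A ∈ l2, n ∉ A := by
        intro A hA hn
        have := ((hm2 A).1 hA).1 hn
        rw [Finset.mem_range] at this
        omega
      refine ⟨l1 ++ (l2.reverse.map (insert n)), ?_, ?_, ?_, ?_, ?_⟩
      · rw [List.nodup_append']
        refine ⟨hn1, ?_, ?_⟩
        · apply List.Nodup.map_on
          · intro A hA B hB hAB
            rw [List.mem_reverse] at hA hB
            have hA' := hmem2 A hA
            have hB' := hmem2 B hB
            calc A = (insert n A).erase n := (Finset.erase_insert hA').symm
              _ = (insert n B).erase n := by rw [hAB]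
              _ = B := Finset.erase_insert hB'
          · exact List.nodup_reverse.2 hn2
        · intro A hA hA2
          rw [List.mem_map] at hA2
          obtain ⟨B, _, rfl⟩ := hA2
          have := ((hm1 _).1 hA).1 (Finset.mem_insert_self n B)
          rw [Finset.mem_range] at this
          omega
      · intro A
        rw [List.mem_append, List.mem_map]
        constructor
        · rintro (h | ⟨B, hB, rfl⟩)
          · have := (hm1 A).1 h
            exact ⟨this.1.trans (Finset.range_subset_range.2 (by omega)), this.2⟩
          · rw [List.mem_reverse] at hB
            have h1 := (hm2 B).1 hB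
            constructor
            · intro x hx
              rw [Finset.mem_insert] at hx
              rw [Finset.mem_range]
              rcases hx with rfl | hx
              · omega
              · have := h1.1 hx
                rw [Finset.mem_range] at this
                omega
            · rw [Finset.card_insert_of_notMem (hmem2 B hB), h1.2]
              omega
        · rintro ⟨h1, h2⟩
          by_cases hn : n ∈ A
          · right
            refine ⟨A.erase n, ?_, Finset.insert_erase hn⟩
            rw [List.mem_reverse, hm2]
            constructor
            · intro x hx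
              rw [Finset.mem_erase] at hx
              have := h1 hx.2
              rw [Finset.mem_range] at *
              omega
            · rw [Finset.card_erase_of_mem hn, h2]
          · left
            rw [hm1]
            refine ⟨?_, h2⟩
            intro x hx
            have h3 := h1 hx
            rw [Finset.mem_range] at *
            have : x ≠ n := fun e => hn (e ▸ hx)
            omega
      · rw [List.isChain_append]
        refine ⟨hc1, ?_, ?_⟩
        · rw [List.isChain_map, List.isChain_reverse]
          rw [List.isChain_iff_getElem] at hc2 ⊢
          intro i hi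
          have h1 := hc2 i hi
          have h2 := hmem2 _ (List.getElem_mem (Nat.lt_of_succ_lt hi))
          rw [John_R] at *
          rw [← Finset.insert_inter_distrib, Finset.card_insert_of_notMem, Finset.inter_comm]
          · omega
          · intro h3
            exact h2 (Finset.mem_inter.1 h3).2
        · intro A hA B hB
          rw [hl1] at hA
          rw [List.head?_map, List.head?_reverse, hl2] at hB
          simp only [Option.mem_def, Option.some.injEq, Option.map_some] at hA hB
          rw [if_neg (by omega)] at hA
          subst hA
          subst hB
          rw [John_R]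
          by_cases hr1 : r = 1
          · subst hr1
            rw [if_pos rfl]
            have : (insert (n - 1) (Finset.range (1 - 1)) ∩ insert n (∅ : Finset ℕ)) = ∅ := by
              ext x
              simp only [Finset.mem_inter, Finset.mem_insert, Finset.mem_range,
                Finset.notMem_empty, iff_false, or_false]
              omega
            rw [this]
            simp
          · rw [if_neg (by omega)]
            have : (insert (n - 1) (Finset.range (r - 1)) ∩
                insert n (insert (n - 1) (Finset.range (r - 1 - 1))))
                = insert (n - 1) (Finset.range (r - 2)) := by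
              ext x
              simp only [Finset.mem_inter, Finset.mem_insert, Finset.mem_range]
              omega
            rw [this, Finset.card_insert_of_notMem, Finset.card_range]
            · omega
            · rw [Finset.mem_range]
              omega
      · rw [List.head?_append, hh1]
        rfl
      · rw [List.getLast?_append, List.getLast?_map, List.getLast?_reverse, hh2]
        simp only [Option.map_some, Option.some_or, Option.some.injEq]
        rw [if_neg (by omega)]
        simp

theorem john_matching (n r : ℕ) (hr : r ≤ n) (he : Even (Nat.choose n r)) :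
    ∃ (io : Finset (Fin n) → Finset (Fin n)) (sg : Finset (Fin n) → ℚ),
      ∀ W : Finset (Fin n), W.card = r →
        (io W).card = r ∧ io (io W) = W ∧ (W ∩ io W).card + 1 = r ∧
        (sg W = 1 ∨ sg W = -1) ∧ sg (io W) = -sg W := by
  classical
  obtain ⟨l, hnd, hmem, hch, _, _⟩ := John_path n r hr
  -- length
  have hlen : l.length = n.choose r := by
    have h1 : l.toFinset = Finset.powersetCard r (Finset.range n) := by
      ext A
      rw [List.mem_toFinset, hmem, Finset.mem_powersetCard]
    rw [← List.toFinset_card_of_nodup hnd, h1, Finset.card_powersetCard, Finset.card_range]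
  let up : Finset (Fin n) → Finset ℕ := fun W => W.map Fin.valEmbedding
  let dw : Finset ℕ → Finset (Fin n) := fun A => Finset.univ.filter (fun i : Fin n => (i : ℕ) ∈ A)
  have hdu : ∀ W, dw (up W) = W := by
    intro W
    ext i
    simp only [dw, up, Finset.mem_filter, Finset.mem_univ, true_and, Finset.mem_map,
      Fin.valEmbedding_apply]
    constructor
    · rintro ⟨a, ha, hai⟩
      rwa [← Fin.ext hai]
    · intro hi
      exact ⟨i, hi, rfl⟩
  have hud : ∀ A, A ⊆ Finset.range n → up (dw A) = A := by
    intro A hA
    ext i
    simp only [dw, up, Finset.mem_filter, Finset.mem_univ, true_and, Finset.mem_map,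
      Fin.valEmbedding_apply]
    constructor
    · rintro ⟨a, ha, rfl⟩
      exact ha
    · intro hi
      exact ⟨⟨i, Finset.mem_range.1 (hA hi)⟩, hi, rfl⟩
  have hupc : ∀ W, (up W).card = W.card := fun W => Finset.card_map _
  have hupsub : ∀ W, up W ⊆ Finset.range n := by
    intro W x hx
    simp only [up, Finset.mem_map, Fin.valEmbedding_apply] at hx
    obtain ⟨a, _, rfl⟩ := hx
    exact Finset.mem_range.2 a.2
  have hupi : ∀ W W', up (W ∩ W') = up W ∩ up W' := fun W W' => Finset.map_inter _ _
  -- index of the partner
  let pn : ℕ → ℕ := fun i => if i % 2 = 0 then i + 1 else i - 1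
  have hpn : ∀ i, i < l.length → pn i < l.length := by
    intro i hi
    rw [hlen] at hi ⊢
    obtain ⟨m, hm⟩ := he
    simp only [pn]
    split_ifs with h <;> omega
  have hpp : ∀ i, pn (pn i) = i := by
    intro i
    simp only [pn]
    split_ifs with h1 h2 h2 <;> omega
  have hW : ∀ W : Finset (Fin n), W.card = r → up W ∈ l := by
    intro W hW
    rw [hmem]
    exact ⟨hupsub W, by rw [hupc, hW]⟩
  let ix : Finset (Fin n) → ℕ := fun W => l.idxOf (up W)
  have hix : ∀ W : Finset (Fin n), W.card = r → ix W < l.length := fun W hWc =>
    List.idxOf_lt_length_iff.2 (hW W hWc)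
  have hget : ∀ W : Finset (Fin n), W.card = r → l.getD (ix W) ∅ = up W := by
    intro W hWc
    rw [List.getD_eq_getElem _ _ (hix W hWc)]
    exact List.getElem_idxOf (hix W hWc)
  let io : Finset (Fin n) → Finset (Fin n) := fun W => dw (l.getD (pn (ix W)) ∅)
  let sg : Finset (Fin n) → ℚ := fun W => if ix W % 2 = 0 then 1 else -1
  have hio1 : ∀ W : Finset (Fin n), W.card = r → up (io W) = l.getD (pn (ix W)) ∅ := by
    intro W hWc
    apply hud
    rw [List.getD_eq_getElem _ _ (hpn _ (hix W hWc))]
    exact ((hmem _).1 (List.getElem_mem _)).1
  have hioc : ∀ W : Finset (Fin n), W.card = r → (io W).card = r := by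
    intro W hWc
    rw [← hupc, hio1 W hWc, List.getD_eq_getElem _ _ (hpn _ (hix W hWc))]
    exact ((hmem _).1 (List.getElem_mem _)).2
  have hioix : ∀ W : Finset (Fin n), W.card = r → ix (io W) = pn (ix W) := by
    intro W hWc
    simp only [ix]
    rw [hio1 W hWc, List.getD_eq_getElem _ _ (hpn _ (hix W hWc))]
    exact hnd.idxOf_getElem _ _
  refine ⟨io, sg, ?_⟩
  intro W hWc
  refine ⟨hioc W hWc, ?_, ?_, ?_, ?_⟩
  · have h1 : up (io (io W)) = up W := by
      rw [hio1 _ (hioc W hWc), hioix W hWc, hpp, hget W hWc]
    rw [← hdu (io (io W)), h1, hdu]
  · rw [← hupc, hupi, hio1 W hWc, ← hget W hWc, List.getD_eq_getElem _ _ (hix W hWc),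
      List.getD_eq_getElem _ _ (hpn _ (hix W hWc))]
    rw [List.isChain_iff_getElem] at hch
    have hadj : ∀ i j (hi : i < l.length) (hj : j < l.length), j = i + 1 → John_R r l[i] l[j] := by
      intro i j hi hj hij
      subst hij
      exact hch i hj
    have hi := hix W hWc
    have hp := hpn _ hi
    by_cases h2 : ix W % 2 = 0
    · exact hadj _ _ hi hp (by simp only [pn]; rw [if_pos h2])
    · exact John_R_symm (hadj _ _ hp hi (by simp only [pn]; rw [if_neg h2]; omega))
  · simp only [sg]
    split_ifs
    · exact Or.inl rfl
    · exact Or.inr rfl
  · have h1 := hioix W hWc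
    by_cases h2 : ix W % 2 = 0
    · have h3 : ¬ ix (io W) % 2 = 0 := by
        rw [h1]
        simp only [pn]
        rw [if_pos h2]
        omega
      simp only [sg]
      rw [if_pos h2, if_neg h3]
    · have h3 : ix (io W) % 2 = 0 := by
        rw [h1]
        simp only [pn]
        rw [if_neg h2]
        omega
      simp only [sg]
      rw [if_neg h2, if_pos h3]
      norm_num

end OddGr75
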