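import Pool.Agent.OddGr75.Basic
import Pool.Agent.OddGr75.John

/-!
# Module OG-SIG (MP_d22128_co, helper75): the sigma data.

`sig_even`: `h` even: all functions zero; `pm` is vacuous because `un X` has the parity of
`|X| = h - 1`, odd.

`sig_odd`: `h = 2r + 1`, `io`, `sg` from `john_matching h r`. For `W ⊆ Fin h` put
`full W = {p : P h | p.1 ∈ W}`, for `X ⊆ P h` put `idx X = X.image Prod.fst`. A set `X` with
`un X = 0`, `|X| = h - 1 = 2r` is `full (idx X)` with `|idx X| = r`. Let
`σ X = if un X = 0 ∧ |X| + 1 = h then sg (idx X) else 0`,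
`κ(A,j,i) = if io (idx A) = insert i.1 ((idx A).erase j.1) then σ A / 4 else 0` (`j ∈ A`, `i ∉ A`),
`φ(A,j,i) = κ(A,j,i) - κ(insert i (A.erase j), i, j)` (the flow from `A` to `A - j + i`).
(a) antisymmetry: `φ(insert i (A.erase j), i, j) = -φ(A,j,i)` because
    `insert j ((insert i (A.erase j)).erase i) = A`.
(b) divergence: `∑_{j∈A} ∑_{i∉A} φ(A,j,i) = σ A` for `|A| = h-1`:
    `∑∑ κ(A,j,i) = σ A`: if `un A = 0` then, with `W = idx A`, the condition
    `io W = insert i.1 (W.erase j.1)` (`j.1 ∈ W`, `i.1 ∉ W`) fixes `j.1 ∈ W \ io W` and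
    `i.1 ∈ io W \ W`, both one-element sets, so 2 points `j` and 2 points `i`: `4 · σ/4`.
    `∑∑ κ(A - j + i, i, j) = 0`: involution `(j,i) ↦ (bar i, bar j)` on the nonzero terms: there
    `A' = A - j + i` has `un A' = 0`, `i ∈ A'`, `j ∉ A'`, so `bar i ∈ A`, `bar j ∉ A`, and
    `A - bar i + bar j = A' - i - bar i + j + bar j = full (io (idx A'))`; the condition for it is
    `io (io W') = W' `, and the value is `sg (io W')/4 = - sg W'/4`.
(c) `θσ(B,j) = ∑_{i∉B} φ(B,j,i)`. `th_sum` is (b). `th_ins`: `∑_{b∉B'} ∑_{i∉B'∪b} φ(B'∪b,b,i)`,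
    `(B'∪b) - b + i = B' ∪ i`, antisymmetric in `(b,i)` by (a), so zero.
(d) `ψσ(X,i) = ∑_{x∈X} ∑_{j∈X∖x} φ(X∖x,j,i)`. `ps_sum`: for `A = X∖x` the points `i ∉ A` are
    `i ∉ X` and `i = x`: `∑_{i∉X} ψσ(X,i) = ∑_x (∑_{j∈A} ∑_{i∉A} φ(A,j,i) - ∑_{j∈A} φ(A,j,x)) =
    ∑_x σ(X∖x) - ∑_{x≠j} φ(X∖x,j,x)` and the last sum is zero by (a) (`(X∖x) - j + x = X∖j`).
    `ps_er`: `∑_{z∈Z} ∑_{x≠j∈Z∖z} φ(Z∖{z,x},j,z)`: the set moves from `Z∖{z,x}` to `Z∖{x,j}`;
    exchanging `z ↔ j` gives the negative by (a), so the sum over the distinct triples is zero.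
(e) bounds. `|κ| ≤ 1/4`. `|θσ(B,j)| ≤ 1/2` for `j ∈ B`, `|B| = h-1`: if `un B = 0`: the second
    parts vanish (`B - j + i` contains `bar j` but not `j` if `i ≠ j`), the first part is nonzero for
    at most two `i` (`i.1` is the element of `io W \ W`). If `un B ≠ 0`: the first parts vanish, and
    `un (B - j + i) = 0` for at most one `i ∉ B` (`i` is the partner of the unpaired point of `B - j`):
    `≤ 1/4`. `th_un`: `un B = 1` is impossible for `|B| = h-1` even.
    `|ψσ(X,i)| ≤ 3` (`|X| = h`, `i ∉ X`): the first parts `κ(X∖x,j,i)` need `un (X∖x) = 0`, which fixes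
    `x` (the unpaired point of `X`), and `j.1` the element of `W \ io W`: at most 2 terms, `≤ 1/2`.
    The second parts `κ(X∖{x,j}∪i, i, j)`, `A' = X∖{x,j}∪i`, need `un A' = 0`, so
    `un (X ∪ i) ∈ {0,2}`; if it is 2 then `{x,j}` = the two unpaired points (2 ordered pairs); if
    it is 0 then `x = bar j`, `A' = (X∪i) - pair j`, and `io (idx A') = idx A' - i.1 + j.1
    = idx (X∪i) - i.1 =: W0`, so `idx A' = io W0` is determined, so `j.1` is determined:
    at most 2 ordered pairs. Total `≤ 1/2 + 1/2`. (Any bound `≤ 3` is enough: at most 12 terms.)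

Implementation (helper90): only the two paths with `j.2 = i.2` are used, with weight `1/2`, so that in
every bound at most one term is nonzero; the flow is a function `phi A M` of two sets (`SigAux`).
-/

set_option autoImplicit false

namespace OddGr75

namespace SigAux

/-! ### General sums -/

theorem abs_sum_le_of_unique {α : Type*} (s : Finset α) (f : α → ℚ) (b : ℚ) (hb : 0 ≤ b)
    (h1 : ∀ x ∈ s, |f x| ≤ b) (h2 : ∀ x ∈ s, ∀ y ∈ s, f x ≠ 0 → f y ≠ 0 → x = y) :
    |∑ x ∈ s, f x| ≤ b := by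
  by_cases h : ∃ x ∈ s, f x ≠ 0
  · obtain ⟨x, hx, hfx⟩ := h
    rw [Finset.sum_eq_single_of_mem x hx]
    · exact h1 x hx
    · intro y hy hne
      by_contra hfy
      exact hne (h2 y hy x hx hfy hfx)
  · push Not at h
    rw [Finset.sum_eq_zero h, abs_zero]
    exact hb

theorem sum_antisymm {α : Type*} [DecidableEq α] (S : Finset α) (F : α → α → ℚ)
    (hF : ∀ x ∈ S, ∀ y ∈ S, x ≠ y → F y x = -F x y) :
    ∑ x ∈ S, ∑ y ∈ S.erase x, F x y = 0 := by
  have h1 : ∀ x ∈ S, ∑ y ∈ S.erase x, F x y = ∑ y ∈ S, if x = y then 0 else F x y := by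
    intro x hx
    rw [← Finset.add_sum_erase S (fun y => if x = y then 0 else F x y) hx, if_pos rfl, zero_add]
    refine Finset.sum_congr rfl fun y hy => ?_
    rw [if_neg (fun e => (Finset.ne_of_mem_erase hy) e.symm)]
  rw [Finset.sum_congr rfl h1]
  have h2 : ∑ x ∈ S, ∑ y ∈ S, (if x = y then 0 else F x y) =
      -∑ x ∈ S, ∑ y ∈ S, (if x = y then 0 else F x y) := by
    rw [← Finset.sum_neg_distrib]
    nth_rewrite 1 [Finset.sum_comm]
    refine Finset.sum_congr rfl fun y hy => ?_
    rw [← Finset.sum_neg_distrib]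
    refine Finset.sum_congr rfl fun x hx => ?_
    by_cases e : y = x
    · rw [if_pos e, if_pos e.symm, neg_zero]
    · rw [if_neg e, if_neg (fun e' => e e'.symm)]
      exact hF y hy x hx e
  linarith

/-! ### The matching data -/

/-- The matching of the `r`-subsets, with the exchanged elements. -/
structure IO (h r : ℕ) where
  io : Finset (Fin h) → Finset (Fin h)
  o : Finset (Fin h) → Fin h
  n : Finset (Fin h) → Fin h
  sg : Finset (Fin h) → ℚ
  io_card : ∀ W, W.card = r → (io W).card = r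
  io_io : ∀ W, W.card = r → io (io W) = W
  io_eq : ∀ W, W.card = r → io W = insert (n W) (W.erase (o W))
  o_mem : ∀ W, W.card = r → o W ∈ W
  n_mem : ∀ W, W.card = r → n W ∉ W
  o_io : ∀ W, W.card = r → o (io W) = n W
  n_io : ∀ W, W.card = r → n (io W) = o W
  sg_pm : ∀ W, W.card = r → sg W = 1 ∨ sg W = -1
  sg_io : ∀ W, W.card = r → sg (io W) = -sg W

theorem exists_io (h r : ℕ) (hr : h = 2 * r + 1) (he : Even (Nat.choose h r)) :
    Nonempty (IO h r) := by
  classical
  obtain ⟨io, sg, H⟩ := john_matching h r (by omega) he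
  have hne : Nonempty (Fin h) := ⟨⟨0, by omega⟩⟩
  have h1 : ∀ W : Finset (Fin h), W.card = r → (W \ io W).card = 1 := by
    intro W hW
    have h2 := (H W hW).2.2.1
    have h3 := Finset.card_sdiff_add_card_inter W (io W)
    omega
  have h2 : ∀ W : Finset (Fin h), ∃ a, W.card = r → W \ io W = {a} := by
    intro W
    by_cases hW : W.card = r
    · obtain ⟨a, ha⟩ := Finset.card_eq_one.1 (h1 W hW)
      exact ⟨a, fun _ => ha⟩
    · exact ⟨Classical.choice hne, fun h => absurd h hW⟩
  choose o ho using h2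
  have hio : ∀ W : Finset (Fin h), W.card = r → io W \ W = {o (io W)} := by
    intro W hW
    have h3 := ho (io W) (H W hW).1
    rw [(H W hW).2.1] at h3
    exact h3
  refine ⟨⟨io, o, fun W => o (io W), sg, fun W hW => (H W hW).1, fun W hW => (H W hW).2.1,
    ?_, ?_, ?_, fun W hW => rfl, ?_, fun W hW => (H W hW).2.2.2.1,
    fun W hW => (H W hW).2.2.2.2⟩⟩
  · intro W hW
    have h3 := hio W hW
    have h4 := ho W hW
    ext a
    have h5 : a ∈ io W \ W ↔ a ∈ ({o (io W)} : Finset _) := by rw [h3]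
    have h6 : a ∈ W \ io W ↔ a ∈ ({o W} : Finset _) := by rw [h4]
    simp only [Finset.mem_sdiff, Finset.mem_singleton] at h5 h6
    simp only [Finset.mem_insert, Finset.mem_erase]
    tauto
  · intro W hW
    have h4 : o W ∈ W \ io W := by rw [ho W hW]; exact Finset.mem_singleton_self _
    exact (Finset.mem_sdiff.1 h4).1
  · intro W hW
    have h4 : o (io W) ∈ io W \ W := by rw [hio W hW]; exact Finset.mem_singleton_self _
    exact (Finset.mem_sdiff.1 h4).2
  · intro W hW
    show o (io (io W)) = o W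
    rw [(H W hW).2.1]

variable {h r : ℕ} (D : IO h r)

/-- the set of the pairs with index in `W` -/
def full (W : Finset (Fin h)) : Finset (P h) := W ×ˢ Finset.univ

theorem mem_full {W : Finset (Fin h)} {p : P h} : p ∈ full W ↔ p.1 ∈ W := by
  simp [full]

theorem full_inj {W W' : Finset (Fin h)} (e : full W = full W') : W = W' := by
  ext a
  have h1 : (a, true) ∈ full W ↔ (a, true) ∈ full W' := by rw [e]
  simpa [mem_full] using h1

theorem card_full (W : Finset (Fin h)) : (full W).card = 2 * W.card := by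
  rw [full, Finset.card_product]
  simp [mul_comm]

theorem eq_full {X : Finset (P h)} (hX : un X = 0) : X = full (X.image Prod.fst) := by
  have h1 : ∀ a ∈ X, bar a ∈ X := by
    intro a ha
    by_contra hb
    have h2 := un_pos ha hb
    omega
  ext p
  rw [mem_full, Finset.mem_image]
  constructor
  · intro hp
    exact ⟨p, hp, rfl⟩
  · rintro ⟨q, hq, e⟩
    by_cases hb : q.2 = p.2
    · have : q = p := Prod.ext e hb
      rwa [← this]
    · have : bar q = p := by
        refine Prod.ext e ?_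
        show (!q.2) = p.2
        revert hb
        cases q.2 <;> cases p.2 <;> simp
      rw [← this]
      exact h1 q hq

theorem un_full (W : Finset (Fin h)) : un (full W) = 0 := by
  unfold un
  rw [Finset.card_eq_zero, Finset.filter_eq_empty_iff]
  intro a ha
  rw [not_not]
  rw [mem_full] at ha ⊢
  exact ha

/-- midpoint between `full W` and `full (io W)` -/
def mid (W : Finset (Fin h)) (b : Bool) : Finset (P h) :=
  insert (D.n W, b) ((full W).erase (D.o W, b))

theorem mem_mid {W : Finset (Fin h)} {b : Bool} {p : P h} :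
    p ∈ mid D W b ↔ p = (D.n W, b) ∨ (p ≠ (D.o W, b) ∧ p.1 ∈ W) := by
  rw [mid, Finset.mem_insert, Finset.mem_erase, mem_full]

theorem mid_io {W : Finset (Fin h)} (hW : W.card = r) (b : Bool) :
    mid D (D.io W) (!b) = mid D W b := by
  have h1 := D.o_mem W hW
  have h2 := D.n_mem W hW
  have h3 : D.o W ≠ D.n W := fun e => h2 (e ▸ h1)
  ext ⟨p, q⟩
  rw [mem_mid, mem_mid, D.n_io W hW, D.o_io W hW, D.io_eq W hW, Finset.mem_insert,
    Finset.mem_erase]
  simp only [Prod.mk.injEq, ne_eq]
  by_cases e1 : p = D.o W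
  · subst e1
    cases q <;> cases b <;> simp [h1, h3]
  · by_cases e2 : p = D.n W
    · subst e2
      cases q <;> cases b <;> simp [h2, e1]
    · simp [e1, e2]

/-- the index set of the edges `(full W, mid W b)` -/
def T (h r : ℕ) : Finset (Finset (Fin h) × Bool) :=
  (Finset.univ.powersetCard r) ×ˢ Finset.univ

theorem mem_T {t : Finset (Fin h) × Bool} : t ∈ T h r ↔ t.1.card = r := by
  simp [T]

/-- the half flow -/
def kap (A M : Finset (P h)) : ℚ :=
  ∑ t ∈ T h r, if A = full t.1 ∧ M = mid D t.1 t.2 then D.sg t.1 / 2 else 0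

/-- the flow -/
def phi (A M : Finset (P h)) : ℚ := kap D A M - kap D M A

theorem phi_neg (A M : Finset (P h)) : phi D M A = -phi D A M := by
  unfold phi; ring

/-- the sign function -/
def sigma (A : Finset (P h)) : ℚ :=
  ∑ W ∈ Finset.univ.powersetCard r, if A = full W then D.sg W else 0

theorem sum_kap_left (B : Finset (P h)) : ∑ M, kap D B M = sigma D B := by
  unfold kap sigma
  rw [Finset.sum_comm]
  have h1 : ∀ t : Finset (Fin h) × Bool,
      ∑ M, (if B = full t.1 ∧ M = mid D t.1 t.2 then D.sg t.1 / 2 else 0) =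
        if B = full t.1 then D.sg t.1 / 2 else 0 := by
    intro t
    by_cases e : B = full t.1
    · simp [e]
    · simp [e]
  simp only [h1]
  rw [T, Finset.sum_product]
  refine Finset.sum_congr rfl fun W _ => ?_
  by_cases e : B = full W
  · simp only [e, if_true, Fintype.sum_bool]
    ring
  · simp [e]

theorem sum_kap_right (B : Finset (P h)) : ∑ M, kap D M B = 0 := by
  unfold kap
  rw [Finset.sum_comm]
  have h1 : ∀ t : Finset (Fin h) × Bool,
      ∑ M, (if M = full t.1 ∧ B = mid D t.1 t.2 then D.sg t.1 / 2 else 0) =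
        if B = mid D t.1 t.2 then D.sg t.1 / 2 else 0 := by
    intro t
    by_cases e : B = mid D t.1 t.2
    · simp only [e, and_true, if_true]
      rw [Finset.sum_ite_eq' Finset.univ (full t.1) (fun _ => D.sg t.1 / 2)]
      simp
    · simp [e]
  simp only [h1]
  refine Finset.sum_involution (fun t _ => (D.io t.1, !t.2)) ?_ ?_ ?_ ?_
  · intro t ht
    rw [mem_T] at ht
    show _ + (if B = mid D (D.io t.1) (!t.2) then D.sg (D.io t.1) / 2 else 0) = 0
    rw [mid_io D ht, D.sg_io _ ht]
    by_cases e : B = mid D t.1 t.2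
    · rw [if_pos e, if_pos e]; ring
    · rw [if_neg e, if_neg e]; ring
  · intro t ht _ e
    have h2 := congrArg Prod.snd e
    simp at h2
  · intro t ht
    rw [mem_T] at ht ⊢
    exact D.io_card _ ht
  · intro t ht
    rw [mem_T] at ht
    refine Prod.ext ?_ ?_
    · exact D.io_io _ ht
    · simp

theorem sum_phi (B : Finset (P h)) : ∑ M, phi D B M = sigma D B := by
  unfold phi
  rw [Finset.sum_sub_distrib, sum_kap_left, sum_kap_right, sub_zero]

theorem kap_ne {A M : Finset (P h)} (hk : kap D A M ≠ 0) :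
    ∃ t : Finset (Fin h) × Bool, t.1.card = r ∧ A = full t.1 ∧ M = mid D t.1 t.2 := by
  obtain ⟨t, ht, h1⟩ := Finset.exists_ne_zero_of_sum_ne_zero hk
  rw [mem_T] at ht
  by_cases e : A = full t.1 ∧ M = mid D t.1 t.2
  · exact ⟨t, ht, e⟩
  · rw [if_neg e] at h1
    exact absurd rfl h1

theorem phi_ne {A M : Finset (P h)} (hk : phi D A M ≠ 0) :
    ∃ j ∈ A, ∃ i ∉ A, M = insert i (A.erase j) := by
  have h1 : kap D A M ≠ 0 ∨ kap D M A ≠ 0 := by
    by_contra h2
    push Not at h2
    apply hk
    rw [phi, h2.1, h2.2, sub_zero]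
  rcases h1 with h1 | h1
  · obtain ⟨⟨W, b⟩, hW, e1, e2⟩ := kap_ne D h1
    have hW' : W.card = r := hW
    refine ⟨(D.o W, b), ?_, (D.n W, b), ?_, ?_⟩
    · rw [e1, mem_full]; exact D.o_mem W hW'
    · rw [e1, mem_full]; exact D.n_mem W hW'
    · rw [e2, e1]; rfl
  · obtain ⟨⟨W, b⟩, hW, e1, e2⟩ := kap_ne D h1
    have hW' : W.card = r := hW
    have h2 := D.o_mem W hW'
    have h3 := D.n_mem W hW'
    have h4 : D.o W ≠ D.n W := fun e => h3 (e ▸ h2)
    refine ⟨(D.n W, b), ?_, (D.o W, b), ?_, ?_⟩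
    · rw [e2, mem_mid]; exact Or.inl rfl
    · rw [e2, mem_mid]
      rintro (e | ⟨e, _⟩)
      · exact h4 (congrArg Prod.fst e)
      · exact e rfl
    · rw [e1, e2]
      ext p
      rw [Finset.mem_insert, Finset.mem_erase, mem_mid, mem_full]
      constructor
      · intro hp
        by_cases e : p = (D.o W, b)
        · exact Or.inl e
        · refine Or.inr ⟨?_, Or.inr ⟨e, hp⟩⟩
          rintro rfl
          exact h3 hp
      · rintro (rfl | ⟨hne, (e | ⟨_, hp⟩)⟩)
        · exact h2
        · exact absurd e hne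
        · exact hp

/-- summing over the neighbours `A - j + i` -/
theorem sum_nbr (A : Finset (P h)) :
    ∑ j ∈ A, ∑ i ∈ Aᶜ, phi D A (insert i (A.erase j)) = sigma D A := by
  rw [← sum_phi D A, ← Finset.sum_product' A Aᶜ (fun j i => phi D A (insert i (A.erase j)))]
  have hinj : Set.InjOn (fun p : P h × P h => insert p.2 (A.erase p.1)) ↑(A ×ˢ Aᶜ) := by
    rintro ⟨j, i⟩ h1 ⟨j', i'⟩ h2 e
    simp only [Finset.coe_product, Set.mem_prod, Finset.mem_coe, Finset.mem_compl] at h1 h2
    have e' : insert i (A.erase j) = insert i' (A.erase j') := e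
    have hi : i = i' := by
      have h3 : i ∈ insert i' (A.erase j') := by rw [← e']; exact Finset.mem_insert_self _ _
      rcases Finset.mem_insert.1 h3 with h4 | h4
      · exact h4
      · exact absurd (Finset.mem_of_mem_erase h4) h1.2
    have hj : j = j' := by
      by_contra hne
      have h3 : j' ∈ insert i (A.erase j) :=
        Finset.mem_insert_of_mem (Finset.mem_erase.2 ⟨fun h => hne h.symm, h2.1⟩)
      rw [e'] at h3
      rcases Finset.mem_insert.1 h3 with h4 | h4
      · exact h2.2 (h4 ▸ h2.1)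
      · exact (Finset.mem_erase.1 h4).1 rfl
    rw [hi, hj]
  rw [← Finset.sum_image (f := fun M => phi D A M) hinj]
  refine Finset.sum_subset (Finset.subset_univ _) ?_
  intro M _ hM
  by_contra hne
  obtain ⟨j, hj, i, hi, e⟩ := phi_ne D hne
  apply hM
  rw [Finset.mem_image]
  exact ⟨(j, i), by simp [hj, hi], e.symm⟩

/-- `th` -/
def thA (B : Finset (P h)) (b : P h) : ℚ := ∑ i ∈ Bᶜ, phi D B (insert i (B.erase b))

/-- `ps` -/
def psA (X : Finset (P h)) (i : P h) : ℚ :=
  ∑ x ∈ X, ∑ j ∈ X.erase x, phi D (X.erase x) (insert i ((X.erase x).erase j))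

theorem th_sumA (B : Finset (P h)) : ∑ b ∈ B, thA D B b = sigma D B := sum_nbr D B

theorem th_insA (B : Finset (P h)) : ∑ b ∈ Bᶜ, thA D (insert b B) b = 0 := by
  have h1 : ∀ b ∈ Bᶜ, thA D (insert b B) b =
      ∑ i ∈ Bᶜ.erase b, phi D (insert b B) (insert i B) := by
    intro b hb
    rw [Finset.mem_compl] at hb
    unfold thA
    rw [Finset.erase_insert hb, Finset.compl_insert]
  rw [Finset.sum_congr rfl h1]
  exact sum_antisymm _ (fun b i => phi D (insert b B) (insert i B))
    (fun x _ y _ _ => phi_neg D _ _)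

theorem ps_sumA (X : Finset (P h)) : ∑ i ∈ Xᶜ, psA D X i = dn (sigma D) X := by
  unfold psA dn
  rw [Finset.sum_comm]
  have h1 : ∀ x ∈ X, ∑ i ∈ Xᶜ, ∑ j ∈ X.erase x,
      phi D (X.erase x) (insert i ((X.erase x).erase j)) =
      sigma D (X.erase x) - ∑ j ∈ X.erase x, phi D (X.erase x) (X.erase j) := by
    intro x hx
    rw [← sum_nbr D (X.erase x), Finset.compl_erase, Finset.sum_comm, ← Finset.sum_sub_distrib]
    refine Finset.sum_congr rfl fun j hj => ?_
    rw [Finset.sum_insert (by simpa using hx)]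
    have e : insert x ((X.erase x).erase j) = X.erase j := by
      ext p
      simp only [Finset.mem_insert, Finset.mem_erase]
      have h2 := Finset.mem_erase.1 hj
      constructor
      · rintro (rfl | ⟨h3, h4, h5⟩)
        · exact ⟨fun e => h2.1 e.symm, hx⟩
        · exact ⟨h3, h5⟩
      · rintro ⟨h3, h4⟩
        by_cases e : p = x
        · exact Or.inl e
        · exact Or.inr ⟨h3, e, h4⟩
    rw [e]
    ring
  rw [Finset.sum_congr rfl h1, Finset.sum_sub_distrib,
    sum_antisymm X (fun x j => phi D (X.erase x) (X.erase j)) (fun x _ y _ _ => phi_neg D _ _),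
    sub_zero]

theorem ps_erA (Z : Finset (P h)) : ∑ z ∈ Z, psA D (Z.erase z) z = 0 := by
  unfold psA
  have h1 : ∀ z ∈ Z, ∀ x ∈ Z.erase z, ∑ j ∈ (Z.erase z).erase x,
      phi D ((Z.erase z).erase x) (insert z (((Z.erase z).erase x).erase j)) =
      ∑ j ∈ (Z.erase x).erase z, phi D ((Z.erase x).erase z) ((Z.erase x).erase j) := by
    intro z hz x hx
    rw [Finset.erase_right_comm]
    refine Finset.sum_congr rfl fun j hj => ?_
    congr 1
    ext p
    simp only [Finset.mem_insert, Finset.mem_erase] at hj hx ⊢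
    constructor
    · rintro (rfl | ⟨h3, h4, h5, h6⟩)
      · exact ⟨fun e => hj.1 e.symm, fun e => hx.1 e.symm, hz⟩
      · exact ⟨h3, h5, h6⟩
    · rintro ⟨h3, h4, h5⟩
      by_cases e : p = z
      · exact Or.inl e
      · exact Or.inr ⟨h3, e, h4, h5⟩
  rw [Finset.sum_congr rfl fun z hz => Finset.sum_congr rfl fun x hx => h1 z hz x hx]
  have h2 : ∑ z ∈ Z, ∑ x ∈ Z.erase z, ∑ j ∈ (Z.erase x).erase z,
      phi D ((Z.erase x).erase z) ((Z.erase x).erase j) =
      ∑ x ∈ Z, ∑ z ∈ Z.erase x, ∑ j ∈ (Z.erase x).erase z,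
      phi D ((Z.erase x).erase z) ((Z.erase x).erase j) := by
    refine Finset.sum_comm' ?_
    intro x y
    simp only [Finset.mem_erase]
    constructor
    · rintro ⟨h3, h4, h5⟩
      exact ⟨⟨fun e => h4 e.symm, h3⟩, h5⟩
    · rintro ⟨⟨h3, h4⟩, h5⟩
      exact ⟨h4, fun e => h3 e.symm, h5⟩
  rw [h2]
  refine Finset.sum_eq_zero fun x _ => ?_
  exact sum_antisymm (Z.erase x) (fun z j => phi D ((Z.erase x).erase z) ((Z.erase x).erase j))
    (fun x _ y _ _ => phi_neg D _ _)

/-! ### bounds -/

theorem abs_term (A M : Finset (P h)) (t : Finset (Fin h) × Bool) (ht : t ∈ T h r) :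
    |(if A = full t.1 ∧ M = mid D t.1 t.2 then D.sg t.1 / 2 else 0)| ≤ (1 / 2 : ℚ) := by
  rw [mem_T] at ht
  by_cases e : A = full t.1 ∧ M = mid D t.1 t.2
  · rw [if_pos e]
    rcases D.sg_pm _ ht with h1 | h1 <;> rw [h1] <;> norm_num
  · rw [if_neg e]; norm_num

theorem term_ne {A M : Finset (P h)} {t : Finset (Fin h) × Bool}
    (ht : (if A = full t.1 ∧ M = mid D t.1 t.2 then D.sg t.1 / 2 else 0) ≠ 0) :
    A = full t.1 ∧ M = mid D t.1 t.2 := by
  by_contra e
  rw [if_neg e] at ht
  exact ht rfl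

/-- the exchanged points of an edge -/
theorem edge_left {W : Finset (Fin h)} (hW : W.card = r) {b : Bool} {A : Finset (P h)}
    {i j : P h} (hi : i ∉ A) (hj : j ∈ A) (e1 : A = full W)
    (e2 : insert i (A.erase j) = mid D W b) : i = (D.n W, b) ∧ j = (D.o W, b) := by
  have h2 := D.o_mem W hW
  have h3 := D.n_mem W hW
  have h4 : D.o W ≠ D.n W := fun e => h3 (e ▸ h2)
  subst e1
  rw [mem_full] at hi hj
  have hi' : i ∈ mid D W b := by rw [← e2]; exact Finset.mem_insert_self _ _
  rw [mem_mid] at hi'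
  have hii : i = (D.n W, b) := by
    rcases hi' with h5 | h5
    · exact h5
    · exact absurd h5.2 hi
  refine ⟨hii, ?_⟩
  by_contra hne
  have hj' : j ∈ mid D W b := by
    rw [mem_mid]; exact Or.inr ⟨hne, hj⟩
  rw [← e2, Finset.mem_insert, Finset.mem_erase] at hj'
  rcases hj' with h5 | h5
  · subst h5
    exact hi hj
  · exact h5.1 rfl

theorem edge_right {W : Finset (Fin h)} (hW : W.card = r) {b : Bool} {A : Finset (P h)}
    {i j : P h} (hi : i ∉ A) (hj : j ∈ A) (e1 : insert i (A.erase j) = full W)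
    (e2 : A = mid D W b) : i = (D.o W, b) ∧ j = (D.n W, b) := by
  have h2 := D.o_mem W hW
  have h3 := D.n_mem W hW
  have h4 : D.o W ≠ D.n W := fun e => h3 (e ▸ h2)
  have hjW : j ∉ full W := by
    rw [← e1, Finset.mem_insert, Finset.mem_erase]
    rintro (h5 | h5)
    · exact hi (h5 ▸ hj)
    · exact h5.1 rfl
  have hiW : i ∈ full W := by rw [← e1]; exact Finset.mem_insert_self _ _
  rw [mem_full] at hjW hiW
  rw [e2, mem_mid] at hi hj
  constructor
  · by_contra hne
    exact hi (Or.inr ⟨hne, hiW⟩)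
  · rcases hj with h5 | h5
    · exact h5
    · exact absurd h5.2 hjW

theorem un_mid {W : Finset (Fin h)} (hW : W.card = r) (b : Bool) : un (mid D W b) ≠ 0 := by
  have h3 := D.n_mem W hW
  have h1 : (D.n W, b) ∈ mid D W b := by rw [mem_mid]; exact Or.inl rfl
  have h2 : bar (D.n W, b) ∉ mid D W b := by
    rw [mem_mid]
    rintro (e | ⟨_, e⟩)
    · have e' := congrArg Prod.snd e
      simp [bar] at e'
    · exact h3 e
  have := un_pos h1 h2
  omega

theorem th_bA {B : Finset (P h)} {b : P h} (hb : b ∈ B) : |thA D B b| ≤ 1 / 2 := by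
  set S1 : ℚ := ∑ p ∈ Bᶜ ×ˢ T h r, (if B = full p.2.1 ∧ insert p.1 (B.erase b) =
    mid D p.2.1 p.2.2 then D.sg p.2.1 / 2 else 0) with hS1
  set S2 : ℚ := ∑ p ∈ Bᶜ ×ˢ T h r, (if insert p.1 (B.erase b) = full p.2.1 ∧ B =
    mid D p.2.1 p.2.2 then D.sg p.2.1 / 2 else 0) with hS2
  have e0 : thA D B b = S1 - S2 := by
    rw [hS1, hS2, Finset.sum_product, Finset.sum_product, ← Finset.sum_sub_distrib]
    rfl
  have b1 : |S1| ≤ 1 / 2 := by
    refine abs_sum_le_of_unique _ _ _ (by norm_num) ?_ ?_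
    · rintro ⟨i, t⟩ hp
      rw [Finset.mem_product] at hp
      exact abs_term D B (insert i (B.erase b)) t hp.2
    · rintro ⟨i, ⟨W, q⟩⟩ hp ⟨i', ⟨W', q'⟩⟩ hp' hne hne'
      rw [Finset.mem_product, Finset.mem_compl, mem_T] at hp hp'
      obtain ⟨e1, e2⟩ := term_ne D hne
      obtain ⟨e1', e2'⟩ := term_ne D hne'
      simp only at hp hp' e1 e2 e1' e2'
      have hWW : W = W' := full_inj (e1.symm.trans e1')
      subst hWW
      obtain ⟨h1, h2⟩ := edge_left D hp.2 hp.1 hb e1 e2
      obtain ⟨h1', h2'⟩ := edge_left D hp'.2 hp'.1 hb e1' e2'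
      have hq : q = q' := congrArg Prod.snd (h2.symm.trans h2')
      subst hq
      rw [h1, h1']
  have b2 : |S2| ≤ 1 / 2 := by
    refine abs_sum_le_of_unique _ _ _ (by norm_num) ?_ ?_
    · rintro ⟨i, t⟩ hp
      rw [Finset.mem_product] at hp
      exact abs_term D (insert i (B.erase b)) B t hp.2
    · rintro ⟨i, ⟨W, q⟩⟩ hp ⟨i', ⟨W', q'⟩⟩ hp' hne hne'
      rw [Finset.mem_product, Finset.mem_compl, mem_T] at hp hp'
      obtain ⟨e1, e2⟩ := term_ne D hne
      obtain ⟨e1', e2'⟩ := term_ne D hne'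
      simp only at hp hp' e1 e2 e1' e2'
      obtain ⟨h1, h2⟩ := edge_right D hp.2 hp.1 hb e1 e2
      obtain ⟨h1', h2'⟩ := edge_right D hp'.2 hp'.1 hb e1' e2'
      have hq : q = q' := congrArg Prod.snd (h2.symm.trans h2')
      subst hq
      have ho : D.o W = D.o W' := by
        by_contra hno
        have k1 : (D.o W, !q) ∈ insert i (B.erase b) := by
          rw [e1, mem_full]; exact D.o_mem W hp.2
        have k2 : (D.o W, !q) ∈ B.erase b := by
          rcases Finset.mem_insert.1 k1 with k | k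
          · rw [h1] at k
            have k' := congrArg Prod.snd k
            simp at k'
          · exact k
        have k3 : (D.o W, !q) ∈ full W' := by
          rw [← e1']; exact Finset.mem_insert_of_mem k2
        have k4 : (D.o W, q) ∈ insert i' (B.erase b) := by
          rw [e1', mem_full]
          exact (mem_full.1 k3 : (D.o W) ∈ W')
        rcases Finset.mem_insert.1 k4 with k | k
        · rw [h1'] at k
          exact hno (congrArg Prod.fst k)
        · rw [← h1] at k
          exact hp.1 (Finset.mem_of_mem_erase k)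
      have hi : i = i' := by rw [h1, h1', ho]
      subst hi
      have hWW : W = W' := full_inj (e1.symm.trans e1')
      rw [hWW]
  by_cases hu : un B = 0
  · have z : S2 = 0 := by
      refine Finset.sum_eq_zero fun p hp => ?_
      rw [Finset.mem_product, mem_T] at hp
      rw [if_neg]
      rintro ⟨_, e⟩
      rw [e] at hu
      exact un_mid D hp.2 _ hu
    rw [e0, z, sub_zero]
    exact b1
  · have z : S1 = 0 := by
      refine Finset.sum_eq_zero fun p hp => ?_
      rw [if_neg]
      rintro ⟨e, _⟩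
      rw [e] at hu
      exact hu (un_full _)
    rw [e0, z, zero_sub, abs_neg]
    exact b2

theorem second_aux {W W' : Finset (Fin h)} (hW : W.card = r) (hW' : W'.card = r) {b : Bool}
    {X : Finset (P h)} {x x' : P h} (e : X.erase x = mid D W b) (e' : X.erase x' = mid D W' b)
    (ho : D.o W = D.o W') (hne : W ≠ W') : x = (D.n W, !b) := by
  obtain ⟨w, hw', hw⟩ : ∃ w ∈ W', w ∉ W := by
    by_contra hcon
    push Not at hcon
    exact hne (Finset.eq_of_subset_of_card_le hcon (by omega)).symm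
  have k0 : w ≠ D.o W' := by
    intro k
    rw [← ho] at k
    exact hw (k ▸ D.o_mem W hW)
  have k1 : ∀ q : Bool, (w, q) ∈ X := by
    intro q
    have k2 : (w, q) ∈ mid D W' b := by
      rw [mem_mid]
      exact Or.inr ⟨fun k => k0 (congrArg Prod.fst k), hw'⟩
    rw [← e'] at k2
    exact Finset.mem_of_mem_erase k2
  have k3 : ∀ q : Bool, (w, q) = x ∨ (w, q) = (D.n W, b) := by
    intro q
    by_cases k : (w, q) = x
    · exact Or.inl k
    · have k4 : (w, q) ∈ X.erase x := Finset.mem_erase.2 ⟨k, k1 q⟩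
      rw [e, mem_mid] at k4
      rcases k4 with k5 | k5
      · exact Or.inr k5
      · exact absurd k5.2 hw
  have k4 : x = (w, !b) := by
    rcases k3 (!b) with k | k
    · exact k.symm
    · have k' := congrArg Prod.snd k
      simp at k'
  have k5 : w = D.n W := by
    rcases k3 b with k | k
    · rw [k4] at k
      have k' := congrArg Prod.snd k
      simp at k'
    · exact congrArg Prod.fst k
  rw [k4, k5]

theorem second_full {W : Finset (Fin h)} (hW : W.card = r) {b : Bool} {X : Finset (P h)}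
    {x : P h} (hx : x ∈ X) (e : X.erase x = mid D W b) (hxx : x = (D.n W, !b)) :
    insert (D.o W, b) X = full (insert (D.n W) W) := by
  have h2 := D.o_mem W hW
  have h3 := D.n_mem W hW
  have k : ∀ p, p ∈ X ↔ p = x ∨ p ∈ mid D W b := by
    intro p
    rw [← e, Finset.mem_erase]
    constructor
    · intro hp
      by_cases k : p = x
      · exact Or.inl k
      · exact Or.inr ⟨k, hp⟩
    · rintro (k | k)
      · rw [k]; exact hx
      · exact k.2
  ext ⟨p, q⟩
  rw [Finset.mem_insert, k, mem_full, mem_mid, Finset.mem_insert, hxx]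
  constructor
  · rintro (k1 | k1 | k1 | k1)
    · have k2 : p = D.o W := congrArg Prod.fst k1
      right
      show p ∈ W
      rw [k2]; exact h2
    · exact Or.inl (congrArg Prod.fst k1)
    · exact Or.inl (congrArg Prod.fst k1)
    · exact Or.inr k1.2
  · rintro (k1 | k1)
    · have k2 : p = D.n W := k1
      by_cases k3 : q = b
      · exact Or.inr (Or.inr (Or.inl (by rw [k2, k3])))
      · refine Or.inr (Or.inl ?_)
        rw [k2]
        refine Prod.ext rfl ?_
        show q = !b
        revert k3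
        cases q <;> cases b <;> simp
    · by_cases k3 : (p, q) = (D.o W, b)
      · exact Or.inl k3
      · exact Or.inr (Or.inr (Or.inr ⟨k3, k1⟩))

theorem ps_bA {X : Finset (P h)} {i : P h} (hi : i ∉ X) : |psA D X i| ≤ 3 := by
  set S1 : ℚ := ∑ p ∈ (X.sigma fun x => X.erase x) ×ˢ T h r,
    (if X.erase p.1.1 = full p.2.1 ∧ insert i ((X.erase p.1.1).erase p.1.2) =
    mid D p.2.1 p.2.2 then D.sg p.2.1 / 2 else 0) with hS1
  set S2 : ℚ := ∑ p ∈ (X.sigma fun x => X.erase x) ×ˢ T h r,
    (if insert i ((X.erase p.1.1).erase p.1.2) = full p.2.1 ∧ X.erase p.1.1 =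
    mid D p.2.1 p.2.2 then D.sg p.2.1 / 2 else 0) with hS2
  have e0 : psA D X i = S1 - S2 := by
    rw [hS1, hS2, Finset.sum_product, Finset.sum_product, ← Finset.sum_sub_distrib,
      Finset.sum_sigma]
    rfl
  have b1 : |S1| ≤ 1 / 2 := by
    refine abs_sum_le_of_unique _ _ _ (by norm_num) ?_ ?_
    · rintro ⟨⟨x, j⟩, t⟩ hp
      rw [Finset.mem_product] at hp
      exact abs_term D (X.erase x) (insert i ((X.erase x).erase j)) t hp.2
    · rintro ⟨⟨x, j⟩, ⟨W, q⟩⟩ hp ⟨⟨x', j'⟩, ⟨W', q'⟩⟩ hp' hne hne'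
      rw [Finset.mem_product, Finset.mem_sigma, mem_T] at hp hp'
      obtain ⟨e1, e2⟩ := term_ne D hne
      obtain ⟨e1', e2'⟩ := term_ne D hne'
      simp only at hp hp' e1 e2 e1' e2'
      have hiA : i ∉ X.erase x := fun k => hi (Finset.mem_of_mem_erase k)
      have hiA' : i ∉ X.erase x' := fun k => hi (Finset.mem_of_mem_erase k)
      obtain ⟨h1, h2⟩ := edge_left D hp.2 hiA hp.1.2 e1 e2
      obtain ⟨h1', h2'⟩ := edge_left D hp'.2 hiA' hp'.1.2 e1' e2'
      have hq : q = q' := congrArg Prod.snd (h1.symm.trans h1')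
      subst hq
      have hx : x = x' := by
        by_contra hno
        have k1 : x' ∈ X.erase x := Finset.mem_erase.2 ⟨fun k => hno k.symm, hp'.1.1⟩
        have k2 : bar x' ∈ X.erase x := by
          rw [e1, mem_full] at k1 ⊢
          exact k1
        have k3 : bar x' ∈ X.erase x' :=
          Finset.mem_erase.2 ⟨bar_ne x', Finset.mem_of_mem_erase k2⟩
        have k4 : x' ∈ X.erase x' := by
          rw [e1', mem_full] at k3 ⊢
          exact k3
        exact (Finset.mem_erase.1 k4).1 rfl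
      subst hx
      have hWW : W = W' := full_inj (e1.symm.trans e1')
      subst hWW
      rw [h2, h2']
  have b2 : |S2| ≤ 1 / 2 := by
    refine abs_sum_le_of_unique _ _ _ (by norm_num) ?_ ?_
    · rintro ⟨⟨x, j⟩, t⟩ hp
      rw [Finset.mem_product] at hp
      exact abs_term D (insert i ((X.erase x).erase j)) (X.erase x) t hp.2
    · rintro ⟨⟨x, j⟩, ⟨W, q⟩⟩ hp ⟨⟨x', j'⟩, ⟨W', q'⟩⟩ hp' hne hne'
      rw [Finset.mem_product, Finset.mem_sigma, mem_T] at hp hp'
      obtain ⟨e1, e2⟩ := term_ne D hne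
      obtain ⟨e1', e2'⟩ := term_ne D hne'
      simp only at hp hp' e1 e2 e1' e2'
      have hiA : i ∉ X.erase x := fun k => hi (Finset.mem_of_mem_erase k)
      have hiA' : i ∉ X.erase x' := fun k => hi (Finset.mem_of_mem_erase k)
      obtain ⟨h1, h2⟩ := edge_right D hp.2 hiA hp.1.2 e1 e2
      obtain ⟨h1', h2'⟩ := edge_right D hp'.2 hiA' hp'.1.2 e1' e2'
      have hq : q = q' := congrArg Prod.snd (h1.symm.trans h1')
      subst hq
      have ho : D.o W = D.o W' := congrArg Prod.fst (h1.symm.trans h1')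
      have hWW : W = W' := by
        by_contra hno
        have k1 := second_aux D hp.2 hp'.2 e2 e2' ho hno
        have k2 := second_aux D hp'.2 hp.2 e2' e2 ho.symm (fun k => hno k.symm)
        have k3 := second_full D hp.2 hp.1.1 e2 k1
        have k4 := second_full D hp'.2 hp'.1.1 e2' k2
        rw [← ho, k3] at k4
        have k5 := full_inj k4
        have k6 : ∀ V : Finset (Fin h), V.card = r →
            D.io V = (insert (D.n V) V).erase (D.o V) := by
          intro V hV
          rw [D.io_eq V hV]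
          have h2 := D.o_mem V hV
          have h3 := D.n_mem V hV
          have h4 : D.n V ≠ D.o V := fun e => h3 (e ▸ h2)
          rw [Finset.erase_insert_of_ne h4]
        have k7 : D.io W = D.io W' := by
          rw [k6 W hp.2, k6 W' hp'.2, k5, ho]
        apply hno
        rw [← D.io_io W hp.2, ← D.io_io W' hp'.2, k7]
      subst hWW
      have hx : x = x' := by
        by_contra hno
        have k1 : x' ∈ X.erase x := Finset.mem_erase.2 ⟨fun k => hno k.symm, hp'.1.1⟩
        rw [e2, ← e2'] at k1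
        exact (Finset.mem_erase.1 k1).1 rfl
      subst hx
      rw [h2, h2']
  rw [e0]
  calc |S1 - S2| ≤ |S1| + |S2| := abs_sub _ _
    _ ≤ 3 := by linarith

end SigAux

theorem sig_even (h : ℕ) (he : Even h) (hh : 2 ≤ h) : Nonempty (SigData h) := by
  refine ⟨⟨fun _ => 0, fun _ _ => 0, fun _ _ => 0, ?_, ?_, ?_, ?_, ?_, ?_, ?_, ?_, ?_⟩⟩
  · intro X hX hu
    exfalso
    obtain ⟨m, hm⟩ := un_parity X
    obtain ⟨k, hk⟩ := he
    omega
  · intro X _; rfl
  · intro X _; simp [dn]
  · intro Z _; simp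
  · intro X i _ _; simp
  · intro B _; simp
  · intro B _; simp
  · intro B b _ _; simp
  · intro B b _ _ _; rfl

theorem sig_odd (h r : ℕ) (hr : h = 2 * r + 1) (he : Even (Nat.choose h r)) :
    Nonempty (SigData h) := by
  obtain ⟨D⟩ := SigAux.exists_io h r hr he
  refine ⟨⟨SigAux.sigma D, SigAux.psA D, SigAux.thA D, ?_, ?_, ?_, ?_, ?_, ?_, ?_, ?_, ?_⟩⟩
  · intro X hX hu
    have e1 := SigAux.eq_full hu
    have h1 := SigAux.card_full (X.image Prod.fst)
    rw [← e1] at h1
    have h2 : (X.image Prod.fst).card = r := by omega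
    have h3 : SigAux.sigma D X = D.sg (X.image Prod.fst) := by
      unfold SigAux.sigma
      rw [Finset.sum_eq_single_of_mem (X.image Prod.fst) (by simp [h2])]
      · rw [if_pos e1]
      · intro W _ hne
        rw [if_neg]
        intro e
        exact hne (SigAux.full_inj (e.symm.trans e1))
    rw [h3]
    exact D.sg_pm _ h2
  · intro X hu
    unfold SigAux.sigma
    refine Finset.sum_eq_zero fun W _ => ?_
    rw [if_neg]
    intro e
    rw [e] at hu
    exact hu (SigAux.un_full W)
  · intro X _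
    exact SigAux.ps_sumA D X
  · intro Z _
    exact SigAux.ps_erA D Z
  · intro X i _ hi
    exact SigAux.ps_bA D hi
  · intro B _
    exact SigAux.th_sumA D B
  · intro B _
    exact SigAux.th_insA D B
  · intro B b _ hb
    exact SigAux.th_bA D hb
  · intro B b hB _ hu
    exfalso
    obtain ⟨m, hm⟩ := un_parity B
    omega

end OddGr75
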