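import Pool.Agent.OddGr75.Rho
import Pool.Agent.OddGr75.Odd
import Pool.Agent.OddGr75.Even
import Pool.Agent.OddGr75.Sig
import Pool.Agent.OddGr75.Par
import Pool.Agent.OddGr75.K5
import Pool.Agent.OddGr75.K6

/-!
# MP_d22128_co, helper75: final assembly.
-/

set_option autoImplicit false

namespace OddGr75

theorem final (k : ℕ) (hk : 2 ≤ k)
    (hc : ¬ (SimpleGraph.fromRel
            (fun s t : {s : Finset (Fin (2 * k - 1)) // s.card = k - 1} =>
              Disjoint s.1 t.1)).lineGraph.Colorable k) :
    k = 3 ∨ ∃ n : ℕ, k = 2 ^ n := by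
  by_contra hcon
  push Not at hcon
  obtain ⟨h3, h2⟩ := hcon
  apply hc
  clear hc
  rcases Nat.even_or_odd k with he | ho
  · obtain ⟨m, hm⟩ := he
    obtain ⟨h, rfl⟩ : ∃ h, m = h + 1 := ⟨m - 1, by omega⟩
    have hkk : k = 2 * h + 2 := by omega
    clear hm
    have hm2 : ∀ n : ℕ, h + 1 ≠ 2 ^ n := by
      intro n hn
      exact h2 (n + 1) (by rw [hkk, pow_succ]; omega)
    subst hkk
    have h0 : h ≠ 0 := fun e => hm2 0 (by simp [e])
    have h1 : h ≠ 1 := fun e => hm2 1 (by simp [e])
    have h3' : h ≠ 3 := fun e => hm2 2 (by simp [e])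
    by_cases h2' : h = 2
    · subst h2'
      exact k6
    · have h4 : 4 ≤ h := by omega
      obtain ⟨D⟩ := exists_rho h (by omega)
      rcases Nat.even_or_odd h with hhe | hho
      · obtain ⟨S⟩ := sig_even h hhe (by omega)
        exact even_case h h4 D S
      · obtain ⟨r, hr⟩ := hho
        obtain ⟨S⟩ := sig_odd h r hr (by
          subst hr
          apply choose_even
          intro n hn
          exact hm2 n (by omega))
        exact even_case h h4 D S
  · obtain ⟨h, hh⟩ := ho
    subst hh
    by_cases h2' : h = 2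
    · subst h2'
      exact k5
    · have h0 : h ≠ 0 := by omega
      have h1 : h ≠ 1 := by
        intro e
        subst e
        exact h3 rfl
      obtain ⟨D⟩ := exists_rho h (by omega)
      exact odd_case h (by omega) D

end OddGr75
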