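import Pool.Agent.OddGr75.Round

/-!
# Module OG-KONIG (MP_d22128_co, helper75): Koenig's edge colouring theorem, regular case.

`x : L → R → Bool` with all row and column sums equal to `d` is the disjoint union of `d` perfect
matchings: there is `C : L → R → ℕ` with `C i j < d` where `x i j`, injective on the rows and on
the columns of `x`.
Proof: induction on `d`. `d = 0`: nothing. `d + 1`: `frac_hall` for
`M i j = if x i j then 1/(d+1) else 0` gives `f : L ≃ R` with `x i (f i)`. The matrix
`x' i j = x i j && (j ≠ f i)` has row and column sums `d`; colour it by the induction hypothesis and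
give the entries `(i, f i)` the colour `d`.

`graph_konig`: the graph form. `H` a symmetric relation on `V`, `s : V → Bool` different at the two
ends of every edge, all degrees `d`. Apply the matrix form to `L = {v // s v = false}`,
`R = {v // s v = true}`; `C u v` is the colour of the pair (the end with `s = false` first).
-/

set_option autoImplicit false

namespace OddGr75

theorem mat_konig (d : ℕ) : ∀ {L R : Type} [Fintype L] [Fintype R] [DecidableEq L] [DecidableEq R]
    (x : L → R → Bool),
    (∀ i, (Finset.univ.filter (fun j => x i j = true)).card = d) →
    (∀ j, (Finset.univ.filter (fun i => x i j = true)).card = d) →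
    ∃ C : L → R → ℕ, (∀ i j, x i j = true → C i j < d) ∧
      (∀ i j j', x i j = true → x i j' = true → C i j = C i j' → j = j') ∧
      (∀ i i' j, x i j = true → x i' j = true → C i j = C i' j → i = i') := by
  induction d with
  | zero =>
    intro L R _ _ _ _ x hr hc
    have key : ∀ i j, x i j = true → False := by
      intro i j hij
      have h1 := hr i
      rw [Finset.card_eq_zero] at h1
      have : j ∈ Finset.univ.filter (fun j => x i j = true) := by simp [hij]
      rw [h1] at this
      exact absurd this (Finset.notMem_empty _)
    exact ⟨fun _ _ => 0, fun i j hij => (key i j hij).elim,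
      fun i j j' hij _ _ => (key i j hij).elim, fun i i' j hij _ _ => (key i j hij).elim⟩
  | succ d ih =>
    intro L R _ _ _ _ x hr hc
    have hd0 : ((d : ℚ) + 1) ≠ 0 := by positivity
    obtain ⟨f, hf⟩ := frac_hall (fun i j => if x i j = true then (1 : ℚ) / (d + 1) else 0)
      (by
        intro i j
        split_ifs <;> positivity)
      (by
        intro i
        rw [← Finset.sum_filter, Finset.sum_const, hr i, nsmul_eq_mul]
        push_cast
        field_simp)
      (by
        intro j
        rw [← Finset.sum_filter, Finset.sum_const, hc j, nsmul_eq_mul]
        push_cast
        field_simp)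
    have hxf : ∀ i, x i (f i) = true := by
      intro i
      have := hf i
      by_contra hne
      rw [if_neg hne] at this
      exact lt_irrefl _ this
    obtain ⟨C, h1, h2, h3⟩ := ih (fun i j => x i j && decide (j ≠ f i))
      (by
        intro i
        have e : Finset.univ.filter (fun j => (x i j && decide (j ≠ f i)) = true)
            = (Finset.univ.filter (fun j => x i j = true)).erase (f i) := by
          ext j
          simp [and_comm]
        rw [e, Finset.card_erase_of_mem (by simp [hxf i]), hr i]
        rfl)
      (by
        intro j
        have e : Finset.univ.filter (fun i => (x i j && decide (j ≠ f i)) = true)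
            = (Finset.univ.filter (fun i => x i j = true)).erase (f.symm j) := by
          ext i
          simp only [Finset.mem_filter, Finset.mem_univ, true_and, Bool.and_eq_true,
            decide_eq_true_eq, Finset.mem_erase, ne_eq]
          rw [Equiv.eq_symm_apply, and_comm]
          constructor
          · rintro ⟨a, b⟩
            exact ⟨fun h => a h.symm, b⟩
          · rintro ⟨a, b⟩
            exact ⟨fun h => a h.symm, b⟩
        have hm : x (f.symm j) j = true := by
          have := hxf (f.symm j)
          rwa [Equiv.apply_symm_apply] at this
        rw [e, Finset.card_erase_of_mem (by simp [hm]), hc j]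
        rfl)
    have hx' : ∀ i j, x i j = true → j ≠ f i → (x i j && decide (j ≠ f i)) = true := by
      intro i j h4 h5
      simp [h4, h5]
    refine ⟨fun i j => if j = f i then d else C i j, ?_, ?_, ?_⟩
    · intro i j hij
      by_cases h4 : j = f i
      · simp [h4]
      · simp only [h4, if_false]
        exact (h1 i j (hx' i j hij h4)).trans (Nat.lt_succ_self d)
    · intro i j j' hij hij' he
      replace he : (if j = f i then d else C i j) = (if j' = f i then d else C i j') := he
      by_cases h4 : j = f i
      · by_cases h5 : j' = f i
        · rw [h4, h5]
        · rw [if_pos h4, if_neg h5] at he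
          have := h1 i j' (hx' i j' hij' h5)
          omega
      · by_cases h5 : j' = f i
        · rw [if_neg h4, if_pos h5] at he
          have := h1 i j (hx' i j hij h4)
          omega
        · rw [if_neg h4, if_neg h5] at he
          exact h2 i j j' (hx' i j hij h4) (hx' i j' hij' h5) he
    · intro i i' j hij hij' he
      replace he : (if j = f i then d else C i j) = (if j = f i' then d else C i' j) := he
      by_cases h4 : j = f i
      · by_cases h5 : j = f i'
        · exact f.injective (h4.symm.trans h5)
        · rw [if_pos h4, if_neg h5] at he
          have := h1 i' j (hx' i' j hij' h5)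
          omega
      · by_cases h5 : j = f i'
        · rw [if_neg h4, if_pos h5] at he
          have := h1 i j (hx' i j hij h4)
          omega
        · rw [if_neg h4, if_neg h5] at he
          exact h3 i i' j (hx' i j hij h4) (hx' i' j hij' h5) he

theorem Konig_card {V : Type} [Fintype V] [DecidableEq V] (p : V → Prop) [DecidablePred p]
    (q : V → Prop) [DecidablePred q] (hpq : ∀ v, q v → p v) :
    (Finset.univ.filter (fun j : {v // p v} => q j.1)).card
      = (Finset.univ.filter (fun v => q v)).card := by
  have e : (Finset.univ.filter (fun v => q v))
      = (Finset.univ.filter (fun j : {v // p v} => q j.1)).image Subtype.val := by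
    ext v
    simp only [Finset.mem_filter, Finset.mem_univ, true_and, Finset.mem_image, Subtype.exists,
      exists_and_right, exists_eq_right]
    constructor
    · intro hq
      exact ⟨hpq v hq, hq⟩
    · rintro ⟨_, hq⟩
      exact hq
  rw [e, Finset.card_image_of_injective _ Subtype.val_injective]

theorem graph_konig {V : Type} [Fintype V] [DecidableEq V] (H : V → V → Prop) [DecidableRel H]
    (s : V → Bool) (d : ℕ) (hsym : ∀ u v, H u v → H v u) (hs : ∀ u v, H u v → s u ≠ s v)
    (hd : ∀ u, (Finset.univ.filter (fun v => H u v)).card = d) :
    ∃ C : V → V → ℕ, (∀ u v, C u v = C v u) ∧ (∀ u v, H u v → C u v < d) ∧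
      (∀ u v w, H u v → H u w → C u v = C u w → v = w) := by
  obtain ⟨C, h1, h2, h3⟩ := mat_konig d
    (fun (i : {v // s v = false}) (j : {v // s v = true}) => decide (H i.1 j.1))
    (by
      intro i
      have := Konig_card (fun v => s v = true) (fun v => H i.1 v) (by
        intro v hv
        have := hs _ _ hv
        rw [i.2] at this
        cases h : s v
        · exact absurd h.symm this
        · rfl)
      simp only [decide_eq_true_eq]
      rw [this]
      exact hd i.1)
    (by
      intro j
      have := Konig_card (fun v => s v = false) (fun v => H v j.1) (by
        intro v hv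
        have := hs _ _ hv
        rw [j.2] at this
        cases h : s v
        · rfl
        · exact absurd h this)
      simp only [decide_eq_true_eq]
      rw [this]
      have e : (Finset.univ.filter (fun v => H v j.1)) = Finset.univ.filter (fun v => H j.1 v) := by
        ext v
        simp only [Finset.mem_filter, Finset.mem_univ, true_and]
        exact ⟨hsym _ _, hsym _ _⟩
      rw [e]
      exact hd j.1)
  simp only [decide_eq_true_eq] at h1 h2 h3
  let D : V → V → ℕ := fun u v =>
    if hu : s u = false then (if hv : s v = true then C ⟨u, hu⟩ ⟨v, hv⟩ else 0) else 0
  have hD : ∀ u v (hu : s u = false) (hv : s v = true), D u v = C ⟨u, hu⟩ ⟨v, hv⟩ := by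
    intro u v hu hv
    simp only [D, hu, hv, dif_pos]
  have hD0 : ∀ u v, s u = true → D u v = 0 := by
    intro u v hu
    have : ¬ s u = false := by simp [hu]
    simp only [D, dif_neg this]
  have hD1 : ∀ u v, s v = false → D u v = 0 := by
    intro u v hv
    have : ¬ s v = true := by simp [hv]
    by_cases hu : s u = false
    · simp only [D, dif_pos hu, dif_neg this]
    · simp only [D, dif_neg hu]
  refine ⟨fun u v => D u v + D v u, fun u v => add_comm _ _, ?_, ?_⟩
  · intro u v huv
    have hne := hs u v huv
    cases hu : s u
    · have hv : s v = true := by
        cases hv : s v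
        · exact absurd (hu.trans hv.symm) hne
        · rfl
      simp only
      rw [hD0 v u hv, hD u v hu hv, add_zero]
      exact h1 ⟨u, hu⟩ ⟨v, hv⟩ huv
    · have hv : s v = false := by
        cases hv : s v
        · rfl
        · exact absurd (hu.trans hv.symm) hne
      simp only
      rw [hD0 u v hu, hD v u hv hu, zero_add]
      exact h1 ⟨v, hv⟩ ⟨u, hu⟩ (hsym _ _ huv)
  · intro u v w huv huw he
    have hnev := hs u v huv
    have hnew := hs u w huw
    cases hu : s u
    · have hv : s v = true := by
        cases hv : s v
        · exact absurd (hu.trans hv.symm) hnev
        · rfl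
      have hw : s w = true := by
        cases hw : s w
        · exact absurd (hu.trans hw.symm) hnew
        · rfl
      simp only at he
      rw [hD0 v u hv, hD u v hu hv, hD0 w u hw, hD u w hu hw, add_zero, add_zero] at he
      have := h2 ⟨u, hu⟩ ⟨v, hv⟩ ⟨w, hw⟩ huv huw he
      exact congrArg Subtype.val this
    · have hv : s v = false := by
        cases hv : s v
        · rfl
        · exact absurd (hu.trans hv.symm) hnev
      have hw : s w = false := by
        cases hw : s w
        · rfl
        · exact absurd (hu.trans hw.symm) hnew
      simp only at he
      rw [hD0 u v hu, hD v u hv hu, hD0 u w hu, hD w u hw hu, zero_add, zero_add] at he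
      have := h3 ⟨v, hv⟩ ⟨w, hw⟩ ⟨u, hu⟩ (hsym _ _ huv) (hsym _ _ huw) he
      exact congrArg Subtype.val this

end OddGr75
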