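import Pool.Agent.OddGr75.Trans

/-!
# MP_d22128_co, helper75: kernel-checkable colouring tables (used for k = 5, 6).

A set `s` of points is coded by `msk s = ∑ 2^i`; the table `T` contains for every mask `m` a row of
`w` bits with the colours (3 bits each) of the edges at `m`, indexed by the missing point.
-/

set_option autoImplicit false

namespace OddGr75

def mrow (T w m : ℕ) : ℕ := (T >>> (w * m)) % 2 ^ w

def mcol (T w m x : ℕ) : ℕ := (mrow T w m >>> (3 * x)) % 8

def mpop (n m : ℕ) : ℕ := ((List.range n).filter (fun i => m.testBit i)).length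

def mchk1 (T w n k m : ℕ) : Bool :=
  (List.range n).all (fun x => m.testBit x ||
    (Nat.blt (mcol T w m x) k && Nat.beq (mcol T w (2 ^ n - 1 - m - 2 ^ x) x) (mcol T w m x) &&
      (List.range n).all (fun y => m.testBit y || !(Nat.beq (mcol T w m x) (mcol T w m y)) ||
        Nat.beq x y)))

def mchk (T w n k : ℕ) : Bool :=
  (List.range (2 ^ n)).all (fun m => !(Nat.beq (mpop n m) (k - 1)) || mchk1 T w n k m)

def msk {n : ℕ} (s : Finset (Fin n)) : ℕ := ∑ i ∈ s, 2 ^ (i : ℕ)

theorem msk_testBit {n : ℕ} (s : Finset (Fin n)) (x : Fin n) :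
    (msk s).testBit x = true ↔ x ∈ s := by
  have e : msk s = ∑ i ∈ s.map Fin.valEmbedding, 2 ^ i := by
    simp [msk, Finset.sum_map]
  rw [← Nat.mem_bitIndices, ← List.mem_toFinset, e, Finset.toFinset_bitIndices_sum_two_pow]
  simp [Fin.val_inj]

theorem msk_univ (n : ℕ) : msk (Finset.univ : Finset (Fin n)) + 1 = 2 ^ n := by
  have : msk (Finset.univ : Finset (Fin n)) = ∑ i ∈ Finset.range n, 2 ^ i := by
    rw [msk, Finset.sum_range]
  rw [this, Nat.geomSum_eq (le_refl 2)]
  have : 1 ≤ 2 ^ n := Nat.one_le_two_pow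
  omega

theorem msk_compl {n : ℕ} (s : Finset (Fin n)) : msk s + msk sᶜ + 1 = 2 ^ n := by
  rw [← msk_univ n, msk, msk, msk, Finset.sum_add_sum_compl]

theorem msk_erase {n : ℕ} (s : Finset (Fin n)) (x : Fin n) (hx : x ∈ s) :
    msk (s.erase x) + 2 ^ (x : ℕ) = msk s := by
  rw [msk, msk, Finset.sum_erase_add _ _ hx]

theorem msk_lt {n : ℕ} (s : Finset (Fin n)) : msk s < 2 ^ n := by
  have := msk_compl s
  omega

theorem mpop_msk {n : ℕ} (s : Finset (Fin n)) : mpop n (msk s) = s.card := by
  have e : s.map Fin.valEmbedding =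
      ((List.range n).filter (fun i => (msk s).testBit i)).toFinset := by
    ext i
    simp only [Finset.mem_map, Fin.valEmbedding_apply, List.mem_toFinset, List.mem_filter,
      List.mem_range]
    constructor
    · rintro ⟨a, ha, rfl⟩
      exact ⟨a.2, (msk_testBit s a).2 ha⟩
    · rintro ⟨hi, ht⟩
      exact ⟨⟨i, hi⟩, (msk_testBit s ⟨i, hi⟩).1 ht, rfl⟩
  rw [← Finset.card_map Fin.valEmbedding, e, List.toFinset_card_of_nodup, mpop]
  exact List.Nodup.filter _ (List.nodup_range)

theorem colorable_of_mchk (k T w : ℕ) (hk : 2 ≤ k) (hT : mchk T w (2 * k - 1) k = true) :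
    (SimpleGraph.fromRel
      (fun s t : {s : Finset (Fin (2 * k - 1)) // s.card = k - 1} =>
        Disjoint s.1 t.1)).lineGraph.Colorable k := by
  have key : ∀ (s : Finset (Fin (2 * k - 1))) (x : Fin (2 * k - 1)), s.card = k - 1 → x ∉ s →
      mcol T w (msk s) x < k ∧
      mcol T w (2 ^ (2 * k - 1) - 1 - msk s - 2 ^ (x : ℕ)) x = mcol T w (msk s) x ∧
      ∀ y : Fin (2 * k - 1), y ∉ s → mcol T w (msk s) x = mcol T w (msk s) y → x = y := by
    intro s x hs hx
    have h1 := List.all_eq_true.1 hT (msk s) (List.mem_range.2 (msk_lt s))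
    rw [mpop_msk, hs, Nat.beq_refl] at h1
    simp only [Bool.not_true, Bool.false_or] at h1
    have h2 := List.all_eq_true.1 h1 x (List.mem_range.2 x.2)
    have hbx : (msk s).testBit x = false := by
      rw [← Bool.not_eq_true, msk_testBit]
      exact hx
    rw [hbx, Bool.false_or, Bool.and_eq_true, Bool.and_eq_true] at h2
    obtain ⟨⟨h3, h4⟩, h5⟩ := h2
    refine ⟨by simpa [Nat.blt_eq] using h3, Nat.eq_of_beq_eq_true h4, ?_⟩
    intro y hy hxy
    have h6 := List.all_eq_true.1 h5 y (List.mem_range.2 y.2)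
    have hby : (msk s).testBit y = false := by
      rw [← Bool.not_eq_true, msk_testBit]
      exact hy
    rw [hby, hxy, Nat.beq_refl] at h6
    simp only [Bool.not_true, Bool.false_or] at h6
    exact Fin.ext (Nat.eq_of_beq_eq_true h6)
  refine colorable_of_col k hk (fun s x => mcol T w (msk s) x) ?_ ?_ ?_
  · intro s x hs hx
    exact (key s x hs hx).1
  · intro s x hs hx
    have h1 := (key s x hs hx).2.1
    have h2 := msk_erase sᶜ x (by simpa using hx)
    have h3 := msk_compl s
    have h4 : msk (sᶜ.erase x) = 2 ^ (2 * k - 1) - 1 - msk s - 2 ^ (x : ℕ) := by omega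
    simp only [h4]
    exact h1
  · intro s x y hs hx hy hxy
    exact (key s x hs hx).2.2 y hy hxy

end OddGr75
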