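import Pool.Agent.OddGr75.Final

/-!
# MP_d22128_co: the classification in elementary terms (used by the own statement)
-/

set_option autoImplicit false

namespace OddGr75

open Finset

/-! ### from the line graph to a function on pairs of sets -/

theorem own_pos (k : ℕ) (hk : 2 ≤ k) (h3 : k ≠ 3) (h2 : ∀ n : ℕ, k ≠ 2 ^ n) :
    ∃ c : Finset (Fin (2 * k - 1)) → Finset (Fin (2 * k - 1)) → Fin k,
      (∀ A B, A.card = k - 1 → B.card = k - 1 → Disjoint A B → c A B = c B A) ∧
      ∀ A B B', A.card = k - 1 → B.card = k - 1 → B'.card = k - 1 → Disjoint A B →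
        Disjoint A B' → B ≠ B' → c A B ≠ c A B' := by
  classical
  have hcol : (SimpleGraph.fromRel
            (fun s t : {s : Finset (Fin (2 * k - 1)) // s.card = k - 1} =>
              Disjoint s.1 t.1)).lineGraph.Colorable k := by
    by_contra hc
    rcases final k hk hc with h | ⟨n, hn⟩
    · exact h3 h
    · exact h2 n hn
  obtain ⟨C⟩ := hcol
  set G := (SimpleGraph.fromRel
            (fun s t : {s : Finset (Fin (2 * k - 1)) // s.card = k - 1} =>
              Disjoint s.1 t.1)) with hG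
  have hadj : ∀ (A B : Finset (Fin (2 * k - 1))) (hA : A.card = k - 1) (hB : B.card = k - 1),
      Disjoint A B → G.Adj ⟨A, hA⟩ ⟨B, hB⟩ := by
    intro A B hA hB hd
    rw [hG, SimpleGraph.fromRel_adj]
    refine ⟨?_, Or.inl hd⟩
    intro h
    have h' : A = B := congrArg Subtype.val h
    subst h'
    have : A = ∅ := disjoint_self.1 hd
    rw [this, card_empty] at hA
    omega
  have hdec : ∀ A B : Finset (Fin (2 * k - 1)),
      (∃ (hA : A.card = k - 1) (hB : B.card = k - 1), Disjoint A B) ∨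
      ¬ ∃ (hA : A.card = k - 1) (hB : B.card = k - 1), Disjoint A B := fun A B => em _
  let c : Finset (Fin (2 * k - 1)) → Finset (Fin (2 * k - 1)) → Fin k := fun A B =>
    if h : ∃ (hA : A.card = k - 1) (hB : B.card = k - 1), Disjoint A B then
      C ⟨s(⟨A, h.1⟩, ⟨B, h.2.1⟩), hadj A B h.1 h.2.1 h.2.2⟩ else ⟨0, by omega⟩
  have hc : ∀ (A B : Finset (Fin (2 * k - 1))) (hA : A.card = k - 1) (hB : B.card = k - 1)
      (hd : Disjoint A B), c A B = C ⟨s(⟨A, hA⟩, ⟨B, hB⟩), hadj A B hA hB hd⟩ := by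
    intro A B hA hB hd
    exact dif_pos (⟨hA, hB, hd⟩ : ∃ (hA : A.card = k - 1) (hB : B.card = k - 1), Disjoint A B)
  refine ⟨c, ?_, ?_⟩
  · intro A B hA hB hd
    rw [hc A B hA hB hd, hc B A hB hA hd.symm]
    congr 1
    apply Subtype.ext
    exact Sym2.eq_swap
  · intro A B B' hA hB hB' hd hd' hne
    rw [hc A B hA hB hd, hc A B' hA hB' hd']
    apply C.valid
    rw [SimpleGraph.lineGraph_adj_iff_exists]
    refine ⟨?_, ⟨A, hA⟩, Sym2.mem_mk_left _ _, Sym2.mem_mk_left _ _⟩
    intro h
    have h' := congrArg Subtype.val h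
    simp only at h'
    rw [Sym2.eq_iff] at h'
    rcases h' with ⟨_, h2⟩ | ⟨h1, _⟩
    · exact hne (congrArg Subtype.val h2)
    · have e : A = B' := congrArg Subtype.val h1
      subst e
      have : A = ∅ := disjoint_self.1 hd'
      rw [this, card_empty] at hA
      omega

/-! ### powers of two -/

theorem choose_odd (m j : ℕ) (hj : j ≤ 2 ^ m - 1) : ((2 ^ m - 1).choose j : ZMod 2) = 1 := by
  induction j with
  | zero => simp
  | succ j ih =>
    have h1 := ih (by omega)
    have hm : 2 ^ m - 1 + 1 = 2 ^ m := Nat.sub_add_cancel (Nat.one_le_two_pow)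
    have h2 : 2 ∣ (2 ^ m).choose (j + 1) :=
      Nat.prime_two.dvd_choose_pow (by omega) (by omega)
    have h3 : (2 ^ m).choose (j + 1) = (2 ^ m - 1).choose j + (2 ^ m - 1).choose (j + 1) := by
      conv_lhs => rw [← hm]
      exact Nat.choose_succ_succ _ _
    rw [h3] at h2
    have h4 : (((2 ^ m - 1).choose j + (2 ^ m - 1).choose (j + 1) : ℕ) : ZMod 2) = 0 :=
      (ZMod.natCast_eq_zero_iff _ _).2 h2
    rw [Nat.cast_add, h1] at h4
    have h5 : ((2 ^ m - 1).choose (j + 1) : ZMod 2) = -1 := by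
      linear_combination h4
    rw [h5]
    decide

theorem own_pow (k : ℕ) (hk : 2 ≤ k) (n : ℕ) (hn : k = 2 ^ n)
    (c : Finset (Fin (2 * k - 1)) → Finset (Fin (2 * k - 1)) → Fin k)
    (hsym : ∀ A B, A.card = k - 1 → B.card = k - 1 → Disjoint A B → c A B = c B A)
    (hprop : ∀ A B B', A.card = k - 1 → B.card = k - 1 → B'.card = k - 1 → Disjoint A B →
        Disjoint A B' → B ≠ B' → c A B ≠ c A B') : False := by
  classical
  have hz : 0 < k := by omega
  set z : Fin k := ⟨0, hz⟩ with hzdef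
  have hex : ∀ A : Finset (Fin (2 * k - 1)), A.card = k - 1 →
      ∃ B : Finset (Fin (2 * k - 1)), B.card = k - 1 ∧ Disjoint A B ∧ c A B = z := by
    intro A hA
    have hcard : (powersetCard (k - 1) Aᶜ).card = k := by
      rw [card_powersetCard, card_compl, Fintype.card_fin, hA]
      have : 2 * k - 1 - (k - 1) = k - 1 + 1 := by omega
      rw [this, Nat.choose_succ_self_right]
      omega
    have hinj : Set.InjOn (c A) (powersetCard (k - 1) Aᶜ : Finset (Finset (Fin (2 * k - 1)))) := by
      intro B hB B' hB' h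
      rw [mem_coe, mem_powersetCard] at hB hB'
      by_contra hne
      exact hprop A B B' hA hB.2 hB'.2 (disjoint_right.2 fun x hx => mem_compl.1 (hB.1 hx))
        (disjoint_right.2 fun x hx => mem_compl.1 (hB'.1 hx)) hne h
    have himg : ((powersetCard (k - 1) Aᶜ).image (c A)) = univ := by
      apply eq_univ_of_card
      rw [card_image_of_injOn hinj, hcard, Fintype.card_fin]
    have : z ∈ (powersetCard (k - 1) Aᶜ).image (c A) := by rw [himg]; exact mem_univ _
    obtain ⟨B, hB, hBz⟩ := mem_image.1 this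
    rw [mem_powersetCard] at hB
    exact ⟨B, hB.2, disjoint_right.2 fun x hx => mem_compl.1 (hB.1 hx), hBz⟩
  choose! g hg using hex
  have hsum : ∑ A ∈ powersetCard (k - 1) (univ : Finset (Fin (2 * k - 1))), (1 : ZMod 2) = 0 := by
    apply sum_involution (fun A _ => g A)
    · intro A _; decide
    · intro A hA _ h
      have hA' := (mem_powersetCard.1 hA).2
      have hd := (hg A hA').2.1
      rw [h] at hd
      have : A = ∅ := disjoint_self.1 hd
      rw [this, card_empty] at hA'
      omega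
    · intro A hA
      exact mem_powersetCard.2 ⟨subset_univ _, (hg A (mem_powersetCard.1 hA).2).1⟩
    · intro A hA
      have hA' := (mem_powersetCard.1 hA).2
      have h1 := hg A hA'
      have h2 := hg (g A) h1.1
      by_contra hne
      exact hprop (g A) (g (g A)) A h1.1 h2.1 hA' h2.2.1 h1.2.1.symm hne
        (by rw [h2.2.2, hsym (g A) A h1.1 hA' h1.2.1.symm, h1.2.2])
  rw [sum_const, card_powersetCard, card_univ, Fintype.card_fin, nsmul_eq_mul, mul_one] at hsum
  have e : 2 * k - 1 = 2 ^ (n + 1) - 1 := by rw [hn, pow_succ]; omega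
  rw [e, choose_odd (n + 1) (k - 1) (by rw [hn, pow_succ]; omega)] at hsum
  exact absurd hsum (by decide)

/-! ### the Petersen graph -/

/-- depth first search for a proper colouring; `nb` lists the earlier neighbours of each item -/
def srch (m : ℕ) : List (List ℕ) → List ℕ → Bool
  | [], _ => true
  | nb :: rest, cols => (List.range m).any fun x =>
      (nb.all fun j => decide (cols.getD j m ≠ x)) && srch m rest (cols ++ [x])

theorem srch_sound (m : ℕ) (f : ℕ → ℕ) (hf : ∀ i, f i < m) :
    ∀ (L : List (List ℕ)) (i : ℕ),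
      (∀ (a : ℕ) (ha : a < L.length), ∀ j ∈ L[a], j < i + a ∧ f j ≠ f (i + a)) →
      srch m L ((List.range i).map f) = true := by
  intro L
  induction L with
  | nil => intro i _; rfl
  | cons nb rest ih =>
    intro i h
    unfold srch
    rw [List.any_eq_true]
    refine ⟨f i, List.mem_range.2 (hf i), ?_⟩
    rw [Bool.and_eq_true]
    constructor
    · rw [List.all_eq_true]
      intro j hj
      have h0 := h 0 (by simp) j (by simpa using hj)
      simp only [add_zero] at h0
      rw [decide_eq_true_eq, List.getD_eq_getElem _ _ (by simpa using h0.1)]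
      simpa using h0.2
    · have := ih (i + 1) (by
        intro a ha j hj
        have := h (a + 1) (by simpa using ha) j (by simpa using hj)
        rw [show i + (a + 1) = i + 1 + a by ring] at this
        exact this)
      rw [List.range_succ, List.map_append] at this
      simpa using this

/-- the edges of the Petersen graph `O_3` -/
def pe : List (Finset (Fin 5) × Finset (Fin 5)) :=
  [({0,1},{2,3}), ({0,1},{2,4}), ({0,1},{3,4}), ({2,3},{0,4}), ({2,3},{1,4}), ({2,4},{0,3}),
   ({2,4},{1,3}), ({3,4},{0,2}), ({3,4},{1,2}), ({0,4},{1,2}), ({0,4},{1,3}), ({1,4},{0,2}),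
   ({1,4},{0,3}), ({0,3},{1,2}), ({1,3},{0,2})]

/-- earlier edges sharing a vertex -/
def pn : List (List ℕ) :=
  [[], [0], [0,1], [0], [0,3], [1], [1,5], [2], [2,7], [3,8], [3,9,6], [4,7], [4,11,5],
   [5,12,9,8], [6,10,7,11]]

/-- the two pairs are edges of `O_3` with exactly one common vertex -/
def conf (e e' : Finset (Fin 5) × Finset (Fin 5)) : Prop :=
  (e.1.card = 2 ∧ e.2.card = 2 ∧ Disjoint e.1 e.2) ∧
  (e'.1.card = 2 ∧ e'.2.card = 2 ∧ Disjoint e'.1 e'.2) ∧
  ((e.1 = e'.1 ∧ e.2 ≠ e'.2) ∨ (e.1 = e'.2 ∧ e.2 ≠ e'.1) ∨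
    (e.2 = e'.1 ∧ e.1 ≠ e'.2) ∨ (e.2 = e'.2 ∧ e.1 ≠ e'.1))

instance (e e' : Finset (Fin 5) × Finset (Fin 5)) : Decidable (conf e e') := by
  unfold conf; infer_instance

theorem conf_all : ∀ a : Fin 15, ∀ j ∈ pn.getD a [], j < a.val ∧
    conf (pe.getD j (∅, ∅)) (pe.getD a (∅, ∅)) := by
  decide +kernel

theorem pet_none : srch 3 pn [] = false := by
  decide +kernel

theorem own_three
    (c : Finset (Fin (2 * 3 - 1)) → Finset (Fin (2 * 3 - 1)) → Fin 3)
    (hsym : ∀ A B, A.card = 3 - 1 → B.card = 3 - 1 → Disjoint A B → c A B = c B A)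
    (hprop : ∀ A B B', A.card = 3 - 1 → B.card = 3 - 1 → B'.card = 3 - 1 → Disjoint A B →
        Disjoint A B' → B ≠ B' → c A B ≠ c A B') : False := by
  have key : ∀ e e' : Finset (Fin 5) × Finset (Fin 5), conf e e' → c e.1 e.2 ≠ c e'.1 e'.2 := by
    rintro ⟨A, B⟩ ⟨A', B'⟩ ⟨⟨h1, h2, h3⟩, ⟨h1', h2', h3'⟩, h | h | h | h⟩
    · simp only at *
      obtain ⟨rfl, hne⟩ := h
      exact hprop A B B' h1 h2 h2' h3 h3' hne
    · simp only at *
      obtain ⟨rfl, hne⟩ := h
      rw [hsym A' A h1' h1 h3']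
      exact hprop A B A' h1 h2 h1' h3 h3'.symm hne
    · simp only at *
      obtain ⟨rfl, hne⟩ := h
      rw [hsym A B h1 h2 h3]
      exact hprop B A B' h2 h1 h2' h3.symm h3' hne
    · simp only at *
      obtain ⟨rfl, hne⟩ := h
      rw [hsym A B h1 h2 h3, hsym A' B h1' h2 h3']
      exact hprop B A A' h2 h1 h1' h3.symm h3'.symm hne
  let f : ℕ → ℕ := fun i => (c (pe.getD i (∅, ∅)).1 (pe.getD i (∅, ∅)).2).val
  have h := srch_sound 3 f (fun i => (c _ _).isLt) pn 0 (by
    intro a ha j hj
    have ha' : a < 15 := ha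
    have h1 := conf_all ⟨a, ha'⟩ j (by
      simp only [List.getD_eq_getElem _ _ ha]
      exact hj)
    refine ⟨by simpa using h1.1, ?_⟩
    rw [zero_add]
    intro h2
    exact key _ _ h1.2 (Fin.ext h2))
  rw [List.range_zero, List.map_nil, pet_none] at h
  exact absurd h (by decide)

/-- the complete classification -/
theorem own_iff (k : ℕ) (hk : 2 ≤ k) :
    (∃ c : Finset (Fin (2 * k - 1)) → Finset (Fin (2 * k - 1)) → Fin k,
      (∀ A B, A.card = k - 1 → B.card = k - 1 → Disjoint A B → c A B = c B A) ∧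
      ∀ A B B', A.card = k - 1 → B.card = k - 1 → B'.card = k - 1 → Disjoint A B →
        Disjoint A B' → B ≠ B' → c A B ≠ c A B') ↔ k ≠ 3 ∧ ∀ n : ℕ, k ≠ 2 ^ n := by
  constructor
  · rintro ⟨c, h1, h2⟩
    refine ⟨?_, fun n hn => own_pow k hk n hn c h1 h2⟩
    rintro rfl
    exact own_three c h1 h2
  · rintro ⟨h3, h2⟩
    exact own_pos k hk h3 h2

end OddGr75
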