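import Mathlib

/-!
# The 6-point table (module OG-RHO, MP_d22128_co)
-/

set_option autoImplicit false

namespace OddGr75

/-- the table as a bit mask -/
def gm (n : ℕ) : ℤ := if Nat.testBit 18089359700910559455 n then 1 else -1

/-- the sign function on the subsets of a 6-point set -/
def gg (b0 b1 b2 b3 b4 b5 : Bool) : ℤ :=
  gm (cond b0 1 0 + cond b1 2 0 + cond b2 4 0 + cond b3 8 0 + cond b4 16 0 + cond b5 32 0)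

/-- sum over the upper neighbours -/
def Ug (b0 b1 b2 b3 b4 b5 : Bool) : ℤ :=
  cond b0 0 (gg true b1 b2 b3 b4 b5) + cond b1 0 (gg b0 true b2 b3 b4 b5) +
  cond b2 0 (gg b0 b1 true b3 b4 b5) + cond b3 0 (gg b0 b1 b2 true b4 b5) +
  cond b4 0 (gg b0 b1 b2 b3 true b5) + cond b5 0 (gg b0 b1 b2 b3 b4 true)

/-- two steps -/
def UUg (b0 b1 b2 b3 b4 b5 : Bool) : ℤ :=
  cond b0 0 (Ug true b1 b2 b3 b4 b5) + cond b1 0 (Ug b0 true b2 b3 b4 b5) +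
  cond b2 0 (Ug b0 b1 true b3 b4 b5) + cond b3 0 (Ug b0 b1 b2 true b4 b5) +
  cond b4 0 (Ug b0 b1 b2 b3 true b5) + cond b5 0 (Ug b0 b1 b2 b3 b4 true)

/-- number of elements -/
def cnt (b0 b1 b2 b3 b4 b5 : Bool) : ℕ :=
  cond b0 1 0 + cond b1 1 0 + cond b2 1 0 + cond b3 1 0 + cond b4 1 0 + cond b5 1 0

/-- bounds of `|Ug|` -/
def bU1 : ℕ → ℤ
  | 0 => 0 | 1 => 1 | 2 => 2 | 3 => 3 | 4 => 2 | 5 => 1 | _ => 0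

/-- bounds of `|UUg|` -/
def bU2 : ℕ → ℤ
  | 0 => 2 | 1 => 0 | 2 => 8 | 3 => 6 | 4 => 2 | 5 => 0 | _ => 0

theorem gg_pm : ∀ b0 b1 b2 b3 b4 b5 : Bool, gg b0 b1 b2 b3 b4 b5 = 1 ∨ gg b0 b1 b2 b3 b4 b5 = -1 := by
  decide

theorem gg_not : ∀ b0 b1 b2 b3 b4 b5 : Bool,
    gg (!b0) (!b1) (!b2) (!b3) (!b4) (!b5) = gg b0 b1 b2 b3 b4 b5 := by
  decide

theorem Ug_le : ∀ b0 b1 b2 b3 b4 b5 : Bool,
    Ug b0 b1 b2 b3 b4 b5 ≤ bU1 (cnt b0 b1 b2 b3 b4 b5) ∧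
      -bU1 (cnt b0 b1 b2 b3 b4 b5) ≤ Ug b0 b1 b2 b3 b4 b5 := by
  decide

theorem UUg_le : ∀ b0 b1 b2 b3 b4 b5 : Bool,
    UUg b0 b1 b2 b3 b4 b5 ≤ bU2 (cnt b0 b1 b2 b3 b4 b5) ∧
      -bU2 (cnt b0 b1 b2 b3 b4 b5) ≤ UUg b0 b1 b2 b3 b4 b5 := by
  decide

end OddGr75
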