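import Pool.Agent.OddGr75.Basic
import Pool.Agent.OddGr75.RhoT

/-!
# Module OG-RHO (MP_d22128_co, helper75): the sign function rho.

Write `F = Fin 3 × Bool` (6 points) for the first three pairs, `rho X = g (X ∩ F) * chi (X \ F)`
where `g : Finset F → {±1}` (or a function of a bit mask) is the following: number the six points
of `F` by `0,1,2,3,4,5` (any bijection; `0..4` is `Z/5`, `5 = ∞`), `d a b = +1` if `a - b = ±1 mod 5`
and `-1` otherwise, and
 * `g ∅ = 1`, `g {0} = g {1} = g {2} = 1`, `g {3} = g {4} = g {5} = -1`;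
 * `g {a,5} = 1` if `a < 2`, `-1` if `a = 2,3,4`; `g {a,b} = d a b` for `a,b ≤ 4`;
 * `g {a,b,5} = d a b`, and `g S = g Sᶜ` for a 3-set `S` without `5` and for all `S` with `|S| > 3`.
Computer-checked (64 sets): `g Sᶜ = g S`; the values `g (S ∪ x)`, `x ∉ S`, are not all equal
if `|S| ≤ 2`; with `Ug S = ∑_{x ∉ S} g (S ∪ x)`, `UUg S = ∑_{x ∉ S} ∑_{y ∉ S ∪ x} g (S ∪ {x,y})`:
 |S| = 0: |Ug| ≤ 0, |UUg| ≤ 2;  1: |Ug| ≤ 1, |UUg| ≤ 0;  2: |Ug| ≤ 2, |UUg| ≤ 8;
 |S| = 3: |Ug| ≤ 3, |UUg| ≤ 6;  4: |Ug| ≤ 2, |UUg| ≤ 2;  5: |Ug| ≤ 1, UUg = 0;  6: 0, 0.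

With `T = B \ F`, `v = ∑_{x ∉ F ∪ B} c x = - wt T`, `n = |(F ∪ B)ᶜ|`:
`up rho B = chi T * (Ug S + g S * v)` and
`up (up rho) B = chi T * (UUg S + 2 * Ug S * v + g S * (v^2 - n))`.
-/

set_option autoImplicit false

namespace OddGr75

variable {h : ℕ}

section

variable (a : Fin 6 ↪ P h)

/-- the six special points -/
def FF : Finset (P h) := Finset.univ.map a

theorem mem_FF {x : P h} : x ∈ FF a ↔ ∃ i, a i = x := by
  simp [FF]

theorem a_mem (i : Fin 6) : a i ∈ FF a := (mem_FF a).2 ⟨i, rfl⟩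

/-- the sum over the complement of `B` -/
theorem sum_split (B : Finset (P h)) (f : P h → ℚ) :
    ∑ x ∈ Bᶜ, f x = (∑ i : Fin 6, if a i ∈ B then 0 else f (a i)) + ∑ x ∈ (FF a)ᶜ \ B, f x := by
  have h1 : Bᶜ = (FF a \ B) ∪ ((FF a)ᶜ \ B) := by
    ext x; simp only [Finset.mem_compl, Finset.mem_union, Finset.mem_sdiff]; tauto
  have h2 : Disjoint (FF a \ B) ((FF a)ᶜ \ B) := by
    rw [Finset.disjoint_left]
    intro x hx hx'
    simp only [Finset.mem_compl, Finset.mem_sdiff] at hx hx'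
    exact hx'.1 hx.1
  rw [h1, Finset.sum_union h2]
  congr 1
  have h3 : ∑ x ∈ FF a \ B, f x = ∑ x ∈ FF a, if x ∈ B then 0 else f x := by
    rw [Finset.sdiff_eq_filter, Finset.sum_filter]
    refine Finset.sum_congr rfl fun x _ => ?_
    split_ifs <;> simp_all
  rw [h3, FF, Finset.sum_map]

/-- the table at the set `X` -/
def GG (X : Finset (P h)) : ℚ :=
  (gg (decide (a 0 ∈ X)) (decide (a 1 ∈ X)) (decide (a 2 ∈ X)) (decide (a 3 ∈ X))
    (decide (a 4 ∈ X)) (decide (a 5 ∈ X)) : ℤ)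

/-- first sums -/
def UG (X : Finset (P h)) : ℚ :=
  (Ug (decide (a 0 ∈ X)) (decide (a 1 ∈ X)) (decide (a 2 ∈ X)) (decide (a 3 ∈ X))
    (decide (a 4 ∈ X)) (decide (a 5 ∈ X)) : ℤ)

/-- second sums -/
def UUG (X : Finset (P h)) : ℚ :=
  (UUg (decide (a 0 ∈ X)) (decide (a 1 ∈ X)) (decide (a 2 ∈ X)) (decide (a 3 ∈ X))
    (decide (a 4 ∈ X)) (decide (a 5 ∈ X)) : ℤ)

/-- number of special points -/
def CT (X : Finset (P h)) : ℕ :=
  cnt (decide (a 0 ∈ X)) (decide (a 1 ∈ X)) (decide (a 2 ∈ X)) (decide (a 3 ∈ X))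
    (decide (a 4 ∈ X)) (decide (a 5 ∈ X))

theorem mem_insert_a (i j : Fin 6) (B : Finset (P h)) :
    a i ∈ insert (a j) B ↔ i = j ∨ a i ∈ B := by
  rw [Finset.mem_insert, a.injective.eq_iff]

theorem UG_eq (B : Finset (P h)) :
    (∑ i : Fin 6, if a i ∈ B then 0 else GG a (insert (a i) B)) = UG a B := by
  rw [Fin.sum_univ_six]
  unfold UG Ug GG
  simp only [mem_insert_a, Bool.cond_decide]
  push_cast
  simp

theorem UUG_eq (B : Finset (P h)) :
    (∑ i : Fin 6, if a i ∈ B then 0 else UG a (insert (a i) B)) = UUG a B := by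
  rw [Fin.sum_univ_six]
  unfold UUG UUg UG
  simp only [mem_insert_a, Bool.cond_decide]
  push_cast
  simp

/-- the sign function -/
def rr (X : Finset (P h)) : ℚ := GG a X * chi (X \ FF a)

/-- the sum of the signs outside -/
def VS (B : Finset (P h)) : ℚ := ∑ x ∈ (FF a)ᶜ \ B, c x

theorem sdiff_insert_a (i : Fin 6) (B : Finset (P h)) :
    insert (a i) B \ FF a = B \ FF a := Finset.insert_sdiff_of_mem _ (a_mem a i)

theorem VS_insert_a (i : Fin 6) (B : Finset (P h)) : VS a (insert (a i) B) = VS a B := by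
  unfold VS
  congr 1
  ext x
  simp only [Finset.mem_sdiff, Finset.mem_compl, Finset.mem_insert, not_or]
  constructor
  · rintro ⟨h1, h2, h3⟩; exact ⟨h1, h3⟩
  · rintro ⟨h1, h2⟩
    exact ⟨h1, fun e => h1 (e ▸ a_mem a i), h2⟩

theorem GG_insert {x : P h} {B : Finset (P h)} (hx : x ∈ (FF a)ᶜ \ B) :
    GG a (insert x B) = GG a B := by
  have hne : ∀ i, a i ∈ insert x B ↔ a i ∈ B := by
    intro i
    rw [Finset.mem_insert]
    constructor
    · rintro (e | e)
      · rw [Finset.mem_sdiff, Finset.mem_compl] at hx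
        exact absurd (e ▸ a_mem a i) hx.1
      · exact e
    · exact Or.inr
  unfold GG
  simp only [hne]

theorem UG_insert {x : P h} {B : Finset (P h)} (hx : x ∈ (FF a)ᶜ \ B) :
    UG a (insert x B) = UG a B := by
  have hne : ∀ i, a i ∈ insert x B ↔ a i ∈ B := by
    intro i
    rw [Finset.mem_insert]
    constructor
    · rintro (e | e)
      · rw [Finset.mem_sdiff, Finset.mem_compl] at hx
        exact absurd (e ▸ a_mem a i) hx.1
      · exact e
    · exact Or.inr
  unfold UG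
  simp only [hne]

theorem chi_ins {x : P h} {B : Finset (P h)} (hx : x ∈ (FF a)ᶜ \ B) :
    chi (insert x B \ FF a) = chi (B \ FF a) * c x := by
  rw [Finset.mem_sdiff, Finset.mem_compl] at hx
  rw [Finset.insert_sdiff_of_notMem _ hx.1, chi_insert]
  simp [hx.2]

theorem VS_ins {x : P h} {B : Finset (P h)} (hx : x ∈ (FF a)ᶜ \ B) :
    VS a (insert x B) = VS a B - c x := by
  unfold VS
  have h1 : (FF a)ᶜ \ insert x B = ((FF a)ᶜ \ B).erase x := by
    ext y
    simp only [Finset.mem_sdiff, Finset.mem_compl, Finset.mem_insert, not_or, Finset.mem_erase]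
    tauto
  rw [h1, ← Finset.add_sum_erase _ _ hx]
  ring

theorem up_rr (B : Finset (P h)) :
    up (rr a) B = chi (B \ FF a) * (UG a B + GG a B * VS a B) := by
  unfold up
  rw [sum_split a, ← UG_eq a B, mul_add, Finset.mul_sum]
  congr 1
  · refine Finset.sum_congr rfl fun i _ => ?_
    unfold rr
    rw [sdiff_insert_a]
    split_ifs <;> ring
  · unfold VS
    rw [Finset.mul_sum, Finset.mul_sum]
    refine Finset.sum_congr rfl fun x hx => ?_
    unfold rr
    rw [GG_insert a hx, chi_ins a hx]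
    ring

theorem up_up_rr (B : Finset (P h)) :
    up (up (rr a)) B = chi (B \ FF a) * (UUG a B + 2 * UG a B * VS a B +
      GG a B * (VS a B ^ 2 - ((FF a)ᶜ \ B).card)) := by
  unfold up
  rw [sum_split a]
  have h1 : (∑ i : Fin 6, if a i ∈ B then 0 else up (rr a) (insert (a i) B)) =
      chi (B \ FF a) * (UUG a B + UG a B * VS a B) := by
    rw [← UUG_eq a B, mul_add, Finset.mul_sum]
    rw [← UG_eq a B]
    rw [Finset.sum_mul, Finset.mul_sum, ← Finset.sum_add_distrib]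
    refine Finset.sum_congr rfl fun i _ => ?_
    rw [up_rr, sdiff_insert_a, VS_insert_a]
    split_ifs <;> ring
  have h2 : (∑ x ∈ (FF a)ᶜ \ B, up (rr a) (insert x B)) =
      chi (B \ FF a) * (UG a B * VS a B + GG a B * (VS a B ^ 2 - ((FF a)ᶜ \ B).card)) := by
    have h3 : ∀ x ∈ (FF a)ᶜ \ B, up (rr a) (insert x B) =
        chi (B \ FF a) * (UG a B + GG a B * VS a B) * c x - chi (B \ FF a) * GG a B := by
      intro x hx
      rw [up_rr, UG_insert a hx, GG_insert a hx, chi_ins a hx, VS_ins a hx]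
      linear_combination (-(chi (B \ FF a) * GG a B)) * c_sq x
    rw [Finset.sum_congr rfl h3, Finset.sum_sub_distrib, ← Finset.mul_sum, Finset.sum_const,
      nsmul_eq_mul]
    have h4 : ∑ x ∈ (FF a)ᶜ \ B, c x = VS a B := rfl
    rw [h4]
    ring
  have h5 : (∑ i : Fin 6, if a i ∈ B then 0 else up (rr a) (insert (a i) B)) +
      ∑ x ∈ (FF a)ᶜ \ B, up (rr a) (insert x B) = chi (B \ FF a) * (UUG a B + 2 * UG a B * VS a B +
      GG a B * (VS a B ^ 2 - ((FF a)ᶜ \ B).card)) := by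
    rw [h1, h2]; ring
  exact h5

theorem GG_pm (X : Finset (P h)) : GG a X = 1 ∨ GG a X = -1 := by
  unfold GG
  rcases gg_pm (decide (a 0 ∈ X)) (decide (a 1 ∈ X)) (decide (a 2 ∈ X)) (decide (a 3 ∈ X))
    (decide (a 4 ∈ X)) (decide (a 5 ∈ X)) with h1 | h1
  · left; rw [h1]; norm_num
  · right; rw [h1]; norm_num

theorem abs_UG (X : Finset (P h)) : |UG a X| ≤ (bU1 (CT a X) : ℚ) := by
  have h1 := Ug_le (decide (a 0 ∈ X)) (decide (a 1 ∈ X)) (decide (a 2 ∈ X)) (decide (a 3 ∈ X))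
    (decide (a 4 ∈ X)) (decide (a 5 ∈ X))
  unfold UG CT
  rw [abs_le]
  exact ⟨by exact_mod_cast h1.2, by exact_mod_cast h1.1⟩

theorem abs_UUG (X : Finset (P h)) : |UUG a X| ≤ (bU2 (CT a X) : ℚ) := by
  have h1 := UUg_le (decide (a 0 ∈ X)) (decide (a 1 ∈ X)) (decide (a 2 ∈ X)) (decide (a 3 ∈ X))
    (decide (a 4 ∈ X)) (decide (a 5 ∈ X))
  unfold UUG CT
  rw [abs_le]
  exact ⟨by exact_mod_cast h1.2, by exact_mod_cast h1.1⟩

theorem card_inter (X : Finset (P h)) : (FF a ∩ X).card = CT a X := by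
  have h1 : (FF a ∩ X).card = ∑ x ∈ FF a, if x ∈ X then 1 else 0 := by
    rw [← Finset.filter_mem_eq_inter, Finset.card_filter]
  rw [h1, FF, Finset.sum_map, Fin.sum_univ_six]
  unfold CT cnt
  simp only [Bool.cond_decide]

theorem card_FF : (FF a).card = 6 := by simp [FF]

theorem CT_le (X : Finset (P h)) : CT a X ≤ 6 := by
  rw [← card_inter, ← card_FF a]
  exact Finset.card_le_card Finset.inter_subset_left

theorem card_split (B : Finset (P h)) : CT a B + (B \ FF a).card = B.card := by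
  rw [← card_inter, Finset.inter_comm, Finset.card_inter_add_card_sdiff]

theorem card_univ_P : (Finset.univ : Finset (P h)).card = 2 * h := by
  simp [P, mul_comm]

theorem card_out (B : Finset (P h)) : ((FF a)ᶜ \ B).card + (B \ FF a).card + 6 = 2 * h := by
  have h1 : ((FF a)ᶜ \ B).card + ((FF a)ᶜ ∩ B).card = (FF a)ᶜ.card := by
    rw [add_comm]; exact Finset.card_inter_add_card_sdiff _ _
  have h2 : (FF a)ᶜ ∩ B = B \ FF a := by
    ext x; simp only [Finset.mem_inter, Finset.mem_compl, Finset.mem_sdiff]; tauto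
  have h3 : (FF a).card + (FF a)ᶜ.card = 2 * h := by
    rw [Finset.card_add_card_compl, ← Finset.card_univ, card_univ_P]
  rw [h2] at h1
  rw [card_FF] at h3
  omega

theorem abs_sum_c_le (S : Finset (P h)) : |∑ x ∈ S, c x| ≤ S.card := by
  refine (Finset.abs_sum_le_sum_abs _ _).trans ?_
  rw [Finset.card_eq_sum_ones]
  push_cast
  refine Finset.sum_le_sum fun x _ => ?_
  rcases c_pm x with e | e <;> rw [e] <;> norm_num

theorem abs_VS_le_card (B : Finset (P h)) : |VS a B| ≤ ((FF a)ᶜ \ B).card := abs_sum_c_le _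

theorem VS_eq (hw0 : wt (FF a) = 0) (B : Finset (P h)) : VS a B = -wt (B \ FF a) := by
  have h2 : (FF a)ᶜ ∩ B = B \ FF a := by
    ext x; simp only [Finset.mem_inter, Finset.mem_compl, Finset.mem_sdiff]; tauto
  have h1 : ∑ x ∈ (FF a)ᶜ ∩ B, c x + ∑ x ∈ (FF a)ᶜ \ B, c x = ∑ x ∈ (FF a)ᶜ, c x :=
    Finset.sum_inter_add_sum_sdiff _ _ _
  have h3 : ∑ x ∈ (FF a)ᶜ, c x = 0 := by
    have := wt_compl (FF a)
    rw [hw0, neg_zero] at this
    exact this
  rw [h2, h3] at h1
  unfold VS wt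
  linarith

theorem abs_VS_le (hw0 : wt (FF a) = 0) (B : Finset (P h)) : |VS a B| ≤ (B \ FF a).card := by
  rw [VS_eq a hw0, abs_neg]
  exact abs_sum_c_le _

theorem abs_rr_up1 (hw0 : wt (FF a) = 0) (B : Finset (P h)) (hB : B.card + 1 = h) :
    |up (rr a) B| ≤ (h : ℚ) - 1 := by
  rw [up_rr, abs_mul, abs_chi, one_mul]
  have h1 := abs_UG a B
  have h2 := abs_VS_le a hw0 B
  have h3 := card_split a B
  have h4 : (bU1 (CT a B) : ℚ) ≤ CT a B := by
    have h5 := CT_le a B
    generalize CT a B = s at h5 ⊢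
    interval_cases s <;> norm_num [bU1]
  have h5 : |GG a B * VS a B| = |VS a B| := by
    rw [abs_mul]
    rcases GG_pm a B with e | e <;> rw [e] <;> simp
  have h6 : (CT a B : ℚ) + (B \ FF a).card = (h : ℚ) - 1 := by
    have : (CT a B + (B \ FF a).card + 1 : ℚ) = h := by exact_mod_cast (by omega)
    linarith
  calc |UG a B + GG a B * VS a B| ≤ |UG a B| + |GG a B * VS a B| := abs_add_le _ _
    _ ≤ (h : ℚ) - 1 := by rw [h5]; linarith

/-- the elementary inequality -/
theorem final_bound {H X : ℚ} (hH : 3 ≤ H) (hX : X ≤ H ^ 2 - 3 / 2 * H) :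
    X ≤ 2 * H ^ 2 * (H - 1) / (2 * H + 1) := by
  rw [le_div_iff₀ (by linarith)]
  calc X * (2 * H + 1) ≤ (H ^ 2 - 3 / 2 * H) * (2 * H + 1) :=
        mul_le_mul_of_nonneg_right hX (by linarith)
    _ ≤ 2 * H ^ 2 * (H - 1) := by nlinarith

theorem abs_rr_up2 (hh : 3 ≤ h) (hw0 : wt (FF a) = 0) (B : Finset (P h)) (hB : B.card + 2 = h) :
    |up (up (rr a)) B| ≤ 2 * (h : ℚ) ^ 2 * ((h : ℚ) - 1) / (2 * (h : ℚ) + 1) := by
  rw [up_up_rr, abs_mul, abs_chi, one_mul]
  have hH : (3 : ℚ) ≤ h := by exact_mod_cast hh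
  apply final_bound hH
  have h1 := abs_UG a B
  have h1' := abs_UUG a B
  have h2 := abs_VS_le a hw0 B
  have h2' := abs_VS_le_card a B
  have h3 := card_split a B
  have h3' := card_out a B
  have h4 := CT_le a B
  have h5 : |GG a B * (VS a B ^ 2 - ((FF a)ᶜ \ B).card)| = |VS a B ^ 2 - ((FF a)ᶜ \ B).card| := by
    rw [abs_mul]
    rcases GG_pm a B with e | e <;> rw [e] <;> simp
  have h6 : |2 * UG a B * VS a B| = 2 * (|UG a B| * |VS a B|) := by
    rw [abs_mul, abs_mul]; norm_num; ring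
  have h7 : |UUG a B + 2 * UG a B * VS a B + GG a B * (VS a B ^ 2 - ((FF a)ᶜ \ B).card)| ≤
      |UUG a B| + 2 * (|UG a B| * |VS a B|) + |VS a B ^ 2 - ((FF a)ᶜ \ B).card| := by
    rw [← h5, ← h6]
    exact abs_add_three _ _ _
  refine h7.trans ?_
  clear h7 h6 h5
  have h8 : |UG a B| * |VS a B| ≤ (bU1 (CT a B) : ℚ) * |VS a B| :=
    mul_le_mul_of_nonneg_right h1 (abs_nonneg _)
  have h9 : VS a B ^ 2 = |VS a B| ^ 2 := (sq_abs _).symm
  rw [h9]
  have h10 : 0 ≤ |VS a B| := abs_nonneg _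
  generalize |VS a B| = w at *
  generalize ((FF a)ᶜ \ B).card = n at *
  generalize (B \ FF a).card = m at *
  generalize |UG a B| * w = u1 at *
  generalize |UUG a B| = u2 at *
  generalize CT a B = s at *
  have hm : (m : ℚ) = h - 2 - s := by
    have : (s + m + 2 : ℚ) = h := by exact_mod_cast (by omega)
    linarith
  have hn : (n : ℚ) = h - 4 + s := by
    have : (n + m + 6 : ℚ) = 2 * h := by exact_mod_cast h3'
    linarith
  have hm0 : (0 : ℚ) ≤ m := Nat.cast_nonneg m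
  have hn0 : (0 : ℚ) ≤ n := Nat.cast_nonneg n
  clear h1 h3 h3' hB h9
  rw [hn] at h2' hn0 ⊢
  rw [hm] at h2 hm0
  generalize (h : ℚ) = H at *
  have h11 : |w ^ 2 - (H - 4 + (s : ℚ))| ≤ H ^ 2 - 3 / 2 * H - u2 - 2 * u1 := by
    rw [abs_le]
    interval_cases s
    · simp only [bU1, bU2] at h1' h8
      push_cast at *
      constructor <;> nlinarith
    · simp only [bU1, bU2] at h1' h8
      push_cast at *
      constructor <;> nlinarith
    · simp only [bU1, bU2] at h1' h8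
      push_cast at *
      constructor <;> nlinarith
    · simp only [bU1, bU2] at h1' h8
      push_cast at *
      constructor <;> nlinarith
    · simp only [bU1, bU2] at h1' h8
      push_cast at *
      constructor <;> nlinarith
    · simp only [bU1, bU2] at h1' h8
      push_cast at *
      constructor <;> nlinarith
    · simp only [bU1, bU2] at h1' h8
      push_cast at *
      constructor <;> nlinarith
  linarith

theorem GG_compl (X : Finset (P h)) : GG a Xᶜ = GG a X := by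
  unfold GG
  have h1 : ∀ i, decide (a i ∈ Xᶜ) = !(decide (a i ∈ X)) := by
    intro i
    simp [Finset.mem_compl]
  rw [h1, h1, h1, h1, h1, h1, gg_not]

theorem rr_compl (hc0 : chi (FF a) = -1) (X : Finset (P h)) :
    rr a Xᶜ = (-1) ^ (h + 1) * rr a X := by
  unfold rr
  rw [GG_compl]
  have h1 : chi (X \ FF a) * chi (Xᶜ \ FF a) = chi (FF a)ᶜ := by
    unfold chi
    rw [← Finset.prod_union]
    · congr 1
      ext x; simp only [Finset.mem_union, Finset.mem_compl, Finset.mem_sdiff]; tauto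
    · rw [Finset.disjoint_left]
      intro x hx hx'
      simp only [Finset.mem_compl, Finset.mem_sdiff] at hx hx'
      exact hx'.1 hx.1
  rw [chi_compl, hc0] at h1
  have h2 := chi_sq (X \ FF a)
  have h3 : chi (Xᶜ \ FF a) = (-1) ^ (h + 1) * chi (X \ FF a) := by
    calc chi (Xᶜ \ FF a) = (chi (X \ FF a) * chi (X \ FF a)) * chi (Xᶜ \ FF a) := by
          rw [h2, one_mul]
      _ = chi (X \ FF a) * (chi (X \ FF a) * chi (Xᶜ \ FF a)) := by ring
      _ = _ := by rw [h1, pow_succ]; ring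
  rw [h3]; ring

theorem rr_pm (X : Finset (P h)) : rr a X = 1 ∨ rr a X = -1 := by
  unfold rr
  rcases GG_pm a X with e | e <;> rcases chi_pm (X \ FF a) with e' | e' <;> rw [e, e'] <;> simp

end

/-- the six points -/
def pts (hh : 3 ≤ h) : Fin 6 ↪ P h where
  toFun i := (⟨i.val / 2, by omega⟩, decide (i.val % 2 = 1))
  inj' := by
    intro i j e
    rw [Prod.ext_iff] at e
    simp only [Fin.mk.injEq, decide_eq_decide] at e
    ext
    omega

theorem c_pts (hh : 3 ≤ h) (i : Fin 6) :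
    c (pts hh i) = if decide (i.val % 2 = 1) = true then -1 else 1 := rfl

theorem exists_rho (h : ℕ) (hh : 3 ≤ h) : Nonempty (RhoData h) := by
  have hw0 : wt (FF (pts hh)) = 0 := by
    unfold wt FF
    rw [Finset.sum_map, Fin.sum_univ_six]
    simp only [c_pts]
    norm_num
  have hc0 : chi (FF (pts hh)) = -1 := by
    unfold chi FF
    rw [Finset.prod_map, Fin.prod_univ_six]
    simp only [c_pts]
    norm_num
  exact ⟨⟨rr (pts hh), rr_pm _, rr_compl _ hc0, abs_rr_up1 _ hw0, abs_rr_up2 _ hh hw0⟩⟩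

end OddGr75
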