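import Pool.Agent.OddGr75.TwoCut

/-!
# Module OG-TRANS (MP_d22128_co, helper75): from the two-cut theorem to the odd graphs.

`colorable_of_col`: a function `col s x` (colour of the edge between `s` and `sᶜ.erase x`), symmetric
(`col (sᶜ.erase x) x = col s x`) and injective in `x ∉ s`, gives a proper colouring of the
line graph. Proof: for an edge `{s,t}` of the graph, `s`, `t` are disjoint `(k-1)`-sets of a
`(2k-1)`-set, so `(s ∪ t)ᶜ = {x}`, `t = sᶜ.erase x`; colour the edge by `col s x` (well defined on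
`Sym2` by the symmetry; e.g. use `∃! x` or `Sym2.lift`, or choose for each edge a representative).
Two different edges with the common vertex `s` have `x ≠ x'`, so different colours.

`split`: ground set divided into three parts `P1, P2, R`; a vertex is `(X, Y, Q)` with
`|X| + |Y| + |Q| = k - 1`; the neighbours are `(Xᶜ.erase x, Yᶜ, Qᶜ)` (`x ∉ X`),
`(Xᶜ, Yᶜ.erase x, Qᶜ)` (`x ∉ Y`), `(Xᶜ, Yᶜ, Qᶜ.erase r)` (`r ∉ Q`). Proof: choose a bijection
`e : Fin (2k-1) ≃ P1 ⊕ P2 ⊕ R` and put `X s = {p | e.symm (inl p) ∈ s}` etc. Apply `two_cut` to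
`V = {s : Finset (Fin (2k-1)) // s.card = k-1}`, `G s t = Disjoint s t`, with
`y s t = y1 / y2 / y3 (X s) (Y s) (Q s) (e x)` where `x` is the missing point. The sum over the
neighbours of `s` is the sum over `x ∉ s`, which splits into the three parts.
-/

set_option autoImplicit false
set_option linter.unusedSectionVars false

namespace OddGr75

section TransAux

variable {n : ℕ}

/-- the missing point -/
theorem trans_exists_missing {k : ℕ} (hk : 2 ≤ k) (s t : Finset (Fin (2 * k - 1)))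
    (hs : s.card = k - 1) (ht : t.card = k - 1) (hd : Disjoint s t) :
    ∃ x, x ∉ s ∧ t = sᶜ.erase x := by
  have hsub : t ⊆ sᶜ := by
    intro y hy
    rw [Finset.mem_compl]
    exact fun h => (Finset.disjoint_left.1 hd) h hy
  have hc : sᶜ.card = k := by
    rw [Finset.card_compl, Fintype.card_fin, hs]
    omega
  have h1 : (sᶜ \ t).card = 1 := by
    rw [Finset.card_sdiff_of_subset hsub, hc, ht]
    omega
  obtain ⟨x, hx⟩ := Finset.card_eq_one.1 h1
  have hxm : x ∈ sᶜ \ t := by rw [hx]; exact Finset.mem_singleton_self x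
  refine ⟨x, Finset.mem_compl.1 (Finset.mem_sdiff.1 hxm).1, ?_⟩
  ext y
  rw [Finset.mem_erase]
  constructor
  · intro hy
    refine ⟨?_, hsub hy⟩
    rintro rfl
    exact (Finset.mem_sdiff.1 hxm).2 hy
  · rintro ⟨hyx, hy⟩
    by_contra hyt
    have : y ∈ sᶜ \ t := Finset.mem_sdiff.2 ⟨hy, hyt⟩
    rw [hx, Finset.mem_singleton] at this
    exact hyx this

theorem trans_erase_inj (s : Finset (Fin n)) {x y : Fin n} (hx : x ∉ s)
    (h : sᶜ.erase x = sᶜ.erase y) : x = y := by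
  by_contra hne
  have h1 : x ∈ sᶜ.erase y := Finset.mem_erase.2 ⟨hne, Finset.mem_compl.2 hx⟩
  rw [← h] at h1
  exact (Finset.mem_erase.1 h1).1 rfl

theorem trans_compl_erase (s : Finset (Fin n)) {x : Fin n} (hx : x ∉ s) :
    (sᶜ.erase x)ᶜ.erase x = s := by
  ext y
  simp only [Finset.mem_erase, Finset.mem_compl]
  constructor
  · rintro ⟨h1, h2⟩
    by_contra h
    exact h2 ⟨h1, h⟩
  · intro h
    refine ⟨?_, fun h' => h'.2 h⟩
    rintro rfl
    exact hx h

theorem trans_card_erase {k : ℕ} (hk : 2 ≤ k) (s : Finset (Fin (2 * k - 1)))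
    (hs : s.card = k - 1) {x : Fin (2 * k - 1)} (hx : x ∉ s) : (sᶜ.erase x).card = k - 1 := by
  rw [Finset.card_erase_of_mem (Finset.mem_compl.2 hx), Finset.card_compl, Fintype.card_fin, hs]
  omega

theorem trans_disj (s : Finset (Fin n)) (x : Fin n) : Disjoint s (sᶜ.erase x) := by
  rw [Finset.disjoint_left]
  intro y hy hy'
  exact (Finset.mem_compl.1 (Finset.mem_erase.1 hy').2) hy

end TransAux

theorem colorable_of_col (k : ℕ) (hk : 2 ≤ k)
    (col : Finset (Fin (2 * k - 1)) → Fin (2 * k - 1) → ℕ)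
    (hlt : ∀ s x, s.card = k - 1 → x ∉ s → col s x < k)
    (hsym : ∀ s x, s.card = k - 1 → x ∉ s → col (sᶜ.erase x) x = col s x)
    (hinj : ∀ s x y, s.card = k - 1 → x ∉ s → y ∉ s → col s x = col s y → x = y) :
    (SimpleGraph.fromRel
      (fun s t : {s : Finset (Fin (2 * k - 1)) // s.card = k - 1} =>
        Disjoint s.1 t.1)).lineGraph.Colorable k := by
  classical
  set G := SimpleGraph.fromRel
      (fun s t : {s : Finset (Fin (2 * k - 1)) // s.card = k - 1} => Disjoint s.1 t.1) with hG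
  have key : ∀ e : G.edgeSet, ∃ c : Fin k, ∀ (s t : {s : Finset (Fin (2 * k - 1)) // s.card = k - 1})
      (x : Fin (2 * k - 1)), e.1 = s(s, t) → x ∉ s.1 → t.1 = s.1ᶜ.erase x → col s.1 x = c := by
    rintro ⟨e, he⟩
    induction e using Sym2.ind with
    | _ s t =>
      rw [SimpleGraph.mem_edgeSet, hG, SimpleGraph.fromRel_adj] at he
      have hd : Disjoint s.1 t.1 := he.2.elim id (fun h => h.symm)
      obtain ⟨x, hx, ht⟩ := trans_exists_missing hk s.1 t.1 s.2 t.2 hd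
      refine ⟨⟨col s.1 x, hlt _ _ s.2 hx⟩, ?_⟩
      intro s' t' x' hst hx' ht'
      simp only at hst ⊢
      rw [Sym2.eq_iff] at hst
      rcases hst with ⟨rfl, rfl⟩ | ⟨rfl, rfl⟩
      · rw [trans_erase_inj s.1 hx (ht.symm.trans ht')]
      · have hxx : x = x' := by
          by_contra hne
          have h1 : x ∈ t.1ᶜ.erase x' := by
            rw [Finset.mem_erase, Finset.mem_compl, ht]
            exact ⟨hne, fun h => (Finset.mem_erase.1 h).1 rfl⟩
          rw [← ht'] at h1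
          exact hx h1
        subst hxx
        rw [ht]
        exact hsym _ _ s.2 hx
  choose c hc using key
  refine ⟨SimpleGraph.Coloring.mk c ?_⟩
  rintro ⟨e1, he1⟩ ⟨e2, he2⟩ hadj hcc
  rw [SimpleGraph.lineGraph_adj_iff_exists] at hadj
  obtain ⟨hne, s, hs1, hs2⟩ := hadj
  obtain ⟨t1, rfl⟩ := Sym2.mem_iff_exists.1 hs1
  obtain ⟨t2, rfl⟩ := Sym2.mem_iff_exists.1 hs2
  have he1' := he1
  have he2' := he2
  rw [SimpleGraph.mem_edgeSet, hG, SimpleGraph.fromRel_adj] at he1' he2'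
  have hd1 : Disjoint s.1 t1.1 := he1'.2.elim id (fun h => h.symm)
  have hd2 : Disjoint s.1 t2.1 := he2'.2.elim id (fun h => h.symm)
  obtain ⟨x1, hx1, ht1⟩ := trans_exists_missing hk s.1 t1.1 s.2 t1.2 hd1
  obtain ⟨x2, hx2, ht2⟩ := trans_exists_missing hk s.1 t2.1 s.2 t2.2 hd2
  have h1 := hc ⟨s(s, t1), he1⟩ s t1 x1 rfl hx1 ht1
  have h2 := hc ⟨s(s, t2), he2⟩ s t2 x2 rfl hx2 ht2
  have h3 : x1 = x2 := hinj s.1 x1 x2 s.2 hx1 hx2 (by rw [h1, h2, hcc])
  apply hne
  have h4 : t1 = t2 := Subtype.ext (by rw [ht1, ht2, h3])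
  rw [Subtype.mk.injEq, h4]

section SplitAux

variable {n : ℕ} {P1 P2 R : Type} [Fintype P1] [Fintype P2] [Fintype R] [DecidableEq P1]
    [DecidableEq P2] [DecidableEq R] (e : Fin n ≃ P1 ⊕ (P2 ⊕ R))

/-- first part of a set -/
def trX (s : Finset (Fin n)) : Finset P1 :=
  Finset.univ.filter (fun p => e.symm (Sum.inl p) ∈ s)

/-- second part of a set -/
def trY (s : Finset (Fin n)) : Finset P2 :=
  Finset.univ.filter (fun p => e.symm (Sum.inr (Sum.inl p)) ∈ s)

/-- third part of a set -/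
def trQ (s : Finset (Fin n)) : Finset R :=
  Finset.univ.filter (fun p => e.symm (Sum.inr (Sum.inr p)) ∈ s)

theorem trX_compl (s : Finset (Fin n)) : trX e sᶜ = (trX e s)ᶜ := by
  ext p; simp [trX]

theorem trY_compl (s : Finset (Fin n)) : trY e sᶜ = (trY e s)ᶜ := by
  ext p; simp [trY]

theorem trQ_compl (s : Finset (Fin n)) : trQ e sᶜ = (trQ e s)ᶜ := by
  ext p; simp [trQ]

theorem tr_sum (s : Finset (Fin n)) (f : Fin n → ℚ) :
    ∑ x ∈ s, f x = ∑ p ∈ trX e s, f (e.symm (Sum.inl p)) +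
      ∑ p ∈ trY e s, f (e.symm (Sum.inr (Sum.inl p))) +
      ∑ p ∈ trQ e s, f (e.symm (Sum.inr (Sum.inr p))) := by
  have h1 : ∑ x ∈ s, f x = ∑ x : Fin n, if x ∈ s then f x else 0 := by
    rw [Finset.sum_ite_mem, Finset.univ_inter]
  rw [h1, ← Equiv.sum_comp e.symm, Fintype.sum_sum_type, Fintype.sum_sum_type]
  unfold trX trY trQ
  rw [Finset.sum_filter, Finset.sum_filter, Finset.sum_filter, add_assoc]

theorem tr_card (s : Finset (Fin n)) :
    (trX e s).card + (trY e s).card + (trQ e s).card = s.card := by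
  have h := tr_sum e s (fun _ => 1)
  simp only [Finset.sum_const, nsmul_eq_mul, mul_one] at h
  exact_mod_cast h.symm

theorem tr_inl (s : Finset (Fin n)) (p : P1) :
    trX e (s.erase (e.symm (Sum.inl p))) = (trX e s).erase p ∧
    trY e (s.erase (e.symm (Sum.inl p))) = trY e s ∧
    trQ e (s.erase (e.symm (Sum.inl p))) = trQ e s := by
  refine ⟨?_, ?_, ?_⟩ <;> ext q <;> simp [trX, trY, trQ]

theorem tr_inr_inl (s : Finset (Fin n)) (p : P2) :
    trX e (s.erase (e.symm (Sum.inr (Sum.inl p)))) = trX e s ∧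
    trY e (s.erase (e.symm (Sum.inr (Sum.inl p)))) = (trY e s).erase p ∧
    trQ e (s.erase (e.symm (Sum.inr (Sum.inl p)))) = trQ e s := by
  refine ⟨?_, ?_, ?_⟩ <;> ext q <;> simp [trX, trY, trQ]

theorem tr_inr_inr (s : Finset (Fin n)) (p : R) :
    trX e (s.erase (e.symm (Sum.inr (Sum.inr p)))) = trX e s ∧
    trY e (s.erase (e.symm (Sum.inr (Sum.inr p)))) = trY e s ∧
    trQ e (s.erase (e.symm (Sum.inr (Sum.inr p)))) = (trQ e s).erase p := by
  refine ⟨?_, ?_, ?_⟩ <;> ext q <;> simp [trX, trY, trQ]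

/-- the value of a point -/
def trV (y1 : Finset P1 → Finset P2 → Finset R → P1 → ℚ)
    (y2 : Finset P1 → Finset P2 → Finset R → P2 → ℚ)
    (y3 : Finset P1 → Finset P2 → Finset R → R → ℚ) (s : Finset (Fin n)) (x : Fin n) : ℚ :=
  match e x with
  | Sum.inl p => y1 (trX e s) (trY e s) (trQ e s) p
  | Sum.inr (Sum.inl p) => y2 (trX e s) (trY e s) (trQ e s) p
  | Sum.inr (Sum.inr p) => y3 (trX e s) (trY e s) (trQ e s) p

variable (y1 : Finset P1 → Finset P2 → Finset R → P1 → ℚ)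
    (y2 : Finset P1 → Finset P2 → Finset R → P2 → ℚ)
    (y3 : Finset P1 → Finset P2 → Finset R → R → ℚ)

theorem trV_inl (s : Finset (Fin n)) (p : P1) :
    trV e y1 y2 y3 s (e.symm (Sum.inl p)) = y1 (trX e s) (trY e s) (trQ e s) p := by
  simp [trV]

theorem trV_inr_inl (s : Finset (Fin n)) (p : P2) :
    trV e y1 y2 y3 s (e.symm (Sum.inr (Sum.inl p))) = y2 (trX e s) (trY e s) (trQ e s) p := by
  simp [trV]

theorem trV_inr_inr (s : Finset (Fin n)) (p : R) :
    trV e y1 y2 y3 s (e.symm (Sum.inr (Sum.inr p))) = y3 (trX e s) (trY e s) (trQ e s) p := by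
  simp [trV]

/-- a statement for all missing points, in the three parts -/
theorem tr_cases {s : Finset (Fin n)} {M : Fin n → Prop}
    (h1 : ∀ p, p ∉ trX e s → M (e.symm (Sum.inl p)))
    (h2 : ∀ p, p ∉ trY e s → M (e.symm (Sum.inr (Sum.inl p))))
    (h3 : ∀ p, p ∉ trQ e s → M (e.symm (Sum.inr (Sum.inr p)))) (x : Fin n) (hx : x ∉ s) : M x := by
  obtain ⟨z, rfl⟩ := e.symm.surjective x
  rcases z with p | p | p
  · exact h1 p (by simpa [trX] using hx)
  · exact h2 p (by simpa [trY] using hx)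
  · exact h3 p (by simpa [trQ] using hx)

end SplitAux

/-- reduction of `split` to values on the sets with a missing point -/
theorem split_core (k : ℕ) (hk : 2 ≤ k) (d1 d2 : ℕ) (hd : d1 + d2 = k)
    (y : Finset (Fin (2 * k - 1)) → Fin (2 * k - 1) → ℚ) (s1 s2 : Finset (Fin (2 * k - 1)) → Bool)
    (sym : ∀ s x, s.card = k - 1 → x ∉ s → y (sᶜ.erase x) x = y s x)
    (b : ∀ s x, s.card = k - 1 → x ∉ s → |y s x| ≤ 1)
    (c1 : ∀ s x, s.card = k - 1 → x ∉ s → s1 s = s1 (sᶜ.erase x) → y s x = -1)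
    (c2 : ∀ s x, s.card = k - 1 → x ∉ s → s2 s = s2 (sᶜ.erase x) → y s x = 1)
    (hsum : ∀ s, s.card = k - 1 → ∑ x ∈ sᶜ, y s x = (d1 : ℚ) - d2) :
    (SimpleGraph.fromRel
      (fun s t : {s : Finset (Fin (2 * k - 1)) // s.card = k - 1} =>
        Disjoint s.1 t.1)).lineGraph.Colorable k := by
  classical
  have hval : ∀ (s : Finset (Fin (2 * k - 1))) (x : Fin (2 * k - 1)), x ∉ s →
      ∑ z ∈ (s ∪ sᶜ.erase x)ᶜ, y s z = y s x := by
    intro s x hx
    have : (s ∪ sᶜ.erase x)ᶜ = {x} := by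
      ext z
      simp only [Finset.mem_compl, Finset.mem_union, Finset.mem_erase, Finset.mem_singleton]
      constructor
      · intro h
        by_contra hne
        by_cases hz : z ∈ s
        · exact h (Or.inl hz)
        · exact h (Or.inr ⟨hne, hz⟩)
      · rintro rfl h
        rcases h with h | h
        · exact hx h
        · exact h.1 rfl
    rw [this, Finset.sum_singleton]
  have hG : ∀ s t : {s : Finset (Fin (2 * k - 1)) // s.card = k - 1}, Disjoint s.1 t.1 →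
      ∃ x, x ∉ s.1 ∧ t.1 = s.1ᶜ.erase x := fun s t h =>
    trans_exists_missing hk s.1 t.1 s.2 t.2 h
  -- the neighbours
  have hnb : ∀ s : {s : Finset (Fin (2 * k - 1)) // s.card = k - 1},
      (Finset.univ.filter (fun t : {s : Finset (Fin (2 * k - 1)) // s.card = k - 1} =>
        Disjoint s.1 t.1)) = s.1ᶜ.attach.image (fun x =>
          (⟨s.1ᶜ.erase x.1, trans_card_erase hk s.1 s.2 (Finset.mem_compl.1 x.2)⟩ :
            {s : Finset (Fin (2 * k - 1)) // s.card = k - 1})) := by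
    intro s
    ext t
    rw [Finset.mem_filter, Finset.mem_image]
    constructor
    · rintro ⟨_, h⟩
      obtain ⟨x, hx, ht⟩ := hG s t h
      exact ⟨⟨x, Finset.mem_compl.2 hx⟩, Finset.mem_attach _ _, Subtype.ext ht.symm⟩
    · rintro ⟨x, _, rfl⟩
      exact ⟨Finset.mem_univ _, trans_disj s.1 x.1⟩
  have hinj : ∀ s : {s : Finset (Fin (2 * k - 1)) // s.card = k - 1},
      Set.InjOn (fun x : {x // x ∈ s.1ᶜ} =>
          (⟨s.1ᶜ.erase x.1, trans_card_erase hk s.1 s.2 (Finset.mem_compl.1 x.2)⟩ :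
            {s : Finset (Fin (2 * k - 1)) // s.card = k - 1})) (s.1ᶜ.attach : Finset _) := by
    intro s x _ x' _ h
    rw [Subtype.mk.injEq] at h
    exact Subtype.ext (trans_erase_inj s.1 (Finset.mem_compl.1 x.2) h)
  obtain ⟨C, hC1, hC2, hC3⟩ := two_cut
    (V := {s : Finset (Fin (2 * k - 1)) // s.card = k - 1})
    (fun s t => Disjoint s.1 t.1)
    (fun s t => ∑ z ∈ (s.1 ∪ t.1)ᶜ, y s.1 z) (fun s => s1 s.1) (fun s => s2 s.1) d1 d2
    (fun s t h => h.symm)
    (by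
      intro s t h
      obtain ⟨x, hx, ht⟩ := hG s t h
      have h1 := sym s.1 x s.2 hx
      have hx' : x ∉ s.1ᶜ.erase x := fun h => (Finset.mem_erase.1 h).1 rfl
      have h2 := hval (s.1ᶜ.erase x) x hx'
      rw [trans_compl_erase s.1 hx] at h2
      show ∑ z ∈ (t.1 ∪ s.1)ᶜ, y t.1 z = ∑ z ∈ (s.1 ∪ t.1)ᶜ, y s.1 z
      rw [ht, h2, hval s.1 x hx, h1])
    (by
      intro s t h
      obtain ⟨x, hx, ht⟩ := hG s t h
      show |∑ z ∈ (s.1 ∪ t.1)ᶜ, y s.1 z| ≤ 1
      rw [ht, hval s.1 x hx]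
      exact b s.1 x s.2 hx)
    (by
      intro s t h h1
      obtain ⟨x, hx, ht⟩ := hG s t h
      show ∑ z ∈ (s.1 ∪ t.1)ᶜ, y s.1 z = -1
      rw [ht, hval s.1 x hx]
      exact c1 s.1 x s.2 hx (by rw [← ht]; exact h1))
    (by
      intro s t h h1
      obtain ⟨x, hx, ht⟩ := hG s t h
      show ∑ z ∈ (s.1 ∪ t.1)ᶜ, y s.1 z = 1
      rw [ht, hval s.1 x hx]
      exact c2 s.1 x s.2 hx (by rw [← ht]; exact h1))
    (by
      intro s
      rw [hnb s, Finset.card_image_of_injOn (hinj s), Finset.card_attach, Finset.card_compl,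
        Fintype.card_fin, s.2]
      omega)
    (by
      intro s
      rw [hnb s, Finset.sum_image (fun a ha b hb h => hinj s ha hb h)]
      rw [← hsum s.1 s.2, ← Finset.sum_attach s.1ᶜ]
      refine Finset.sum_congr rfl fun x _ => ?_
      exact hval s.1 x.1 (Finset.mem_compl.1 x.2))
  refine colorable_of_col k hk (fun s x => if h : s.card = k - 1 ∧ x ∉ s then
    C ⟨s, h.1⟩ ⟨sᶜ.erase x, trans_card_erase hk s h.1 h.2⟩ else 0) ?_ ?_ ?_
  · intro s x hs hx
    rw [dif_pos ⟨hs, hx⟩]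
    have := hC2 ⟨s, hs⟩ ⟨sᶜ.erase x, trans_card_erase hk s hs hx⟩ (trans_disj s x)
    rwa [hd] at this
  · intro s x hs hx
    have hx' : x ∉ sᶜ.erase x := fun h => (Finset.mem_erase.1 h).1 rfl
    rw [dif_pos ⟨trans_card_erase hk s hs hx, hx'⟩, dif_pos ⟨hs, hx⟩]
    rw [hC1 ⟨s, hs⟩ ⟨sᶜ.erase x, trans_card_erase hk s hs hx⟩ (trans_disj s x)]
    congr 1
    exact Subtype.ext (trans_compl_erase s hx)
  · intro s x x' hs hx hx' h
    rw [dif_pos ⟨hs, hx⟩, dif_pos ⟨hs, hx'⟩] at h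
    have := hC3 _ _ _ (trans_disj s x) (trans_disj s x') h
    rw [Subtype.mk.injEq] at this
    exact trans_erase_inj s hx this

theorem split {P1 P2 R : Type} [Fintype P1] [Fintype P2] [Fintype R] [DecidableEq P1]
    [DecidableEq P2] [DecidableEq R] (k : ℕ) (hk : 2 ≤ k)
    (hcard : Fintype.card P1 + Fintype.card P2 + Fintype.card R = 2 * k - 1)
    (d1 d2 : ℕ) (hd : d1 + d2 = k)
    (y1 : Finset P1 → Finset P2 → Finset R → P1 → ℚ)
    (y2 : Finset P1 → Finset P2 → Finset R → P2 → ℚ)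
    (y3 : Finset P1 → Finset P2 → Finset R → R → ℚ)
    (s1 s2 : Finset P1 → Finset P2 → Finset R → Bool)
    (sym1 : ∀ (X : Finset P1) (Y : Finset P2) (Q : Finset R) (x : P1),
      X.card + Y.card + Q.card + 1 = k → x ∉ X →
      y1 (Xᶜ.erase x) Yᶜ Qᶜ x = y1 X Y Q x)
    (sym2 : ∀ (X : Finset P1) (Y : Finset P2) (Q : Finset R) (x : P2),
      X.card + Y.card + Q.card + 1 = k → x ∉ Y →
      y2 Xᶜ (Yᶜ.erase x) Qᶜ x = y2 X Y Q x)
    (sym3 : ∀ (X : Finset P1) (Y : Finset P2) (Q : Finset R) (x : R),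
      X.card + Y.card + Q.card + 1 = k → x ∉ Q →
      y3 Xᶜ Yᶜ (Qᶜ.erase x) x = y3 X Y Q x)
    (b1 : ∀ (X : Finset P1) (Y : Finset P2) (Q : Finset R) (x : P1),
      X.card + Y.card + Q.card + 1 = k → x ∉ X → |y1 X Y Q x| ≤ 1)
    (b2 : ∀ (X : Finset P1) (Y : Finset P2) (Q : Finset R) (x : P2),
      X.card + Y.card + Q.card + 1 = k → x ∉ Y → |y2 X Y Q x| ≤ 1)
    (b3 : ∀ (X : Finset P1) (Y : Finset P2) (Q : Finset R) (x : R),
      X.card + Y.card + Q.card + 1 = k → x ∉ Q → |y3 X Y Q x| ≤ 1)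
    (c1 : ∀ (X : Finset P1) (Y : Finset P2) (Q : Finset R) (x : P1),
      X.card + Y.card + Q.card + 1 = k → x ∉ X →
      (s1 X Y Q = s1 (Xᶜ.erase x) Yᶜ Qᶜ → y1 X Y Q x = -1) ∧
      (s2 X Y Q = s2 (Xᶜ.erase x) Yᶜ Qᶜ → y1 X Y Q x = 1))
    (c2 : ∀ (X : Finset P1) (Y : Finset P2) (Q : Finset R) (x : P2),
      X.card + Y.card + Q.card + 1 = k → x ∉ Y →
      (s1 X Y Q = s1 Xᶜ (Yᶜ.erase x) Qᶜ → y2 X Y Q x = -1) ∧
      (s2 X Y Q = s2 Xᶜ (Yᶜ.erase x) Qᶜ → y2 X Y Q x = 1))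
    (c3 : ∀ (X : Finset P1) (Y : Finset P2) (Q : Finset R) (x : R),
      X.card + Y.card + Q.card + 1 = k → x ∉ Q →
      (s1 X Y Q = s1 Xᶜ Yᶜ (Qᶜ.erase x) → y3 X Y Q x = -1) ∧
      (s2 X Y Q = s2 Xᶜ Yᶜ (Qᶜ.erase x) → y3 X Y Q x = 1))
    (hsum : ∀ (X : Finset P1) (Y : Finset P2) (Q : Finset R), X.card + Y.card + Q.card + 1 = k →
      ∑ x ∈ Xᶜ, y1 X Y Q x + ∑ x ∈ Yᶜ, y2 X Y Q x + ∑ x ∈ Qᶜ, y3 X Y Q x = (d1 : ℚ) - d2) :
    (SimpleGraph.fromRel
      (fun s t : {s : Finset (Fin (2 * k - 1)) // s.card = k - 1} =>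
        Disjoint s.1 t.1)).lineGraph.Colorable k := by
  classical
  have hce : Fintype.card (Fin (2 * k - 1)) = Fintype.card (P1 ⊕ (P2 ⊕ R)) := by
    rw [Fintype.card_fin, Fintype.card_sum, Fintype.card_sum, ← hcard]
    omega
  have e : Fin (2 * k - 1) ≃ P1 ⊕ (P2 ⊕ R) := Fintype.equivOfCardEq hce
  have hc : ∀ s : Finset (Fin (2 * k - 1)), s.card = k - 1 →
      (trX e s).card + (trY e s).card + (trQ e s).card + 1 = k := by
    intro s hs
    rw [tr_card, hs]
    omega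
  refine split_core k hk d1 d2 hd (trV e y1 y2 y3)
    (fun s => s1 (trX e s) (trY e s) (trQ e s)) (fun s => s2 (trX e s) (trY e s) (trQ e s))
    ?_ ?_ ?_ ?_ ?_
  · intro s x hs
    refine tr_cases e (s := s) (M := fun x => trV e y1 y2 y3 (sᶜ.erase x) x = trV e y1 y2 y3 s x)
      (fun p hp => ?_) (fun p hp => ?_) (fun p hp => ?_) x
    · rw [trV_inl, trV_inl, (tr_inl e _ p).1, (tr_inl e _ p).2.1, (tr_inl e _ p).2.2, trX_compl,
        trY_compl, trQ_compl]
      exact sym1 _ _ _ _ (hc s hs) hp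
    · rw [trV_inr_inl, trV_inr_inl, (tr_inr_inl e _ p).1, (tr_inr_inl e _ p).2.1,
        (tr_inr_inl e _ p).2.2, trX_compl, trY_compl, trQ_compl]
      exact sym2 _ _ _ _ (hc s hs) hp
    · rw [trV_inr_inr, trV_inr_inr, (tr_inr_inr e _ p).1, (tr_inr_inr e _ p).2.1,
        (tr_inr_inr e _ p).2.2, trX_compl, trY_compl, trQ_compl]
      exact sym3 _ _ _ _ (hc s hs) hp
  · intro s x hs
    refine tr_cases e (s := s) (M := fun x => |trV e y1 y2 y3 s x| ≤ 1)
      (fun p hp => ?_) (fun p hp => ?_) (fun p hp => ?_) x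
    · rw [trV_inl]
      exact b1 _ _ _ _ (hc s hs) hp
    · rw [trV_inr_inl]
      exact b2 _ _ _ _ (hc s hs) hp
    · rw [trV_inr_inr]
      exact b3 _ _ _ _ (hc s hs) hp
  · intro s x hs
    refine tr_cases e (s := s) (M := fun x => s1 (trX e s) (trY e s) (trQ e s) =
      s1 (trX e (sᶜ.erase x)) (trY e (sᶜ.erase x)) (trQ e (sᶜ.erase x)) → trV e y1 y2 y3 s x = -1)
      (fun p hp => ?_) (fun p hp => ?_) (fun p hp => ?_) x
    · rw [trV_inl, (tr_inl e _ p).1, (tr_inl e _ p).2.1, (tr_inl e _ p).2.2, trX_compl,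
        trY_compl, trQ_compl]
      exact (c1 _ _ _ _ (hc s hs) hp).1
    · rw [trV_inr_inl, (tr_inr_inl e _ p).1, (tr_inr_inl e _ p).2.1,
        (tr_inr_inl e _ p).2.2, trX_compl, trY_compl, trQ_compl]
      exact (c2 _ _ _ _ (hc s hs) hp).1
    · rw [trV_inr_inr, (tr_inr_inr e _ p).1, (tr_inr_inr e _ p).2.1,
        (tr_inr_inr e _ p).2.2, trX_compl, trY_compl, trQ_compl]
      exact (c3 _ _ _ _ (hc s hs) hp).1
  · intro s x hs
    refine tr_cases e (s := s) (M := fun x => s2 (trX e s) (trY e s) (trQ e s) =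
      s2 (trX e (sᶜ.erase x)) (trY e (sᶜ.erase x)) (trQ e (sᶜ.erase x)) → trV e y1 y2 y3 s x = 1)
      (fun p hp => ?_) (fun p hp => ?_) (fun p hp => ?_) x
    · rw [trV_inl, (tr_inl e _ p).1, (tr_inl e _ p).2.1, (tr_inl e _ p).2.2, trX_compl,
        trY_compl, trQ_compl]
      exact (c1 _ _ _ _ (hc s hs) hp).2
    · rw [trV_inr_inl, (tr_inr_inl e _ p).1, (tr_inr_inl e _ p).2.1,
        (tr_inr_inl e _ p).2.2, trX_compl, trY_compl, trQ_compl]
      exact (c2 _ _ _ _ (hc s hs) hp).2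
    · rw [trV_inr_inr, (tr_inr_inr e _ p).1, (tr_inr_inr e _ p).2.1,
        (tr_inr_inr e _ p).2.2, trX_compl, trY_compl, trQ_compl]
      exact (c3 _ _ _ _ (hc s hs) hp).2
  · intro s hs
    rw [tr_sum e, trX_compl, trY_compl, trQ_compl, ← hsum _ _ _ (hc s hs)]
    simp only [trV_inl, trV_inr_inl, trV_inr_inr]

end OddGr75
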