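import Pool.Agent.OddGr75.Konig

/-!
# Module OG-TWOCUT (MP_d22128_co, helper75): the two-cut theorem.

`V` a finite type, `G` a symmetric relation (the graph), all degrees `d1 + d2`; `y u v` symmetric
on the edges with `|y| ≤ 1`, and all sums `∑_{v ~ u} y u v = d1 - d2`; two functions `s1 s2 : V → Bool` with
`s1 u = s1 v → y u v = -1` and `s2 u = s2 v → y u v = 1` for every edge `uv`. Then the edges of `G`
can be properly coloured with `d1 + d2` colours.

Proof. `q = (1+y)/2` on the edges, `0` elsewhere. `q` is symmetric, in `[0,1]`, all sums are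
`d1`, and `q u v = 0` if `s1 u = s1 v`. Apply `mat_round` to `L = {s1 = false}`,
`R = {s1 = true}` (the row sum over `R` is the full sum because `q = 0` inside `L`): we get a
symmetric relation `H1` contained in `G` with all degrees `d1`, containing all edges with `q = 1` and
with `s1` different at the ends. `H2 := G \ H1` has all degrees `d2`, and its edges have `q ≠ 1`,
so `y ≠ 1`, so `s2` is different at the ends. `graph_konig` for `H1` (with `s1`) and `H2` (with
`s2`): colour `H1` by `0..d1-1` and `H2` by `d1..d1+d2-1`.
-/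

set_option autoImplicit false

namespace OddGr75

/-- a sum over `V` of a function vanishing off a decidable set is a sum over the subtype -/
theorem TwoCut_sum_subtype {V : Type} [Fintype V] (p : V → Prop) [DecidablePred p] (f : V → ℚ)
    (hf : ∀ v, ¬ p v → f v = 0) : ∑ v : {v // p v}, f v = ∑ v, f v := by
  rw [← Finset.sum_filter_add_sum_filter_not Finset.univ p f,
    Finset.sum_eq_zero (s := Finset.univ.filter (fun v => ¬ p v))
      (fun v hv => hf v (Finset.mem_filter.1 hv).2), add_zero]
  exact (Finset.sum_subtype (Finset.univ.filter p) (fun v => by simp) f).symm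

theorem TwoCut_card_subtype {V : Type} [Fintype V] (p r : V → Prop) [DecidablePred p]
    [DecidablePred r] (hr : ∀ v, r v → p v) :
    (Finset.univ.filter (fun v : {v // p v} => r v)).card = (Finset.univ.filter r).card := by
  refine Finset.card_bij (fun v _ => (v : V)) ?_ ?_ ?_
  · intro v hv
    simpa using hv
  · intro a _ b _ h
    exact Subtype.ext h
  · intro b hb
    have hb' : r b := by simpa using hb
    exact ⟨⟨b, hr b hb'⟩, by simpa using hb', rfl⟩

theorem two_cut {V : Type} [Fintype V] [DecidableEq V] (G : V → V → Prop) [DecidableRel G]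
    (y : V → V → ℚ) (s1 s2 : V → Bool) (d1 d2 : ℕ)
    (hG : ∀ u v, G u v → G v u) (hsym : ∀ u v, G u v → y v u = y u v)
    (hb : ∀ u v, G u v → |y u v| ≤ 1)
    (h1 : ∀ u v, G u v → s1 u = s1 v → y u v = -1)
    (h2 : ∀ u v, G u v → s2 u = s2 v → y u v = 1)
    (hdeg : ∀ u, (Finset.univ.filter (fun v => G u v)).card = d1 + d2)
    (hsum : ∀ u, ∑ v ∈ Finset.univ.filter (fun v => G u v), y u v = (d1 : ℚ) - d2) :
    ∃ C : V → V → ℕ, (∀ u v, G u v → C u v = C v u) ∧ (∀ u v, G u v → C u v < d1 + d2) ∧
      (∀ u v w, G u v → G u w → C u v = C u w → v = w) := by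
  classical
  let q : V → V → ℚ := fun u v => if G u v then (1 + y u v) / 2 else 0
  have hq_sum : ∀ u, ∑ v, q u v = d1 := by
    intro u
    have e1 : ∑ v, q u v = ∑ v ∈ Finset.univ.filter (fun v => G u v), (1 + y u v) / 2 := by
      rw [Finset.sum_filter]
    rw [e1, ← Finset.sum_div, Finset.sum_add_distrib, hsum u, Finset.sum_const, hdeg u,
      nsmul_eq_mul, mul_one]
    push_cast
    ring
  have hq_symm : ∀ u v, q u v = q v u := by
    intro u v
    by_cases h : G u v
    · simp only [q, if_pos h, if_pos (hG u v h), hsym u v h]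
    · have h' : ¬ G v u := fun h' => h (hG v u h')
      simp only [q, if_neg h, if_neg h']
  have hq0 : ∀ u v, 0 ≤ q u v := by
    intro u v
    by_cases h : G u v
    · simp only [q, if_pos h]
      have := abs_le.1 (hb u v h)
      linarith [this.1]
    · simp only [q, if_neg h]; exact le_refl _
  have hq1 : ∀ u v, q u v ≤ 1 := by
    intro u v
    by_cases h : G u v
    · simp only [q, if_pos h]
      have := abs_le.1 (hb u v h)
      linarith [this.2]
    · simp only [q, if_neg h]; exact zero_le_one
  have hqs : ∀ u v, s1 u = s1 v → q u v = 0 := by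
    intro u v h
    by_cases hg : G u v
    · simp only [q, if_pos hg, h1 u v hg h]; norm_num
    · simp only [q, if_neg hg]
  have hqG : ∀ u v, q u v ≠ 0 → G u v := by
    intro u v h
    by_contra hg
    exact h (by simp only [q, if_neg hg])
  obtain ⟨x, hx0, hx1, hxr, hxc⟩ := mat_round (L := {v // s1 v = false}) (R := {v // s1 v = true})
    (fun i j => q i j) d1 (fun i j => hq0 i j) (fun i j => hq1 i j)
    (by
      intro i
      rw [TwoCut_sum_subtype (fun v => s1 v = true) (fun v => q i v), hq_sum]
      intro v hv
      refine hqs _ _ ?_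
      rw [i.2]
      simpa using hv)
    (by
      intro j
      have e : ∀ i : {v // s1 v = false}, q i j = q j i := fun i => hq_symm _ _
      simp only [e]
      rw [TwoCut_sum_subtype (fun v => s1 v = false) (fun v => q j v), hq_sum]
      intro v hv
      refine hqs _ _ ?_
      rw [j.2]
      simpa using hv)
  -- the first subgraph
  let H1 : V → V → Prop := fun u v =>
    (∃ (hu : s1 u = false) (hv : s1 v = true), x ⟨u, hu⟩ ⟨v, hv⟩ = true) ∨
    (∃ (hu : s1 u = true) (hv : s1 v = false), x ⟨v, hv⟩ ⟨u, hu⟩ = true)
  have H1symm : ∀ u v, H1 u v → H1 v u := by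
    rintro u v (⟨hu, hv, h⟩ | ⟨hu, hv, h⟩)
    · exact Or.inr ⟨hv, hu, h⟩
    · exact Or.inl ⟨hv, hu, h⟩
  have H1G : ∀ u v, H1 u v → G u v := by
    have aux : ∀ u v (hu : s1 u = false) (hv : s1 v = true), x ⟨u, hu⟩ ⟨v, hv⟩ = true →
        G u v := by
      intro u v hu hv h
      refine hqG u v fun h0 => ?_
      have := hx0 ⟨u, hu⟩ ⟨v, hv⟩ h0
      rw [this] at h
      exact Bool.noConfusion h
    rintro u v (⟨hu, hv, h⟩ | ⟨hu, hv, h⟩)
    · exact aux u v hu hv h
    · exact hG v u (aux v u hv hu h)
  have H1s : ∀ u v, H1 u v → s1 u ≠ s1 v := by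
    rintro u v (⟨hu, hv, -⟩ | ⟨hu, hv, -⟩)
    · rw [hu, hv]; exact Bool.false_ne_true
    · rw [hu, hv]; exact Bool.false_ne_true.symm
  have H1deg : ∀ u, (Finset.univ.filter (fun v => H1 u v)).card = d1 := by
    intro u
    by_cases hu : s1 u = true
    · rw [← hxc ⟨u, hu⟩]
      have e := TwoCut_card_subtype (V := V) (fun v => s1 v = false) (fun v => H1 u v) (by
        rintro v (⟨hu', -, -⟩ | ⟨-, hv, -⟩)
        · rw [hu] at hu'; exact Bool.noConfusion hu'
        · exact hv)
      rw [← e]
      congr 1
      refine Finset.filter_congr fun v _ => ?_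
      constructor
      · rintro (⟨hu', -, -⟩ | ⟨_, hv, h⟩)
        · rw [hu] at hu'; exact Bool.noConfusion hu'
        · exact h
      · intro h
        exact Or.inr ⟨hu, v.2, h⟩
    · have hu' : s1 u = false := by simpa using hu
      rw [← hxr ⟨u, hu'⟩]
      have e := TwoCut_card_subtype (V := V) (fun v => s1 v = true) (fun v => H1 u v) (by
        rintro v (⟨-, hv, -⟩ | ⟨hu'', -, -⟩)
        · exact hv
        · exact absurd hu'' hu)
      rw [← e]
      congr 1
      refine Finset.filter_congr fun v _ => ?_
      constructor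
      · rintro (⟨_, hv, h⟩ | ⟨hu'', -, -⟩)
        · exact h
        · exact absurd hu'' hu
      · intro h
        exact Or.inl ⟨hu', v.2, h⟩
  let H2 : V → V → Prop := fun u v => G u v ∧ ¬ H1 u v
  have H2deg : ∀ u, (Finset.univ.filter (fun v => H2 u v)).card = d2 := by
    intro u
    have e1 : (Finset.univ.filter (fun v => G u v)) =
        (Finset.univ.filter (fun v => H1 u v)) ∪ (Finset.univ.filter (fun v => H2 u v)) := by
      ext v
      simp only [Finset.mem_filter, Finset.mem_univ, true_and, Finset.mem_union, H2]
      constructor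
      · intro h
        by_cases h' : H1 u v
        · exact Or.inl h'
        · exact Or.inr ⟨h, h'⟩
      · rintro (h | h)
        · exact H1G u v h
        · exact h.1
    have e2 : Disjoint (Finset.univ.filter (fun v => H1 u v))
        (Finset.univ.filter (fun v => H2 u v)) := by
      rw [Finset.disjoint_left]
      intro v h h'
      exact (Finset.mem_filter.1 h').2.2 (Finset.mem_filter.1 h).2
    have e3 := hdeg u
    rw [e1, Finset.card_union_of_disjoint e2, H1deg u] at e3
    omega
  have H2s : ∀ u v, H2 u v → s2 u ≠ s2 v := by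
    rintro u v ⟨hg, hn⟩ hs
    apply hn
    have hy := h2 u v hg hs
    have hs1 : s1 u ≠ s1 v := by
      intro hs1
      have := h1 u v hg hs1
      rw [hy] at this
      norm_num at this
    by_cases hu : s1 u = true
    · have hv : s1 v = false := by
        cases hh : s1 v
        · rfl
        · exact absurd (hu.trans hh.symm) hs1
      refine Or.inr ⟨hu, hv, hx1 _ _ ?_⟩
      change q v u = 1
      simp only [q, if_pos (hG u v hg), hsym u v hg, hy]
      norm_num
    · have hu' : s1 u = false := by simpa using hu
      have hv : s1 v = true := by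
        cases hh : s1 v
        · exact absurd (hu'.trans hh.symm) hs1
        · rfl
      refine Or.inl ⟨hu', hv, hx1 _ _ ?_⟩
      change q u v = 1
      simp only [q, if_pos hg, hy]
      norm_num
  obtain ⟨C1, a1, b1, c1⟩ := graph_konig H1 s1 d1 H1symm H1s H1deg
  obtain ⟨C2, a2, b2, c2⟩ := graph_konig H2 s2 d2
    (fun u v h => ⟨hG u v h.1, fun h' => h.2 (H1symm v u h')⟩) H2s H2deg
  refine ⟨fun u v => if H1 u v then C1 u v else d1 + C2 u v, ?_, ?_, ?_⟩
  · intro u v _
    by_cases h : H1 u v
    · simp only [if_pos h, if_pos (H1symm u v h), a1 u v]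
    · have h' : ¬ H1 v u := fun h' => h (H1symm v u h')
      simp only [if_neg h, if_neg h', a2 u v]
  · intro u v hg
    by_cases h : H1 u v
    · simp only [if_pos h]
      have := b1 u v h
      omega
    · simp only [if_neg h]
      have := b2 u v ⟨hg, h⟩
      omega
  · intro u v w hv hw h
    by_cases h3 : H1 u v <;> by_cases h4 : H1 u w
    · simp only [if_pos h3, if_pos h4] at h
      exact c1 u v w h3 h4 h
    · simp only [if_pos h3, if_neg h4] at h
      have := b1 u v h3
      omega
    · simp only [if_neg h3, if_pos h4] at h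
      have := b1 u w h4
      omega
    · simp only [if_neg h3, if_neg h4] at h
      exact c2 u v w ⟨hv, h3⟩ ⟨hw, h4⟩ (by omega)

end OddGr75
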